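import Mathlib

/-! One coordinate: the kernel 'different' on `Fin q` is a slightly contracting bilinear form on
`ℓ_p` with `p = 1 + 1/q`. -/

namespace Pool.Agent.T2h38.JM

open Finset

/-- The (unnormalised) `ℓ_p` norm of a nonnegative function. -/
noncomputable def nrm {α : Type*} [Fintype α] (p : ℝ) (f : α → ℝ) : ℝ := (∑ x, f x ^ p) ^ (1 / p)

/-- The kernel `K` has bilinear `ℓ_p × ℓ_p` norm at most `C` on nonnegative functions. -/
def Bd {α β : Type*} [Fintype α] [Fintype β] (p C : ℝ) (K : α → β → ℝ) : Prop :=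
  ∀ (f : α → ℝ) (g : β → ℝ), (∀ x, 0 ≤ f x) → (∀ y, 0 ≤ g y) →
    ∑ x, ∑ y, K x y * f x * g y ≤ C * nrm p f * nrm p g

theorem nrm_nonneg {α : Type*} [Fintype α] (p : ℝ) (f : α → ℝ) (hf : ∀ x, 0 ≤ f x) :
    0 ≤ nrm p f :=
  Real.rpow_nonneg (Finset.sum_nonneg fun x _ => Real.rpow_nonneg (hf x) _) _

theorem nrm_rpow {α : Type*} [Fintype α] (p : ℝ) (hp : 1 ≤ p) (f : α → ℝ) (hf : ∀ x, 0 ≤ f x) :
    nrm p f ^ p = ∑ x, f x ^ p := by
  unfold nrm
  rw [← Real.rpow_mul (Finset.sum_nonneg fun x _ => Real.rpow_nonneg (hf x) _)]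
  rw [one_div, inv_mul_cancel₀ (by linarith), Real.rpow_one]

theorem nrm_smul {α : Type*} [Fintype α] (p : ℝ) (hp : 1 ≤ p) (f : α → ℝ) (hf : ∀ x, 0 ≤ f x)
    (c : ℝ) (hc : 0 ≤ c) : nrm p (fun x => c * f x) = c * nrm p f := by
  unfold nrm
  have h : ∀ x, (c * f x) ^ p = c ^ p * f x ^ p := fun x => Real.mul_rpow hc (hf x)
  simp_rw [h]
  rw [← Finset.mul_sum, Real.mul_rpow (Real.rpow_nonneg hc _)
    (Finset.sum_nonneg fun x _ => Real.rpow_nonneg (hf x) _), ← Real.rpow_mul hc]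
  rw [mul_one_div_cancel (by linarith), Real.rpow_one]

/-- Power mean: `∑ f ≤ |α|^{1-1/p} ‖f‖_p`. -/
theorem sum_le_nrm {α : Type*} [Fintype α] (p : ℝ) (hp : 1 ≤ p) (f : α → ℝ)
    (hf : ∀ x, 0 ≤ f x) :
    ∑ x, f x ≤ (Fintype.card α : ℝ) ^ (1 - 1 / p) * nrm p f := by
  have hp0 : 0 < p := by linarith
  have h := Real.rpow_sum_le_const_mul_sum_rpow_of_nonneg (s := (Finset.univ : Finset α)) (f := f)
    hp (fun i _ => hf i)
  have hs : 0 ≤ ∑ x, f x := Finset.sum_nonneg fun x _ => hf x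
  have h2 : ((∑ x, f x) ^ p) ^ (1 / p) ≤
      (((Finset.univ : Finset α).card : ℝ) ^ (p - 1) * ∑ x, f x ^ p) ^ (1 / p) :=
    Real.rpow_le_rpow (Real.rpow_nonneg hs _) h (by positivity)
  rw [← Real.rpow_mul hs, mul_one_div_cancel hp0.ne', Real.rpow_one] at h2
  rw [Real.mul_rpow (by positivity)
    (Finset.sum_nonneg fun x _ => Real.rpow_nonneg (hf x) _), ← Real.rpow_mul (by positivity)] at h2
  have he : (p - 1) * (1 / p) = 1 - 1 / p := by field_simp
  rw [he, Finset.card_univ] at h2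
  exact h2

theorem rpow_ge (p s : ℝ) (hp : 1 ≤ p) (hs : 0 ≤ s) : 1 + p * (s - 1) ≤ s ^ p := by
  have h := one_add_mul_self_le_rpow_one_add (s := s - 1) (by linarith) hp
  have e : 1 + (s - 1) = s := by ring
  rwa [e] at h

theorem rpow_low (p s : ℝ) (hp : 1 ≤ p) (hs0 : 0 ≤ s) (hs : s ≤ 1 / 2) :
    1 + p * (s - 1) + (p - 1) / 8 ≤ s ^ p := by
  have h1 := rpow_ge p (2 * s) hp (by linarith)
  have e1 : s ^ p = (1 / 2 : ℝ) ^ p * (2 * s) ^ p := by
    rw [← Real.mul_rpow (by norm_num) (by linarith)]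
    congr 1
    ring
  have e2 : (1 / 2 : ℝ) ^ p = (1 / 2 : ℝ) ^ (p - 1) * (1 / 2) := by
    have := Real.rpow_add (x := (1 / 2 : ℝ)) (by norm_num) (p - 1) 1
    rw [Real.rpow_one] at this
    rw [← this]
    congr 1
    ring
  have hc : 1 - (p - 1) * Real.log 2 ≤ (1 / 2 : ℝ) ^ (p - 1) := by
    rw [Real.rpow_def_of_pos (by norm_num)]
    have hl : Real.log (1 / 2) = - Real.log 2 := by
      rw [one_div, Real.log_inv]
    rw [hl]
    have := Real.add_one_le_exp (-Real.log 2 * (p - 1))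
    linarith
  have hc1 : (1 / 2 : ℝ) ^ (p - 1) ≤ 1 :=
    Real.rpow_le_one (by norm_num) (by norm_num) (by linarith)
  have hc0 : 0 ≤ (1 / 2 : ℝ) ^ (p - 1) := by positivity
  set c := (1 / 2 : ℝ) ^ (p - 1) with hcdef
  have hlog := Real.log_two_lt_d9
  have h3 : c * (1 / 2) * (1 + p * (2 * s - 1)) ≤ s ^ p := by
    rw [e1, e2]
    exact mul_le_mul_of_nonneg_left h1 (by positivity)
  refine le_trans ?_ h3
  -- `(3/8) h - (1-c)/2 ≥ 0`, and `ps ≤ p/2`
  have hps : p * s * (1 - c) ≤ p / 2 * (1 - c) := by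
    apply mul_le_mul_of_nonneg_right _ (by linarith)
    nlinarith
  have h5 : (p - 1) * Real.log 2 ≤ (p - 1) * (3 / 4) :=
    mul_le_mul_of_nonneg_left (by linarith) (by linarith)
  nlinarith

/-- The sum of `p`-th powers of a function of mean one. -/
theorem sum_rpow_ge {α : Type*} [Fintype α] (p : ℝ) (hp : 1 ≤ p) (f : α → ℝ) (hf : ∀ x, 0 ≤ f x)
    (hs : ∑ x, f x = Fintype.card α) : (Fintype.card α : ℝ) ≤ ∑ x, f x ^ p := by
  have h : ∑ x : α, (1 + p * (f x - 1)) ≤ ∑ x, f x ^ p :=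
    Finset.sum_le_sum fun x _ => rpow_ge p (f x) hp (hf x)
  have e : ∑ x : α, (1 + p * (f x - 1)) = Fintype.card α := by
    rw [Finset.sum_add_distrib, ← Finset.mul_sum, Finset.sum_sub_distrib, hs]
    simp
  linarith

theorem sum_rpow_ge_low {α : Type*} [Fintype α] (p : ℝ) (hp : 1 ≤ p) (f : α → ℝ)
    (hf : ∀ x, 0 ≤ f x) (hs : ∑ x, f x = Fintype.card α)
    (hc : (Fintype.card α : ℝ) / 4 ≤ ((univ.filter fun x => f x ≤ 1 / 2).card : ℝ)) :
    (Fintype.card α : ℝ) * (1 + (p - 1) / 32) ≤ ∑ x, f x ^ p := by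
  have h : ∑ x : α, (1 + p * (f x - 1) + if f x ≤ 1 / 2 then (p - 1) / 8 else 0) ≤
      ∑ x, f x ^ p := by
    refine Finset.sum_le_sum fun x _ => ?_
    split_ifs with hx
    · exact rpow_low p (f x) hp (hf x) hx
    · have := rpow_ge p (f x) hp (hf x)
      linarith
  have e : ∑ x : α, (1 + p * (f x - 1)) = Fintype.card α := by
    rw [Finset.sum_add_distrib, ← Finset.mul_sum, Finset.sum_sub_distrib, hs]
    simp
  rw [Finset.sum_add_distrib, e, ← Finset.sum_filter, Finset.sum_const, nsmul_eq_mul] at h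
  have h2 : (Fintype.card α : ℝ) / 4 * ((p - 1) / 8) ≤
      ((univ.filter fun x => f x ≤ 1 / 2).card : ℝ) * ((p - 1) / 8) :=
    mul_le_mul_of_nonneg_right hc (by linarith)
  nlinarith

/-- The numerical fact of the first case. -/
theorem num_one (q : ℝ) (hq : 1 ≤ q) (p : ℝ) (hp1 : 1 ≤ p) (hp2 : p ≤ 2) :
    1 ≤ (1 - 1 / (80 * q)) * (1 + 1 / (32 * q)) ^ (1 / p) := by
  have hq0 : 0 < q := by linarith
  have h0 : 0 < 1 / q := by positivity
  have h1 : 1 / q ≤ 1 := by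
    rw [div_le_one hq0]
    exact hq
  have e1 : 1 / (80 * q) = (1 / q) / 80 := by field_simp
  have e2 : 1 / (32 * q) = (1 / q) / 32 := by field_simp
  rw [e1, e2]
  set s := 1 / q with hs
  have hhalf : (1 + s / 32) ^ (1 / 2 : ℝ) ≤ (1 + s / 32) ^ (1 / p) := by
    apply Real.rpow_le_rpow_of_exponent_le (by linarith)
    exact one_div_le_one_div_of_le (by linarith) hp2
  have hsq : 1 ≤ (1 - s / 80) * (1 + s / 32) ^ (1 / 2 : ℝ) := by
    rw [← Real.sqrt_eq_rpow]
    have h3 : 0 ≤ (1 - s / 80) * Real.sqrt (1 + s / 32) :=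
      mul_nonneg (by linarith) (Real.sqrt_nonneg _)
    rw [← one_le_sq_iff₀ h3, mul_pow, Real.sq_sqrt (by linarith)]
    nlinarith [mul_nonneg h0.le (sub_nonneg.2 h1), mul_nonneg h0.le h0.le,
      mul_nonneg (mul_nonneg h0.le h0.le) h0.le]
  calc (1 : ℝ) ≤ (1 - s / 80) * (1 + s / 32) ^ (1 / 2 : ℝ) := hsq
    _ ≤ _ := mul_le_mul_of_nonneg_left hhalf (by linarith)

/-- The one-coordinate inequality for functions of mean one. -/
theorem one_coord_norm (q : ℕ) (hq : 1 ≤ q) (p : ℝ) (hp : p = 1 + 1 / (q : ℝ))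
    (f g : Fin q → ℝ) (hf : ∀ x, 0 ≤ f x) (hg : ∀ x, 0 ≤ g x)
    (hsf : ∑ x, f x = q) (hsg : ∑ x, g x = q) :
    (q : ℝ) * q - ∑ x, f x * g x ≤
      (1 - 1 / (80 * (q : ℝ))) * (q : ℝ) ^ (2 - 2 / p) * nrm p f * nrm p g := by
  have hq1 : (1 : ℝ) ≤ q := by exact_mod_cast hq
  have hq0 : (0 : ℝ) < q := by linarith
  have hi0 : 0 < 1 / (q : ℝ) := by positivity
  have hi1 : 1 / (q : ℝ) ≤ 1 := by
    rw [div_le_one hq0]
    exact hq1
  have hp1 : 1 ≤ p := by rw [hp]; linarith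
  have hp2 : p ≤ 2 := by rw [hp]; linarith
  have hp0 : 0 < p := by linarith
  have hcard : (Fintype.card (Fin q) : ℝ) = q := by simp
  have hA : (q : ℝ) ≤ ∑ x, f x ^ p := by
    have := sum_rpow_ge p hp1 f hf (by rw [hsf, hcard])
    rwa [hcard] at this
  have hB : (q : ℝ) ≤ ∑ x, g x ^ p := by
    have := sum_rpow_ge p hp1 g hg (by rw [hsg, hcard])
    rwa [hcard] at this
  have hnf : (q : ℝ) ^ (1 / p) ≤ nrm p f := Real.rpow_le_rpow hq0.le hA (by positivity)
  have hng : (q : ℝ) ^ (1 / p) ≤ nrm p g := Real.rpow_le_rpow hq0.le hB (by positivity)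
  have hpow : (q : ℝ) ^ (2 - 2 / p) * (q : ℝ) ^ (1 / p) * (q : ℝ) ^ (1 / p) = q * q := by
    rw [← Real.rpow_add hq0, ← Real.rpow_add hq0]
    have : 2 - 2 / p + 1 / p + 1 / p = 2 := by ring
    rw [this]
    norm_num
    ring
  have ht : 0 ≤ 1 - 1 / (80 * (q : ℝ)) := by
    have : 1 / (80 * (q : ℝ)) = 1 / (q : ℝ) / 80 := by field_simp
    rw [this]
    linarith
  have hfg0 : 0 ≤ ∑ x, f x * g x := Finset.sum_nonneg fun x _ => mul_nonneg (hf x) (hg x)
  -- lower bound for the norm in the first case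
  have hlow : ∀ h : Fin q → ℝ, (∀ x, 0 ≤ h x) → ∑ x, h x = q →
      (q : ℝ) / 4 ≤ ((univ.filter fun x => h x ≤ 1 / 2).card : ℝ) →
      (q : ℝ) ^ (1 / p) * (1 + 1 / (32 * (q : ℝ))) ^ (1 / p) ≤ nrm p h := by
    intro h hh hsh hc
    have h1 := sum_rpow_ge_low p hp1 h hh (by rw [hsh, hcard]) (by rw [hcard]; exact hc)
    rw [hcard] at h1
    have e : 1 + (p - 1) / 32 = 1 + 1 / (32 * (q : ℝ)) := by
      rw [hp]
      field_simp
      ring
    rw [e] at h1
    rw [← Real.mul_rpow hq0.le (by positivity)]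
    exact Real.rpow_le_rpow (by positivity) h1 (by positivity)
  by_cases hcf : (q : ℝ) / 4 ≤ ((univ.filter fun x => f x ≤ 1 / 2).card : ℝ)
  · have h1 := hlow f hf hsf hcf
    have h2 := num_one q hq1 p hp1 hp2
    calc (q : ℝ) * q - ∑ x, f x * g x ≤ q * q := by linarith
      _ ≤ (q * q) * ((1 - 1 / (80 * (q : ℝ))) * (1 + 1 / (32 * (q : ℝ))) ^ (1 / p)) :=
          le_mul_of_one_le_right (by positivity) h2
      _ = (1 - 1 / (80 * (q : ℝ))) * (q : ℝ) ^ (2 - 2 / p) *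
          ((q : ℝ) ^ (1 / p) * (1 + 1 / (32 * (q : ℝ))) ^ (1 / p)) * (q : ℝ) ^ (1 / p) := by
          rw [← hpow]
          ring
      _ ≤ (1 - 1 / (80 * (q : ℝ))) * (q : ℝ) ^ (2 - 2 / p) * nrm p f * nrm p g := by
          have a0 : 0 ≤ (1 - 1 / (80 * (q : ℝ))) * (q : ℝ) ^ (2 - 2 / p) := by positivity
          exact mul_le_mul (mul_le_mul_of_nonneg_left h1 a0) hng (by positivity)
            (mul_nonneg a0 (nrm_nonneg p f hf))
  · by_cases hcg : (q : ℝ) / 4 ≤ ((univ.filter fun x => g x ≤ 1 / 2).card : ℝ)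
    · have h1 := hlow g hg hsg hcg
      have h2 := num_one q hq1 p hp1 hp2
      calc (q : ℝ) * q - ∑ x, f x * g x ≤ q * q := by linarith
        _ ≤ (q * q) * ((1 - 1 / (80 * (q : ℝ))) * (1 + 1 / (32 * (q : ℝ))) ^ (1 / p)) :=
            le_mul_of_one_le_right (by positivity) h2
        _ = (1 - 1 / (80 * (q : ℝ))) * (q : ℝ) ^ (2 - 2 / p) * (q : ℝ) ^ (1 / p) *
            ((q : ℝ) ^ (1 / p) * (1 + 1 / (32 * (q : ℝ))) ^ (1 / p)) := by
            rw [← hpow]
            ring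
        _ ≤ (1 - 1 / (80 * (q : ℝ))) * (q : ℝ) ^ (2 - 2 / p) * nrm p f * nrm p g := by
            have a0 : 0 ≤ (1 - 1 / (80 * (q : ℝ))) * (q : ℝ) ^ (2 - 2 / p) := by positivity
            exact mul_le_mul (mul_le_mul_of_nonneg_left hnf a0) h1 (by positivity)
              (mul_nonneg a0 (nrm_nonneg p f hf))
    · push Not at hcf hcg
      -- many common large entries
      have hcount : (q : ℝ) / 2 ≤
          ((univ.filter fun x : Fin q => ¬ (f x ≤ 1 / 2) ∧ ¬ (g x ≤ 1 / 2)).card : ℝ) := by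
        have h1 : (univ : Finset (Fin q)) ⊆ (univ.filter fun x => f x ≤ 1 / 2) ∪
            (univ.filter fun x => g x ≤ 1 / 2) ∪
            (univ.filter fun x : Fin q => ¬ (f x ≤ 1 / 2) ∧ ¬ (g x ≤ 1 / 2)) := by
          intro x _
          simp only [mem_union, mem_filter, mem_univ, true_and]
          tauto
        have h2 := card_le_card h1
        have h3 := (card_union_le ((univ.filter fun x => f x ≤ 1 / 2) ∪
            (univ.filter fun x => g x ≤ 1 / 2))
            (univ.filter fun x : Fin q => ¬ (f x ≤ 1 / 2) ∧ ¬ (g x ≤ 1 / 2)))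
        have h4 := (card_union_le (univ.filter fun x => f x ≤ 1 / 2)
            (univ.filter fun x => g x ≤ 1 / 2))
        rw [card_univ, Fintype.card_fin] at h2
        have h5 : (q : ℝ) ≤ ((univ.filter fun x => f x ≤ 1 / 2).card : ℝ) +
            ((univ.filter fun x => g x ≤ 1 / 2).card : ℝ) +
            ((univ.filter fun x : Fin q => ¬ (f x ≤ 1 / 2) ∧ ¬ (g x ≤ 1 / 2)).card : ℝ) := by
          have h6 : q ≤ (univ.filter fun x => f x ≤ 1 / 2).card +
            (univ.filter fun x => g x ≤ 1 / 2).card +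
            (univ.filter fun x : Fin q => ¬ (f x ≤ 1 / 2) ∧ ¬ (g x ≤ 1 / 2)).card := by omega
          exact_mod_cast h6
        linarith
      have hsum : (q : ℝ) / 8 ≤ ∑ x, f x * g x := by
        calc (q : ℝ) / 8 = (q : ℝ) / 2 * (1 / 4) := by ring
          _ ≤ ((univ.filter fun x : Fin q => ¬ (f x ≤ 1 / 2) ∧ ¬ (g x ≤ 1 / 2)).card : ℝ) *
              (1 / 4) := mul_le_mul_of_nonneg_right hcount (by norm_num)
          _ = ∑ x ∈ univ.filter (fun x : Fin q => ¬ (f x ≤ 1 / 2) ∧ ¬ (g x ≤ 1 / 2)),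
              (1 / 4 : ℝ) := by rw [Finset.sum_const, nsmul_eq_mul]
          _ ≤ ∑ x ∈ univ.filter (fun x : Fin q => ¬ (f x ≤ 1 / 2) ∧ ¬ (g x ≤ 1 / 2)),
              f x * g x := by
              refine Finset.sum_le_sum fun x hx => ?_
              rw [mem_filter] at hx
              obtain ⟨_, h1, h2⟩ := hx
              push Not at h1 h2
              nlinarith
          _ ≤ ∑ x, f x * g x :=
              Finset.sum_le_sum_of_subset_of_nonneg (Finset.filter_subset _ _)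
                (fun x _ _ => mul_nonneg (hf x) (hg x))
      calc (q : ℝ) * q - ∑ x, f x * g x ≤ q * q - q / 8 := by linarith
        _ ≤ (1 - 1 / (80 * (q : ℝ))) * (q * q) := by
            have : 1 / (80 * (q : ℝ)) * (q * q) = q / 80 := by field_simp
            nlinarith
        _ = (1 - 1 / (80 * (q : ℝ))) * (q : ℝ) ^ (2 - 2 / p) * (q : ℝ) ^ (1 / p) *
            (q : ℝ) ^ (1 / p) := by
            rw [← hpow]
            ring
        _ ≤ (1 - 1 / (80 * (q : ℝ))) * (q : ℝ) ^ (2 - 2 / p) * nrm p f * nrm p g := by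
            have a0 : 0 ≤ (1 - 1 / (80 * (q : ℝ))) * (q : ℝ) ^ (2 - 2 / p) := by positivity
            exact mul_le_mul (mul_le_mul_of_nonneg_left hnf a0) hng (by positivity)
              (mul_nonneg a0 (nrm_nonneg p f hf))

/-- The one-coordinate inequality. -/
theorem one_coord (q : ℕ) (hq : 1 ≤ q) (p : ℝ) (hp : p = 1 + 1 / (q : ℝ)) :
    Bd p ((1 - 1 / (80 * (q : ℝ))) * (q : ℝ) ^ (2 - 2 / p))
      (fun x y : Fin q => if x = y then (0 : ℝ) else 1) := by
  intro f g hf hg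
  have hq1 : (1 : ℝ) ≤ q := by exact_mod_cast hq
  have hq0 : (0 : ℝ) < q := by linarith
  have hi0 : 0 < 1 / (q : ℝ) := by positivity
  have hi1 : 1 / (q : ℝ) ≤ 1 := by
    rw [div_le_one hq0]
    exact hq1
  have hp1 : 1 ≤ p := by rw [hp]; linarith
  have ht : 0 ≤ 1 - 1 / (80 * (q : ℝ)) := by
    have : 1 / (80 * (q : ℝ)) = 1 / (q : ℝ) / 80 := by field_simp
    rw [this]
    linarith
  have hL : ∑ x, ∑ y, (if x = y then (0 : ℝ) else 1) * f x * g y =
      (∑ x, f x) * (∑ y, g y) - ∑ x, f x * g x := by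
    rw [Finset.sum_mul_sum, ← Finset.sum_sub_distrib]
    refine Finset.sum_congr rfl fun x _ => ?_
    have hx : f x * g x = ∑ y, if x = y then f x * g y else 0 := by simp
    rw [eq_sub_iff_add_eq]
    calc ∑ y, (if x = y then (0 : ℝ) else 1) * f x * g y + f x * g x
        = ∑ y, (if x = y then (0 : ℝ) else 1) * f x * g y +
          ∑ y, (if x = y then f x * g y else 0) := by rw [← hx]
      _ = ∑ y, f x * g y := by
          rw [← Finset.sum_add_distrib]
          refine Finset.sum_congr rfl fun y _ => ?_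
          by_cases h : x = y
          · subst h; simp
          · simp [h]
  rw [hL]
  have hsf0 : 0 ≤ ∑ x, f x := Finset.sum_nonneg fun x _ => hf x
  have hsg0 : 0 ≤ ∑ x, g x := Finset.sum_nonneg fun x _ => hg x
  have hR0 : 0 ≤ (1 - 1 / (80 * (q : ℝ))) * (q : ℝ) ^ (2 - 2 / p) * nrm p f * nrm p g :=
    mul_nonneg (mul_nonneg (by positivity) (nrm_nonneg p f hf)) (nrm_nonneg p g hg)
  have hfg0 : 0 ≤ ∑ x, f x * g x := Finset.sum_nonneg fun x _ => mul_nonneg (hf x) (hg x)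
  by_cases h1 : ∑ x, f x = 0
  · rw [h1]
    linarith
  by_cases h2 : ∑ x, g x = 0
  · rw [h2]
    linarith
  have hsf : 0 < ∑ x, f x := lt_of_le_of_ne hsf0 (Ne.symm h1)
  have hsg : 0 < ∑ x, g x := lt_of_le_of_ne hsg0 (Ne.symm h2)
  set a := (q : ℝ) / ∑ x, f x with ha
  set b := (q : ℝ) / ∑ x, g x with hb
  have ha0 : 0 < a := by positivity
  have hb0 : 0 < b := by positivity
  have hsa : a * ∑ x, f x = q := by rw [ha]; field_simp
  have hsb : b * ∑ x, g x = q := by rw [hb]; field_simp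
  have h := one_coord_norm q hq p hp (fun x => a * f x) (fun x => b * g x)
    (fun x => mul_nonneg ha0.le (hf x)) (fun x => mul_nonneg hb0.le (hg x))
    (by rw [← Finset.mul_sum]; exact hsa) (by rw [← Finset.mul_sum]; exact hsb)
  rw [nrm_smul p hp1 f hf a ha0.le, nrm_smul p hp1 g hg b hb0.le] at h
  have e1 : ∑ x, a * f x * (b * g x) = a * b * ∑ x, f x * g x := by
    rw [Finset.mul_sum]
    exact Finset.sum_congr rfl fun x _ => by ring
  rw [e1] at h
  have e2 : (q : ℝ) * q = a * b * ((∑ x, f x) * ∑ x, g x) := by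
    calc (q : ℝ) * q = (a * ∑ x, f x) * (b * ∑ x, g x) := by rw [hsa, hsb]
      _ = _ := by ring
  rw [e2, ← mul_sub] at h
  have e3 : (1 - 1 / (80 * (q : ℝ))) * (q : ℝ) ^ (2 - 2 / p) * (a * nrm p f) * (b * nrm p g) =
      a * b * ((1 - 1 / (80 * (q : ℝ))) * (q : ℝ) ^ (2 - 2 / p) * nrm p f * nrm p g) := by ring
  rw [e3] at h
  exact le_of_mul_le_mul_left h (by positivity)

end Pool.Agent.T2h38.JM
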