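import Mathlib
import Pool.Agent.T2h38.JM.One

/-! Tensorisation of the bilinear bound. -/

namespace Pool.Agent.T2h38.JM

open Finset

/-- Products of kernels. -/
theorem Bd.prod {α β α' β' : Type*} [Fintype α] [Fintype β] [Fintype α'] [Fintype β']
    {p C C' : ℝ} (hp : 1 ≤ p) (hC : 0 ≤ C) {K : α → β → ℝ} {K' : α' → β' → ℝ}
    (hK' : ∀ x y, 0 ≤ K' x y) (h : Bd p C K) (h' : Bd p C' K') :
    Bd p (C * C') (fun (x : α × α') (y : β × β') => K x.1 y.1 * K' x.2 y.2) := by
  intro f g hf hg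
  have hp0 : 0 < p := by linarith
  -- the outer norms
  have hnf : nrm p (fun x' => nrm p (fun x => f (x, x'))) = nrm p f := by
    have h1 : ∀ x', nrm p (fun x => f (x, x')) ^ p = ∑ x, f (x, x') ^ p := fun x' =>
      nrm_rpow p hp _ (fun x => hf _)
    unfold nrm at h1 ⊢
    simp_rw [h1]
    rw [Fintype.sum_prod_type_right]
  have hng : nrm p (fun y' => nrm p (fun y => g (y, y'))) = nrm p g := by
    have h1 : ∀ y', nrm p (fun y => g (y, y')) ^ p = ∑ y, g (y, y') ^ p := fun y' =>
      nrm_rpow p hp _ (fun y => hg _)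
    unfold nrm at h1 ⊢
    simp_rw [h1]
    rw [Fintype.sum_prod_type_right]
  calc ∑ x : α × α', ∑ y : β × β', K x.1 y.1 * K' x.2 y.2 * f x * g y
      = ∑ x', ∑ y', K' x' y' * ∑ x, ∑ y, K x y * f (x, x') * g (y, y') := by
        rw [Fintype.sum_prod_type_right]
        refine Finset.sum_congr rfl fun x' _ => ?_
        simp_rw [Fintype.sum_prod_type_right]
        rw [Finset.sum_comm]
        refine Finset.sum_congr rfl fun y' _ => ?_
        rw [Finset.mul_sum]
        refine Finset.sum_congr rfl fun x _ => ?_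
        rw [Finset.mul_sum]
        refine Finset.sum_congr rfl fun y _ => ?_
        ring
    _ ≤ ∑ x', ∑ y', K' x' y' * (C * nrm p (fun x => f (x, x')) * nrm p (fun y => g (y, y'))) := by
        refine Finset.sum_le_sum fun x' _ => Finset.sum_le_sum fun y' _ => ?_
        exact mul_le_mul_of_nonneg_left (h _ _ (fun x => hf _) (fun y => hg _)) (hK' _ _)
    _ = C * ∑ x', ∑ y', K' x' y' * nrm p (fun x => f (x, x')) * nrm p (fun y => g (y, y')) := by
        rw [Finset.mul_sum]
        refine Finset.sum_congr rfl fun x' _ => ?_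
        rw [Finset.mul_sum]
        refine Finset.sum_congr rfl fun y' _ => ?_
        ring
    _ ≤ C * (C' * nrm p (fun x' => nrm p (fun x => f (x, x'))) *
          nrm p (fun y' => nrm p (fun y => g (y, y')))) :=
        mul_le_mul_of_nonneg_left (h' _ _ (fun x' => nrm_nonneg p _ fun x => hf _)
          (fun y' => nrm_nonneg p _ fun y => hg _)) hC
    _ = C * C' * nrm p f * nrm p g := by
        rw [hnf, hng]
        ring

/-- Transport along equivalences. -/
theorem Bd.congr {α β α' β' : Type*} [Fintype α] [Fintype β] [Fintype α'] [Fintype β']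
    {p C : ℝ} {K : α → β → ℝ} (h : Bd p C K) (e : α' ≃ α) (e' : β' ≃ β) :
    Bd p C (fun x y => K (e x) (e' y)) := by
  intro f g hf hg
  have h1 := h (fun x => f (e.symm x)) (fun y => g (e'.symm y)) (fun x => hf _) (fun y => hg _)
  have hnf : nrm p (fun x => f (e.symm x)) = nrm p f := by
    unfold nrm
    rw [Equiv.sum_comp e.symm (fun x => f x ^ p)]
  have hng : nrm p (fun x => g (e'.symm x)) = nrm p g := by
    unfold nrm
    rw [Equiv.sum_comp e'.symm (fun x => g x ^ p)]
  rw [hnf, hng] at h1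
  refine le_trans (le_of_eq ?_) h1
  rw [← Equiv.sum_comp e]
  refine Finset.sum_congr rfl fun x _ => ?_
  rw [← Equiv.sum_comp e']
  refine Finset.sum_congr rfl fun y _ => ?_
  simp

theorem Bd.mono {α β : Type*} [Fintype α] [Fintype β] {p C C' : ℝ} {K : α → β → ℝ}
    (h : Bd p C K) (hC : C ≤ C') : Bd p C' K := by
  intro f g hf hg
  refine (h f g hf hg).trans ?_
  exact mul_le_mul_of_nonneg_right (mul_le_mul_of_nonneg_right hC (nrm_nonneg p f hf))
    (nrm_nonneg p g hg)

theorem Bd.mono_ker {α β : Type*} [Fintype α] [Fintype β] {p C : ℝ} {K K' : α → β → ℝ}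
    (h : Bd p C K) (hK : ∀ x y, K' x y ≤ K x y) : Bd p C K' := by
  intro f g hf hg
  refine le_trans ?_ (h f g hf hg)
  refine Finset.sum_le_sum fun x _ => Finset.sum_le_sum fun y _ => ?_
  exact mul_le_mul_of_nonneg_right (mul_le_mul_of_nonneg_right (hK x y) (hf x)) (hg y)

theorem Bd.add {α β : Type*} [Fintype α] [Fintype β] {p C C' : ℝ} {K K' : α → β → ℝ}
    (h : Bd p C K) (h' : Bd p C' K') : Bd p (C + C') (fun x y => K x y + K' x y) := by
  intro f g hf hg
  have e : ∑ x, ∑ y, (K x y + K' x y) * f x * g y =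
      (∑ x, ∑ y, K x y * f x * g y) + ∑ x, ∑ y, K' x y * f x * g y := by
    rw [← Finset.sum_add_distrib]
    refine Finset.sum_congr rfl fun x _ => ?_
    rw [← Finset.sum_add_distrib]
    refine Finset.sum_congr rfl fun y _ => ?_
    ring
  rw [e]
  have h1 := h f g hf hg
  have h2 := h' f g hf hg
  calc _ ≤ C * nrm p f * nrm p g + C' * nrm p f * nrm p g := add_le_add h1 h2
    _ = _ := by ring

theorem Bd.smul {α β : Type*} [Fintype α] [Fintype β] {p C : ℝ} {K : α → β → ℝ}
    (h : Bd p C K) (c : ℝ) (hc : 0 ≤ c) : Bd p (c * C) (fun x y => c * K x y) := by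
  intro f g hf hg
  have e : ∑ x, ∑ y, (c * K x y) * f x * g y = c * ∑ x, ∑ y, K x y * f x * g y := by
    rw [Finset.mul_sum]
    refine Finset.sum_congr rfl fun x _ => ?_
    rw [Finset.mul_sum]
    refine Finset.sum_congr rfl fun y _ => ?_
    ring
  rw [e]
  calc _ ≤ c * (C * nrm p f * nrm p g) := mul_le_mul_of_nonneg_left (h f g hf hg) hc
    _ = _ := by ring

/-- The constant kernel. -/
theorem Bd.one {α : Type*} [Fintype α] (p : ℝ) (hp : 1 ≤ p) :
    Bd p ((Fintype.card α : ℝ) ^ (2 - 2 / p)) (fun _ _ : α => (1 : ℝ)) := by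
  intro f g hf hg
  have e : ∑ x : α, ∑ y : α, (1 : ℝ) * f x * g y = (∑ x, f x) * ∑ y, g y := by
    rw [Finset.sum_mul_sum]
    refine Finset.sum_congr rfl fun x _ => Finset.sum_congr rfl fun y _ => by ring
  rw [e]
  rcases isEmpty_or_nonempty α with hE | hN
  · simp [nrm]
    rw [Real.zero_rpow (inv_ne_zero (by linarith))]
    simp
  have hq : (0 : ℝ) < Fintype.card α := by exact_mod_cast Fintype.card_pos
  have h1 := sum_le_nrm p hp f hf
  have h2 := sum_le_nrm p hp g hg
  calc (∑ x, f x) * ∑ y, g y ≤ ((Fintype.card α : ℝ) ^ (1 - 1 / p) * nrm p f) *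
        ((Fintype.card α : ℝ) ^ (1 - 1 / p) * nrm p g) :=
        mul_le_mul h1 h2 (Finset.sum_nonneg fun x _ => hg x)
          (mul_nonneg (by positivity) (nrm_nonneg p f hf))
    _ = ((Fintype.card α : ℝ) ^ (1 - 1 / p) * (Fintype.card α : ℝ) ^ (1 - 1 / p)) * nrm p f *
        nrm p g := by ring
    _ = _ := by
        rw [← Real.rpow_add hq]
        congr 3
        ring

/-- The `n`-th power of a kernel. -/
theorem Bd.pow {α β : Type*} [Fintype α] [Fintype β] {p C : ℝ} (hp : 1 ≤ p) (hC : 0 ≤ C)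
    {K : α → β → ℝ} (hK : ∀ x y, 0 ≤ K x y) (h : Bd p C K) (n : ℕ) :
    Bd p (C ^ n) (fun (X : Fin n → α) (Y : Fin n → β) => ∏ i, K (X i) (Y i)) := by
  have hp0 : 0 < p := by linarith
  induction n with
  | zero =>
    intro f g hf hg
    have hnf : nrm p f = f default := by
      unfold nrm
      rw [Fintype.sum_unique, ← Real.rpow_mul (hf _), mul_one_div_cancel hp0.ne', Real.rpow_one]
    have hng : nrm p g = g default := by
      unfold nrm
      rw [Fintype.sum_unique, ← Real.rpow_mul (hg _), mul_one_div_cancel hp0.ne', Real.rpow_one]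
    rw [hnf, hng, Fintype.sum_unique, Fintype.sum_unique]
    simp
  | succ n ih =>
    have h1 := (Bd.prod hp hC (fun x y => Finset.prod_nonneg fun i _ => hK _ _) h ih).congr
      (Fin.consEquiv (fun _ : Fin (n + 1) => α)).symm (Fin.consEquiv (fun _ : Fin (n + 1) => β)).symm
    rw [← pow_succ'] at h1
    intro f g hf hg
    refine le_trans (le_of_eq ?_) (h1 f g hf hg)
    refine Finset.sum_congr rfl fun X _ => Finset.sum_congr rfl fun Y _ => ?_
    show (∏ i, K (X i) (Y i)) * f X * g Y = _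
    rw [Fin.prod_univ_succ]
    rfl

/-- The disjointness kernel on `Fin n → Fin n`. -/
theorem disj_bd (n : ℕ) (hn : 1 ≤ n) (p : ℝ) (hp : p = 1 + 1 / (n : ℝ)) :
    Bd p (Real.exp (-1 / 80) * ((Fintype.card (Fin n → Fin n) : ℕ) : ℝ) ^ (2 - 2 / p))
      (fun X Y : Fin n → Fin n => if ∀ i, X i ≠ Y i then (1 : ℝ) else 0) := by
  have hn0 : (0 : ℝ) < n := by exact_mod_cast hn
  have hn1 : (1 : ℝ) ≤ n := by exact_mod_cast hn
  have hi0 : 0 < 1 / (n : ℝ) := by positivity
  have hi1 : 1 / (n : ℝ) ≤ 1 := by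
    rw [div_le_one hn0]
    exact hn1
  have hp1 : 1 ≤ p := by rw [hp]; linarith
  have ht : 0 ≤ 1 - 1 / (80 * (n : ℝ)) := by
    have : 1 / (80 * (n : ℝ)) = 1 / (n : ℝ) / 80 := by field_simp
    rw [this]
    linarith
  have h := (one_coord n hn p hp).pow hp1 (mul_nonneg ht (by positivity))
    (fun x y => by split_ifs <;> norm_num) n
  have hker : (fun (X Y : Fin n → Fin n) => ∏ i, (if X i = Y i then (0 : ℝ) else 1)) =
      (fun X Y : Fin n → Fin n => if ∀ i, X i ≠ Y i then (1 : ℝ) else 0) := by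
    funext X Y
    by_cases hd : ∀ i, X i ≠ Y i
    · rw [if_pos hd]
      exact Finset.prod_eq_one fun i _ => if_neg (hd i)
    · rw [if_neg hd]
      push Not at hd
      obtain ⟨i, hi⟩ := hd
      exact Finset.prod_eq_zero (Finset.mem_univ i) (if_pos hi)
  rw [hker] at h
  refine h.mono ?_
  rw [mul_pow]
  have h1 : (1 - 1 / (80 * (n : ℝ))) ^ n ≤ Real.exp (-1 / 80) := by
    have h2 : 1 - 1 / (80 * (n : ℝ)) ≤ Real.exp (-(1 / (80 * (n : ℝ)))) := by
      have := Real.add_one_le_exp (-(1 / (80 * (n : ℝ))))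
      linarith
    calc (1 - 1 / (80 * (n : ℝ))) ^ n ≤ Real.exp (-(1 / (80 * (n : ℝ)))) ^ n :=
          pow_le_pow_left₀ ht h2 n
      _ = Real.exp (-1 / 80) := by
          rw [← Real.exp_nat_mul]
          congr 1
          field_simp
  have h3 : ((n : ℝ) ^ (2 - 2 / p)) ^ n =
      ((Fintype.card (Fin n → Fin n) : ℕ) : ℝ) ^ (2 - 2 / p) := by
    rw [Fintype.card_fun, Fintype.card_fin]
    push_cast
    rw [← Real.rpow_natCast ((n : ℝ) ^ (2 - 2 / p)), ← Real.rpow_natCast (n : ℝ),
      ← Real.rpow_mul hn0.le, ← Real.rpow_mul hn0.le, mul_comm]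
  rw [h3]
  exact mul_le_mul_of_nonneg_right h1 (by positivity)

end Pool.Agent.T2h38.JM
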