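import Mathlib
import Pool.Agent.T2h38.JM.Tens

/-! The grid inequality: sums over `k + k` inputs of products of kernels over pairs. -/

namespace Pool.Agent.T2h38.JM

open Finset

variable {α : Type} [Fintype α] {k : ℕ}

theorem sum_update [DecidableEq α] (i : Fin k) (φ : (Fin k → α) → ℝ) :
    ∑ X : Fin k → α, ∑ x : α, φ (Function.update X i x) = Fintype.card α * ∑ X, φ X := by
  have hinv : Function.Involutive
      (fun z : (Fin k → α) × α => (Function.update z.1 i z.2, z.1 i)) := by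
    intro z
    obtain ⟨X, x⟩ := z
    simp
  have h1 : ∑ z : (Fin k → α) × α, φ (Function.update z.1 i z.2) =
      ∑ z : (Fin k → α) × α, φ z.1 :=
    Equiv.sum_comp (hinv.toPerm) (fun z : (Fin k → α) × α => φ z.1)
  rw [Fintype.sum_prod_type, Fintype.sum_prod_type] at h1
  rw [h1, Finset.mul_sum]
  refine Finset.sum_congr rfl fun X _ => ?_
  show ∑ _y : α, φ X = _
  rw [Finset.sum_const, Finset.card_univ, nsmul_eq_mul]

theorem sum_update2 [DecidableEq α] (i j : Fin k) (P : (Fin k → α) → (Fin k → α) → ℝ) :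
    ∑ X : Fin k → α, ∑ Y : Fin k → α, ∑ x : α, ∑ y : α,
      P (Function.update X i x) (Function.update Y j y) =
      (Fintype.card α : ℝ) * Fintype.card α * ∑ X, ∑ Y, P X Y := by
  have h1 : ∀ X : Fin k → α, ∑ Y : Fin k → α, ∑ x : α, ∑ y : α,
      P (Function.update X i x) (Function.update Y j y) =
      ∑ x : α, Fintype.card α * ∑ Y, P (Function.update X i x) Y := by
    intro X
    rw [Finset.sum_comm]
    refine Finset.sum_congr rfl fun x _ => ?_
    exact sum_update j (fun Y => P (Function.update X i x) Y)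
  simp_rw [h1]
  rw [sum_update i (fun X => (Fintype.card α : ℝ) * ∑ Y, P X Y), ← Finset.mul_sum]
  ring

/-- The sum over all inputs of the product of the kernels over the pairs in `E`. -/
noncomputable def S (K : Fin k → Fin k → α → α → ℝ) (E : Finset (Fin k × Fin k)) : ℝ :=
  ∑ X : Fin k → α, ∑ Y : Fin k → α, ∏ e ∈ E, K e.1 e.2 (X e.1) (Y e.2)

theorem nrm_le_of_le (p : ℝ) (hp : 1 ≤ p) (f : α → ℝ) (hf : ∀ x, 0 ≤ f x) (M : ℝ) (hM : 0 ≤ M)
    (hfM : ∀ x, f x ≤ M) : nrm p f ≤ M ^ (1 - 1 / p) * (∑ x, f x) ^ (1 / p) := by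
  have hp0 : 0 < p := by linarith
  have h1 : ∑ x, f x ^ p ≤ M ^ (p - 1) * ∑ x, f x := by
    rw [Finset.mul_sum]
    refine Finset.sum_le_sum fun x _ => ?_
    rcases (hf x).eq_or_lt with h0 | h0
    · rw [← h0, Real.zero_rpow hp0.ne', mul_zero]
    · calc f x ^ p = f x ^ (p - 1) * f x := by
            rw [← Real.rpow_add_one h0.ne']
            congr 1
            ring
        _ ≤ M ^ (p - 1) * f x :=
            mul_le_mul_of_nonneg_right (Real.rpow_le_rpow (hf x) (hfM x) (by linarith)) (hf x)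
  have hs : 0 ≤ ∑ x, f x := Finset.sum_nonneg fun x _ => hf x
  unfold nrm
  calc (∑ x, f x ^ p) ^ (1 / p) ≤ (M ^ (p - 1) * ∑ x, f x) ^ (1 / p) :=
        Real.rpow_le_rpow (Finset.sum_nonneg fun x _ => Real.rpow_nonneg (hf x) _) h1
          (by positivity)
    _ = M ^ (1 - 1 / p) * (∑ x, f x) ^ (1 / p) := by
        rw [Real.mul_rpow (Real.rpow_nonneg hM _) hs, ← Real.rpow_mul hM]
        congr 2
        field_simp

theorem prod_le_pow (L : ℝ) (hL : 1 ≤ L) {ι : Type} (E : Finset ι) (m : ℕ) (hE : E.card ≤ m)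
    (f : ι → ℝ) (hf : ∀ i, 0 ≤ f i) (hfL : ∀ i, f i ≤ L) : ∏ i ∈ E, f i ≤ L ^ m := by
  calc ∏ i ∈ E, f i ≤ ∏ _i ∈ E, L := Finset.prod_le_prod (fun i _ => hf i) (fun i _ => hfL i)
    _ = L ^ E.card := by rw [Finset.prod_const]
    _ ≤ L ^ m := pow_le_pow_right₀ hL hE

theorem S_nonneg (K : Fin k → Fin k → α → α → ℝ) (hK : ∀ i j x y, 0 ≤ K i j x y)
    (E : Finset (Fin k × Fin k)) : 0 ≤ S K E :=
  Finset.sum_nonneg fun _ _ => Finset.sum_nonneg fun _ _ => Finset.prod_nonneg fun _ _ =>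
    hK _ _ _ _

theorem S_step [DecidableEq α] [Nonempty α] (K : Fin k → Fin k → α → α → ℝ)
    (hK : ∀ i j x y, 0 ≤ K i j x y) (L : ℝ) (hL : 1 ≤ L) (hKL : ∀ i j x y, K i j x y ≤ L)
    (p C : ℝ) (hp : 1 ≤ p) (hC : 0 ≤ C)
    (hB : ∀ i j, Bd p (C * (Fintype.card α : ℝ) ^ (2 - 2 / p)) (K i j))
    (E : Finset (Fin k × Fin k)) (e : Fin k × Fin k) (he : e ∈ E) :
    S K E ≤ C * ((L ^ k) ^ (1 - 1 / p) * (L ^ k) ^ (1 - 1 / p)) *
      ((S K ((E.erase e).filter fun e' => e'.1 ≠ e.1 ∧ e'.2 ≠ e.2)) ^ (1 - 1 / p) *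
        (S K (E.erase e)) ^ (1 / p)) := by
  obtain ⟨i, j⟩ := e
  have hp0 : 0 < p := by linarith
  have hL0 : 0 ≤ L := by linarith
  set Q : ℝ := (Fintype.card α : ℝ) with hQdef
  have hQ : 0 < Q := by
    rw [hQdef]
    exact_mod_cast Fintype.card_pos
  set E1 := E.erase (i, j) with hE1
  set F : (Fin k → α) → α → ℝ := fun Y x =>
    ∏ e' ∈ E1.filter (fun e' => e'.1 = i), K e'.1 e'.2 x (Y e'.2) with hF
  set G : (Fin k → α) → α → ℝ := fun X y =>
    ∏ e' ∈ E1.filter (fun e' => e'.1 ≠ i ∧ e'.2 = j), K e'.1 e'.2 (X e'.1) y with hG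
  set H : (Fin k → α) → (Fin k → α) → ℝ := fun X Y =>
    ∏ e' ∈ E1.filter (fun e' => e'.1 ≠ i ∧ e'.2 ≠ j), K e'.1 e'.2 (X e'.1) (Y e'.2) with hH
  have hF0 : ∀ Y x, 0 ≤ F Y x := fun Y x => Finset.prod_nonneg fun e' _ => hK _ _ _ _
  have hG0 : ∀ X y, 0 ≤ G X y := fun Y x => Finset.prod_nonneg fun e' _ => hK _ _ _ _
  have hH0 : ∀ X Y, 0 ≤ H X Y := fun Y x => Finset.prod_nonneg fun e' _ => hK _ _ _ _
  have hcF : (E1.filter (fun e' : Fin k × Fin k => e'.1 = i)).card ≤ k := by
    calc _ ≤ (Finset.univ.image fun j' : Fin k => (i, j')).card := by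
          apply Finset.card_le_card
          intro e' he'
          rw [mem_filter] at he'
          rw [mem_image]
          exact ⟨e'.2, mem_univ _, by rw [← he'.2]⟩
      _ ≤ (Finset.univ : Finset (Fin k)).card := Finset.card_image_le
      _ = k := by simp
  have hcG : (E1.filter (fun e' : Fin k × Fin k => e'.1 ≠ i ∧ e'.2 = j)).card ≤ k := by
    calc _ ≤ (Finset.univ.image fun i' : Fin k => (i', j)).card := by
          apply Finset.card_le_card
          intro e' he'
          rw [mem_filter] at he'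
          rw [mem_image]
          exact ⟨e'.1, mem_univ _, by rw [← he'.2.2]⟩
      _ ≤ (Finset.univ : Finset (Fin k)).card := Finset.card_image_le
      _ = k := by simp
  have hFL : ∀ Y x, F Y x ≤ L ^ k := fun Y x =>
    prod_le_pow L hL _ k hcF (fun e' => K e'.1 e'.2 x (Y e'.2)) (fun _ => hK _ _ _ _)
      (fun _ => hKL _ _ _ _)
  have hGL : ∀ X y, G X y ≤ L ^ k := fun X y =>
    prod_le_pow L hL _ k hcG (fun e' => K e'.1 e'.2 (X e'.1) y) (fun _ => hK _ _ _ _)
      (fun _ => hKL _ _ _ _)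
  -- the product over `E1` after updating
  have hsplit : ∀ (X Y : Fin k → α) (x y : α),
      ∏ e' ∈ E1, K e'.1 e'.2 (Function.update X i x e'.1) (Function.update Y j y e'.2) =
      F Y x * (G X y * H X Y) := by
    intro X Y x y
    rw [← Finset.prod_filter_mul_prod_filter_not E1 (fun e' => e'.1 = i)]
    congr 1
    · refine Finset.prod_congr rfl fun e' he' => ?_
      rw [mem_filter] at he'
      have h1 : e'.2 ≠ j := by
        intro h2
        have h3 : e' = (i, j) := Prod.ext he'.2 h2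
        rw [h3, hE1] at he'
        exact absurd he'.1 (Finset.notMem_erase _ _)
      have e1 : Function.update X i x e'.1 = x := by
        rw [he'.2]
        exact Function.update_self _ _ _
      have e2 : Function.update Y j y e'.2 = Y e'.2 := Function.update_of_ne h1 _ _
      rw [e1, e2]
    · rw [← Finset.prod_filter_mul_prod_filter_not (E1.filter fun e' => ¬ e'.1 = i)
        (fun e' => e'.2 = j), Finset.filter_filter, Finset.filter_filter]
      congr 1
      · refine Finset.prod_congr rfl fun e' he' => ?_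
        rw [mem_filter] at he'
        rw [Function.update_of_ne he'.2.1]
        have e2 : Function.update Y j y e'.2 = y := by
          rw [he'.2.2]
          exact Function.update_self _ _ _
        rw [e2]
      · refine Finset.prod_congr rfl fun e' he' => ?_
        rw [mem_filter] at he'
        rw [Function.update_of_ne he'.2.1, Function.update_of_ne he'.2.2]
  have hS1 : Q * Q * S K E1 = ∑ X, ∑ Y, H X Y * ((∑ x, F Y x) * ∑ y, G X y) := by
    rw [hQdef, S, ← sum_update2 i j]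
    refine Finset.sum_congr rfl fun X _ => Finset.sum_congr rfl fun Y _ => ?_
    rw [Finset.sum_mul_sum, Finset.mul_sum]
    refine Finset.sum_congr rfl fun x _ => ?_
    rw [Finset.mul_sum]
    refine Finset.sum_congr rfl fun y _ => ?_
    rw [hsplit]
    ring
  have hS : Q * Q * S K E = ∑ X, ∑ Y, H X Y * ∑ x, ∑ y, K i j x y * F Y x * G X y := by
    rw [hQdef, S, ← sum_update2 i j]
    refine Finset.sum_congr rfl fun X _ => Finset.sum_congr rfl fun Y _ => ?_
    rw [Finset.mul_sum]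
    refine Finset.sum_congr rfl fun x _ => ?_
    rw [Finset.mul_sum]
    refine Finset.sum_congr rfl fun y _ => ?_
    rw [← Finset.mul_prod_erase E _ he]
    simp only [Function.update_self]
    rw [← hE1, hsplit]
    ring
  have hSH : S K (E1.filter fun e' => e'.1 ≠ i ∧ e'.2 ≠ j) = ∑ X, ∑ Y, H X Y := rfl
  set c : ℝ := (L ^ k) ^ (1 - 1 / p) with hc
  have hc0 : 0 ≤ c := Real.rpow_nonneg (by positivity) _
  have hin : ∀ X Y, ∑ x, ∑ y, K i j x y * F Y x * G X y ≤
      C * Q ^ (2 - 2 / p) * (c * c) * ((∑ x, F Y x) * ∑ y, G X y) ^ (1 / p) := by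
    intro X Y
    have hsF : 0 ≤ ∑ x, F Y x := Finset.sum_nonneg fun x _ => hF0 Y x
    have hsG : 0 ≤ ∑ x, G X x := Finset.sum_nonneg fun x _ => hG0 X x
    have h1 := hB i j (F Y) (G X) (hF0 Y) (hG0 X)
    have h2 := nrm_le_of_le p hp (F Y) (hF0 Y) (L ^ k) (by positivity) (hFL Y)
    have h3 := nrm_le_of_le p hp (G X) (hG0 X) (L ^ k) (by positivity) (hGL X)
    have hCQ : 0 ≤ C * Q ^ (2 - 2 / p) := by positivity
    calc _ ≤ C * Q ^ (2 - 2 / p) * nrm p (F Y) * nrm p (G X) := h1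
      _ ≤ C * Q ^ (2 - 2 / p) * (c * (∑ x, F Y x) ^ (1 / p)) * (c * (∑ y, G X y) ^ (1 / p)) := by
          refine mul_le_mul (mul_le_mul_of_nonneg_left h2 hCQ) h3 (nrm_nonneg p _ (hG0 X)) ?_
          positivity
      _ = _ := by
          rw [Real.mul_rpow hsF hsG]
          ring
  have hHold : ∑ z : (Fin k → α) × (Fin k → α), H z.1 z.2 *
      ((∑ x, F z.2 x) * ∑ y, G z.1 y) ^ (1 / p) ≤
      (∑ z : (Fin k → α) × (Fin k → α), H z.1 z.2) ^ (1 - 1 / p) *
      (∑ z : (Fin k → α) × (Fin k → α), H z.1 z.2 *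
        ((∑ x, F z.2 x) * ∑ y, G z.1 y)) ^ (1 / p) := by
    have h1 := Real.inner_le_weight_mul_Lp_of_nonneg
      (Finset.univ : Finset ((Fin k → α) × (Fin k → α))) hp (fun z => H z.1 z.2)
      (fun z => ((∑ x, F z.2 x) * ∑ y, G z.1 y) ^ (1 / p)) (fun z => hH0 _ _)
      (fun z => Real.rpow_nonneg (mul_nonneg (Finset.sum_nonneg fun x _ => hF0 _ x)
        (Finset.sum_nonneg fun x _ => hG0 _ x)) _)
    have h2 : ∀ z : (Fin k → α) × (Fin k → α),
        (((∑ x, F z.2 x) * ∑ y, G z.1 y) ^ (1 / p)) ^ p = (∑ x, F z.2 x) * ∑ y, G z.1 y := by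
      intro z
      rw [← Real.rpow_mul (mul_nonneg (Finset.sum_nonneg fun x _ => hF0 _ x)
        (Finset.sum_nonneg fun x _ => hG0 _ x)), one_div, inv_mul_cancel₀ hp0.ne', Real.rpow_one]
    simp only [h2] at h1
    simpa only [one_div] using h1
  rw [Fintype.sum_prod_type, Fintype.sum_prod_type, Fintype.sum_prod_type] at hHold
  simp only at hHold
  rw [← hS1, ← hSH] at hHold
  have hS1nn : 0 ≤ S K E1 := S_nonneg K hK _
  have hfin : Q * Q * S K E ≤ Q * Q * (C * (c * c) *
      ((S K (E1.filter fun e' => e'.1 ≠ i ∧ e'.2 ≠ j)) ^ (1 - 1 / p) *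
        (S K E1) ^ (1 / p))) := by
    rw [hS]
    calc ∑ X, ∑ Y, H X Y * ∑ x, ∑ y, K i j x y * F Y x * G X y
        ≤ ∑ X, ∑ Y, H X Y * (C * Q ^ (2 - 2 / p) * (c * c) *
            ((∑ x, F Y x) * ∑ y, G X y) ^ (1 / p)) :=
          Finset.sum_le_sum fun X _ => Finset.sum_le_sum fun Y _ =>
            mul_le_mul_of_nonneg_left (hin X Y) (hH0 X Y)
      _ = C * Q ^ (2 - 2 / p) * (c * c) *
            ∑ X, ∑ Y, H X Y * ((∑ x, F Y x) * ∑ y, G X y) ^ (1 / p) := by
          rw [Finset.mul_sum]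
          refine Finset.sum_congr rfl fun X _ => ?_
          rw [Finset.mul_sum]
          refine Finset.sum_congr rfl fun Y _ => ?_
          ring
      _ ≤ C * Q ^ (2 - 2 / p) * (c * c) *
            ((S K (E1.filter fun e' => e'.1 ≠ i ∧ e'.2 ≠ j)) ^ (1 - 1 / p) *
              (Q * Q * S K E1) ^ (1 / p)) :=
          mul_le_mul_of_nonneg_left hHold (by positivity)
      _ = _ := by
          rw [Real.mul_rpow (by positivity) hS1nn]
          have h1 : Q ^ (2 - 2 / p) * (Q * Q) ^ (1 / p) = Q * Q := by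
            rw [Real.mul_rpow hQ.le hQ.le, ← Real.rpow_add hQ, ← Real.rpow_add hQ]
            have : 2 - 2 / p + (1 / p + 1 / p) = 2 := by ring
            rw [this]
            norm_num
            ring
          calc C * Q ^ (2 - 2 / p) * (c * c) *
            ((S K (E1.filter fun e' => e'.1 ≠ i ∧ e'.2 ≠ j)) ^ (1 - 1 / p) *
              ((Q * Q) ^ (1 / p) * (S K E1) ^ (1 / p))) =
              (Q ^ (2 - 2 / p) * (Q * Q) ^ (1 / p)) * (C * (c * c) *
            ((S K (E1.filter fun e' => e'.1 ≠ i ∧ e'.2 ≠ j)) ^ (1 - 1 / p) *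
              (S K E1) ^ (1 / p))) := by ring
            _ = _ := by rw [h1]
  exact le_of_mul_le_mul_left hfin (by positivity)

theorem S_bound [DecidableEq α] [Nonempty α] (K : Fin k → Fin k → α → α → ℝ)
    (hK : ∀ i j x y, 0 ≤ K i j x y) (L : ℝ) (hL : 1 ≤ L) (hKL : ∀ i j x y, K i j x y ≤ L)
    (p C : ℝ) (hp : 1 ≤ p) (hC : 1 ≤ C)
    (hB : ∀ i j, Bd p (C * (Fintype.card α : ℝ) ^ (2 - 2 / p)) (K i j)) :
    ∀ (m : ℕ) (E : Finset (Fin k × Fin k)), E.card ≤ m →
    S K E ≤ (C * ((L ^ k) ^ (1 - 1 / p) * (L ^ k) ^ (1 - 1 / p))) ^ m *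
      ((Fintype.card α : ℝ) ^ k * (Fintype.card α : ℝ) ^ k) := by
  have he : 0 ≤ 1 - 1 / p := by
    have : 1 / p ≤ 1 := by
      rw [div_le_one (by linarith)]
      exact hp
    linarith
  have hc : 1 ≤ (L ^ k) ^ (1 - 1 / p) := Real.one_le_rpow (one_le_pow₀ hL) he
  set B : ℝ := C * ((L ^ k) ^ (1 - 1 / p) * (L ^ k) ^ (1 - 1 / p)) with hBdef
  have hB1 : 1 ≤ B := by
    rw [hBdef]
    exact one_le_mul_of_one_le_of_one_le hC (one_le_mul_of_one_le_of_one_le hc hc)
  set Z : ℝ := (Fintype.card α : ℝ) ^ k * (Fintype.card α : ℝ) ^ k with hZ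
  have hZ0 : 0 < Z := by
    have : (0 : ℝ) < Fintype.card α := by exact_mod_cast Fintype.card_pos
    positivity
  have hempty : S K ∅ = Z := by
    unfold S
    simp [hZ]
  intro m
  induction m with
  | zero =>
    intro E hE
    have : E = ∅ := Finset.card_eq_zero.1 (by omega)
    rw [this, hempty]
    simp
  | succ m ih =>
    intro E hE
    rcases E.eq_empty_or_nonempty with h0 | ⟨e, he'⟩
    · rw [h0, hempty]
      exact le_mul_of_one_le_left hZ0.le (one_le_pow₀ hB1)
    · have h1 := S_step K hK L hL hKL p C hp (by linarith) hB E e he'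
      have hc1 : (E.erase e).card ≤ m := by
        rw [Finset.card_erase_of_mem he']
        omega
      have hc2 : ((E.erase e).filter fun e' => e'.1 ≠ e.1 ∧ e'.2 ≠ e.2).card ≤ m :=
        (Finset.card_filter_le _ _).trans hc1
      have h2 := ih _ hc1
      have h3 := ih _ hc2
      have hBZ : 0 < B ^ m * Z := by positivity
      have hp0 : 0 < p := by linarith
      calc S K E ≤ B * ((S K ((E.erase e).filter fun e' => e'.1 ≠ e.1 ∧ e'.2 ≠ e.2)) ^ (1 - 1 / p) *
            (S K (E.erase e)) ^ (1 / p)) := h1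
        _ ≤ B * ((B ^ m * Z) ^ (1 - 1 / p) * (B ^ m * Z) ^ (1 / p)) := by
            refine mul_le_mul_of_nonneg_left ?_ (by linarith)
            exact mul_le_mul (Real.rpow_le_rpow (S_nonneg K hK _) h3 he)
              (Real.rpow_le_rpow (S_nonneg K hK _) h2 (by positivity))
              (Real.rpow_nonneg (S_nonneg K hK _) _) (by positivity)
        _ = B * (B ^ m * Z) := by
            rw [← Real.rpow_add hBZ]
            have : 1 - 1 / p + 1 / p = 1 := by ring
            rw [this, Real.rpow_one]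
        _ = B ^ (m + 1) * Z := by
            rw [pow_succ]
            ring

end Pool.Agent.T2h38.JM
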