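import Mathlib
import Pool.Agent.T2h38.JM.Grid

/-! The grid inequality for kernels which differ from one only where a pair 'survives', restricted
to inputs for which every row and every column has at most `D` survivors. -/

namespace Pool.Agent.T2h38.JM

open Finset

variable {α : Type} [Fintype α] {k : ℕ}

/-- The number of surviving pairs of `E` in the row `i`. -/
def rowc (σ : Fin k → Fin k → α → α → Bool) (E : Finset (Fin k × Fin k))
    (X Y : Fin k → α) (i : Fin k) : ℕ :=
  (E.filter fun e => e.1 = i ∧ σ e.1 e.2 (X e.1) (Y e.2) = true).card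

/-- The number of surviving pairs of `E` in the column `j`. -/
def colc (σ : Fin k → Fin k → α → α → Bool) (E : Finset (Fin k × Fin k))
    (X Y : Fin k → α) (j : Fin k) : ℕ :=
  (E.filter fun e => e.2 = j ∧ σ e.1 e.2 (X e.1) (Y e.2) = true).card

/-- All rows and columns have at most `D` surviving pairs. -/
def Cap (D : ℕ) (σ : Fin k → Fin k → α → α → Bool) (E : Finset (Fin k × Fin k))
    (X Y : Fin k → α) : Prop :=
  (∀ i, rowc σ E X Y i ≤ D) ∧ ∀ j, colc σ E X Y j ≤ D

open Classical in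
/-- The indicator of a proposition. -/
noncomputable def ind (p : Prop) : ℝ := if p then 1 else 0

theorem ind_true {p : Prop} (h : p) : ind p = 1 := by
  unfold ind
  rw [if_pos h]

theorem ind_false {p : Prop} (h : ¬ p) : ind p = 0 := by
  unfold ind
  rw [if_neg h]

theorem ind_nonneg (p : Prop) : 0 ≤ ind p := by
  unfold ind
  split_ifs <;> norm_num

theorem ind_le_one (p : Prop) : ind p ≤ 1 := by
  unfold ind
  split_ifs <;> norm_num

theorem ind_and (p q : Prop) : ind (p ∧ q) = ind p * ind q := by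
  by_cases hp : p
  · by_cases hq : q
    · rw [ind_true hp, ind_true hq, ind_true ⟨hp, hq⟩, one_mul]
    · rw [ind_true hp, ind_false hq, ind_false (fun h => hq h.2), mul_zero]
  · rw [ind_false hp, ind_false (fun h => hp h.1), zero_mul]

theorem ind_mono {p q : Prop} (h : p → q) : ind p ≤ ind q := by
  by_cases hp : p
  · rw [ind_true hp, ind_true (h hp)]
  · rw [ind_false hp]
    exact ind_nonneg q

/-- The restricted sum. -/
noncomputable def SC (D : ℕ) (σ : Fin k → Fin k → α → α → Bool) (K : Fin k → Fin k → α → α → ℝ)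
    (E : Finset (Fin k × Fin k)) : ℝ :=
  ∑ X : Fin k → α, ∑ Y : Fin k → α,
    (∏ e ∈ E, K e.1 e.2 (X e.1) (Y e.2)) * ind (Cap D σ E X Y)

/-- The norm bound for a pair. -/
def BdS (p C : ℝ) (σ : α → α → Bool) (K : α → α → ℝ) : Prop :=
  ∀ f g : α → ℝ, (∀ x, 0 ≤ f x) → (∀ y, 0 ≤ g y) →
    ∑ x, ∑ y, (if σ x y = true then K x y * f x * g y else 0) ≤
      C * (∑ x, ∑ y, (if σ x y = true then f x ^ p * g y ^ p else 0)) ^ (1 / p)

theorem BdS.of_le {p C : ℝ} {σ : α → α → Bool} {K : α → α → ℝ} (hp : 1 ≤ p) (hC : 0 ≤ C)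
    (h : BdS p C σ K) (M : ℝ) (hM : 0 ≤ M) (f g : α → ℝ) (hf : ∀ x, 0 ≤ f x) (hg : ∀ y, 0 ≤ g y)
    (hfM : ∀ x, f x ≤ M) (hgM : ∀ x, g x ≤ M) :
    ∑ x, ∑ y, (if σ x y = true then K x y * f x * g y else 0) ≤
      C * ((M * M) ^ (1 - 1 / p) *
        (∑ x, ∑ y, (if σ x y = true then f x * g y else 0)) ^ (1 / p)) := by
  have hp0 : 0 < p := by linarith
  refine (h f g hf hg).trans ?_
  refine mul_le_mul_of_nonneg_left ?_ hC
  have hpw : ∀ v : ℝ, 0 ≤ v → v ≤ M → v ^ p ≤ M ^ (p - 1) * v := by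
    intro v hv hvM
    rcases hv.eq_or_lt with h0 | h0
    · rw [← h0, Real.zero_rpow hp0.ne', mul_zero]
    · calc v ^ p = v ^ (p - 1) * v := by
            rw [← Real.rpow_add_one h0.ne']
            congr 1
            ring
        _ ≤ M ^ (p - 1) * v :=
            mul_le_mul_of_nonneg_right (Real.rpow_le_rpow hv hvM (by linarith)) hv
  have h1 : ∑ x, ∑ y, (if σ x y = true then f x ^ p * g y ^ p else 0) ≤
      (M * M) ^ (p - 1) * ∑ x, ∑ y, (if σ x y = true then f x * g y else 0) := by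
    rw [Finset.mul_sum]
    refine Finset.sum_le_sum fun x _ => ?_
    rw [Finset.mul_sum]
    refine Finset.sum_le_sum fun y _ => ?_
    split_ifs
    · calc f x ^ p * g y ^ p ≤ (M ^ (p - 1) * f x) * (M ^ (p - 1) * g y) :=
            mul_le_mul (hpw _ (hf x) (hfM x)) (hpw _ (hg y) (hgM y))
              (Real.rpow_nonneg (hg y) _) (mul_nonneg (Real.rpow_nonneg hM _) (hf x))
        _ = (M * M) ^ (p - 1) * (f x * g y) := by
            rw [Real.mul_rpow hM hM]
            ring
    · rw [mul_zero]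
  have hs : 0 ≤ ∑ x, ∑ y, (if σ x y = true then f x * g y else 0) :=
    Finset.sum_nonneg fun x _ => Finset.sum_nonneg fun y _ => by
      split_ifs
      · exact mul_nonneg (hf x) (hg y)
      · exact le_rfl
  have hs' : 0 ≤ ∑ x, ∑ y, (if σ x y = true then f x ^ p * g y ^ p else 0) :=
    Finset.sum_nonneg fun x _ => Finset.sum_nonneg fun y _ => by
      split_ifs
      · exact mul_nonneg (Real.rpow_nonneg (hf x) _) (Real.rpow_nonneg (hg y) _)
      · exact le_rfl
  calc _ ≤ ((M * M) ^ (p - 1) * ∑ x, ∑ y, (if σ x y = true then f x * g y else 0)) ^ (1 / p) :=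
        Real.rpow_le_rpow hs' h1 (by positivity)
    _ = _ := by
        rw [Real.mul_rpow (Real.rpow_nonneg (mul_nonneg hM hM) _) hs,
          ← Real.rpow_mul (mul_nonneg hM hM)]
        congr 2
        field_simp

theorem SC_nonneg (D : ℕ) (σ : Fin k → Fin k → α → α → Bool) (K : Fin k → Fin k → α → α → ℝ)
    (hK : ∀ i j x y, 0 ≤ K i j x y) (E : Finset (Fin k × Fin k)) : 0 ≤ SC D σ K E :=
  Finset.sum_nonneg fun _ _ => Finset.sum_nonneg fun _ _ =>
    mul_nonneg (Finset.prod_nonneg fun _ _ => hK _ _ _ _) (ind_nonneg _)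

omit [Fintype α] in
theorem Cap.mono {D : ℕ} {σ : Fin k → Fin k → α → α → Bool} {E E' : Finset (Fin k × Fin k)}
    {X Y : Fin k → α} (h : E' ⊆ E) (hc : Cap D σ E X Y) : Cap D σ E' X Y :=
  ⟨fun i => (Finset.card_le_card (Finset.filter_subset_filter _ h)).trans (hc.1 i),
    fun j => (Finset.card_le_card (Finset.filter_subset_filter _ h)).trans (hc.2 j)⟩

/-- The product over survivors. -/
theorem prod_le_surv (L : ℝ) (hL : 1 ≤ L) {ι : Type} (E : Finset ι) (τ : ι → Bool) (m : ℕ)
    (f : ι → ℝ) (hf : ∀ i, 0 ≤ f i) (hfL : ∀ i, f i ≤ L) (hf1 : ∀ i, τ i = false → f i ≤ 1)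
    (hE : (E.filter fun i => τ i = true).card ≤ m) : ∏ i ∈ E, f i ≤ L ^ m := by
  calc ∏ i ∈ E, f i ≤ ∏ i ∈ E, (if τ i = true then L else 1) := by
        refine Finset.prod_le_prod (fun i _ => hf i) (fun i _ => ?_)
        split_ifs with h
        · exact hfL i
        · exact hf1 i (by simpa using h)
    _ = L ^ (E.filter fun i => τ i = true).card := by
        rw [Finset.prod_ite, Finset.prod_const, Finset.prod_const_one, mul_one]
    _ ≤ L ^ m := pow_le_pow_right₀ hL hE

theorem SC_step [DecidableEq α] [Nonempty α] (D : ℕ) (σ : Fin k → Fin k → α → α → Bool)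
    (K : Fin k → Fin k → α → α → ℝ)
    (hK : ∀ i j x y, 0 ≤ K i j x y) (L : ℝ) (hL : 1 ≤ L) (hKL : ∀ i j x y, K i j x y ≤ L)
    (hK1 : ∀ i j x y, σ i j x y = false → K i j x y ≤ 1)
    (p C : ℝ) (hp : 1 < p) (hC : 0 ≤ C)
    (hB : ∀ i j, BdS p (C * (Fintype.card α : ℝ) ^ (2 - 2 / p)) (σ i j) (K i j))
    (E : Finset (Fin k × Fin k)) (e : Fin k × Fin k) (he : e ∈ E) :
    SC D σ K E ≤ SC D σ K (E.erase e) + C ^ (1 / (1 - 1 / p)) * (L ^ D * L ^ D) *
      SC D σ K ((E.erase e).filter fun e' => e'.1 ≠ e.1 ∧ e'.2 ≠ e.2) := by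
  obtain ⟨i, j⟩ := e
  have hp0 : 0 < p := by linarith
  have hL0 : 0 ≤ L := by linarith
  have hδ0 : 0 < 1 - 1 / p := by
    have : 1 / p < 1 := by
      rw [div_lt_one hp0]
      exact hp
    linarith
  set Q : ℝ := (Fintype.card α : ℝ) with hQdef
  have hQ : 0 < Q := by
    rw [hQdef]
    exact_mod_cast Fintype.card_pos
  set E1 := E.erase (i, j) with hE1
  set E2 := E1.filter (fun e' => e'.1 ≠ i ∧ e'.2 ≠ j) with hE2
  have hij : (i, j) ∉ E1 := Finset.notMem_erase _ _
  set PF : (Fin k → α) → α → ℝ := fun Y x =>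
    ∏ e' ∈ E1.filter (fun e' => e'.1 = i), K e'.1 e'.2 x (Y e'.2) with hPF
  set PG : (Fin k → α) → α → ℝ := fun X y =>
    ∏ e' ∈ E1.filter (fun e' => e'.1 ≠ i ∧ e'.2 = j), K e'.1 e'.2 (X e'.1) y with hPG
  set PH : (Fin k → α) → (Fin k → α) → ℝ := fun X Y =>
    ∏ e' ∈ E2, K e'.1 e'.2 (X e'.1) (Y e'.2) with hPH
  have hPF0 : ∀ Y x, 0 ≤ PF Y x := fun Y x => Finset.prod_nonneg fun e' _ => hK _ _ _ _
  have hPG0 : ∀ X y, 0 ≤ PG X y := fun Y x => Finset.prod_nonneg fun e' _ => hK _ _ _ _
  have hPH0 : ∀ X Y, 0 ≤ PH X Y := fun Y x => Finset.prod_nonneg fun e' _ => hK _ _ _ _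
  -- the caps
  set cA : (Fin k → α) → (Fin k → α) → α → Prop := fun X Y x =>
    rowc σ E1 (Function.update X i x) Y i ≤ D ∧
      ∀ j', j' ≠ j → colc σ E1 (Function.update X i x) Y j' ≤ D with hcA
  set cB : (Fin k → α) → (Fin k → α) → α → Prop := fun X Y y =>
    colc σ E1 X (Function.update Y j y) j ≤ D ∧
      ∀ i', i' ≠ i → rowc σ E1 X (Function.update Y j y) i' ≤ D with hcB
  have hneq : ∀ e' ∈ E1, e'.1 = i → e'.2 ≠ j := by
    intro e' he' h1 h2
    apply hij
    have : e' = (i, j) := Prod.ext h1 h2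
    rwa [this] at he'
  have hcap : ∀ X Y x y, Cap D σ E1 (Function.update X i x) (Function.update Y j y) ↔
      (cA X Y x ∧ cB X Y y) := by
    intro X Y x y
    have r1 : rowc σ E1 (Function.update X i x) (Function.update Y j y) i =
        rowc σ E1 (Function.update X i x) Y i := by
      unfold rowc
      congr 1
      refine Finset.filter_congr fun e' he' => ?_
      constructor
      · rintro ⟨h1, h2⟩
        rw [Function.update_of_ne (hneq e' he' h1)] at h2
        exact ⟨h1, h2⟩
      · rintro ⟨h1, h2⟩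
        refine ⟨h1, ?_⟩
        rw [Function.update_of_ne (hneq e' he' h1)]
        exact h2
    have r2 : ∀ i', i' ≠ i → rowc σ E1 (Function.update X i x) (Function.update Y j y) i' =
        rowc σ E1 X (Function.update Y j y) i' := by
      intro i' hi'
      unfold rowc
      congr 1
      refine Finset.filter_congr fun e' _ => ?_
      constructor
      · rintro ⟨h1, h2⟩
        rw [Function.update_of_ne (show e'.1 ≠ i by rw [h1]; exact hi')] at h2
        exact ⟨h1, h2⟩
      · rintro ⟨h1, h2⟩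
        refine ⟨h1, ?_⟩
        rw [Function.update_of_ne (show e'.1 ≠ i by rw [h1]; exact hi')]
        exact h2
    have r3 : colc σ E1 (Function.update X i x) (Function.update Y j y) j =
        colc σ E1 X (Function.update Y j y) j := by
      unfold colc
      congr 1
      refine Finset.filter_congr fun e' he' => ?_
      have h0 : e'.2 = j → e'.1 ≠ i := fun h1 h2 => hneq e' he' h2 h1
      constructor
      · rintro ⟨h1, h2⟩
        rw [Function.update_of_ne (h0 h1)] at h2
        exact ⟨h1, h2⟩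
      · rintro ⟨h1, h2⟩
        refine ⟨h1, ?_⟩
        rw [Function.update_of_ne (h0 h1)]
        exact h2
    have r4 : ∀ j', j' ≠ j → colc σ E1 (Function.update X i x) (Function.update Y j y) j' =
        colc σ E1 (Function.update X i x) Y j' := by
      intro j' hj'
      unfold colc
      congr 1
      refine Finset.filter_congr fun e' _ => ?_
      constructor
      · rintro ⟨h1, h2⟩
        rw [Function.update_of_ne (show e'.2 ≠ j by rw [h1]; exact hj')] at h2
        exact ⟨h1, h2⟩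
      · rintro ⟨h1, h2⟩
        refine ⟨h1, ?_⟩
        rw [Function.update_of_ne (show e'.2 ≠ j by rw [h1]; exact hj')]
        exact h2
    constructor
    · rintro ⟨h1, h2⟩
      refine ⟨⟨?_, fun j' hj' => ?_⟩, ⟨?_, fun i' hi' => ?_⟩⟩
      · rw [← r1]
        exact h1 i
      · rw [← r4 j' hj']
        exact h2 j'
      · rw [← r3]
        exact h2 j
      · rw [← r2 i' hi']
        exact h1 i'
    · rintro ⟨⟨h1, h2⟩, ⟨h3, h4⟩⟩
      refine ⟨fun i' => ?_, fun j' => ?_⟩
      · by_cases hi' : i' = i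
        · rw [hi', r1]
          exact h1
        · rw [r2 i' hi']
          exact h4 i' hi'
      · by_cases hj' : j' = j
        · rw [hj', r3]
          exact h3
        · rw [r4 j' hj']
          exact h2 j' hj'
  have hcap2 : ∀ X Y x y, cA X Y x → cB X Y y → Cap D σ E2 X Y := by
    intro X Y x y h1 h2
    have h3 := ((hcap X Y x y).2 ⟨h1, h2⟩).mono (Finset.filter_subset _ _ : E2 ⊆ E1)
    have h4 : ∀ e' ∈ E2, Function.update X i x e'.1 = X e'.1 ∧
        Function.update Y j y e'.2 = Y e'.2 := by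
      intro e' he'
      rw [hE2, mem_filter] at he'
      exact ⟨Function.update_of_ne he'.2.1 _ _, Function.update_of_ne he'.2.2 _ _⟩
    refine ⟨fun i' => ?_, fun j' => ?_⟩
    · refine le_trans (le_of_eq ?_) (h3.1 i')
      unfold rowc
      congr 1
      refine Finset.filter_congr fun e' he' => ?_
      rw [(h4 e' he').1, (h4 e' he').2]
    · refine le_trans (le_of_eq ?_) (h3.2 j')
      unfold colc
      congr 1
      refine Finset.filter_congr fun e' he' => ?_
      rw [(h4 e' he').1, (h4 e' he').2]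
  set F : (Fin k → α) → (Fin k → α) → α → ℝ := fun X Y x => PF Y x * ind (cA X Y x) with hF
  set G : (Fin k → α) → (Fin k → α) → α → ℝ := fun X Y y => PG X y * ind (cB X Y y) with hG
  have hF0 : ∀ X Y x, 0 ≤ F X Y x := fun X Y x => mul_nonneg (hPF0 _ _) (ind_nonneg _)
  have hG0 : ∀ X Y x, 0 ≤ G X Y x := fun X Y x => mul_nonneg (hPG0 _ _) (ind_nonneg _)
  have hFL : ∀ X Y x, F X Y x ≤ L ^ D := by
    intro X Y x
    by_cases hc : cA X Y x
    · rw [hF]
      simp only
      rw [ind_true hc, mul_one]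
      refine prod_le_surv L hL _ (fun e' : Fin k × Fin k => σ e'.1 e'.2 x (Y e'.2)) D
        (fun e' : Fin k × Fin k => K e'.1 e'.2 x (Y e'.2)) (fun _ => hK _ _ _ _) (fun _ => hKL _ _ _ _)
        (fun _ h => hK1 _ _ _ _ h) ?_
      refine le_trans (le_of_eq ?_) hc.1
      unfold rowc
      rw [Finset.filter_filter]
      congr 1
      refine Finset.filter_congr fun e' _ => ?_
      constructor
      · rintro ⟨h1, h2⟩
        refine ⟨h1, ?_⟩
        rw [h1, Function.update_self]
        rw [h1] at h2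
        exact h2
      · rintro ⟨h1, h2⟩
        refine ⟨h1, ?_⟩
        rw [h1, Function.update_self] at h2
        rw [h1]
        exact h2
    · rw [hF]
      simp only
      rw [ind_false hc, mul_zero]
      positivity
  have hGL : ∀ X Y x, G X Y x ≤ L ^ D := by
    intro X Y y
    by_cases hc : cB X Y y
    · rw [hG]
      simp only
      rw [ind_true hc, mul_one]
      refine prod_le_surv L hL _ (fun e' : Fin k × Fin k => σ e'.1 e'.2 (X e'.1) y) D
        (fun e' : Fin k × Fin k => K e'.1 e'.2 (X e'.1) y) (fun _ => hK _ _ _ _) (fun _ => hKL _ _ _ _)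
        (fun _ h => hK1 _ _ _ _ h) ?_
      refine le_trans (Finset.card_le_card ?_) hc.1
      intro e' he'
      rw [mem_filter, mem_filter] at he'
      rw [mem_filter]
      obtain ⟨⟨h1, h2, h3⟩, h4⟩ := he'
      refine ⟨h1, h3, ?_⟩
      rw [h3, Function.update_self]
      rw [h3] at h4
      exact h4
    · rw [hG]
      simp only
      rw [ind_false hc, mul_zero]
      positivity
  -- the product over `E1` after updating
  have hsplit : ∀ (X Y : Fin k → α) (x y : α),
      (∏ e' ∈ E1, K e'.1 e'.2 (Function.update X i x e'.1) (Function.update Y j y e'.2)) *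
        ind (Cap D σ E1 (Function.update X i x) (Function.update Y j y)) =
      PH X Y * (F X Y x * G X Y y) := by
    intro X Y x y
    have hc : ind (Cap D σ E1 (Function.update X i x) (Function.update Y j y)) =
        ind (cA X Y x) * ind (cB X Y y) := by
      rw [← ind_and]
      congr 1
      exact propext (hcap X Y x y)
    have hprod : ∏ e' ∈ E1, K e'.1 e'.2 (Function.update X i x e'.1)
        (Function.update Y j y e'.2) = PF Y x * (PG X y * PH X Y) := by
      rw [← Finset.prod_filter_mul_prod_filter_not E1 (fun e' => e'.1 = i)]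
      congr 1
      · refine Finset.prod_congr rfl fun e' he' => ?_
        rw [mem_filter] at he'
        have e1 : Function.update X i x e'.1 = x := by
          rw [he'.2]
          exact Function.update_self _ _ _
        have e2 : Function.update Y j y e'.2 = Y e'.2 :=
          Function.update_of_ne (hneq e' he'.1 he'.2) _ _
        rw [e1, e2]
      · rw [← Finset.prod_filter_mul_prod_filter_not (E1.filter fun e' => ¬ e'.1 = i)
          (fun e' => e'.2 = j), Finset.filter_filter, Finset.filter_filter]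
        congr 1
        · refine Finset.prod_congr rfl fun e' he' => ?_
          rw [mem_filter] at he'
          rw [Function.update_of_ne he'.2.1]
          have e2 : Function.update Y j y e'.2 = y := by
            rw [he'.2.2]
            exact Function.update_self _ _ _
          rw [e2]
        · refine Finset.prod_congr rfl fun e' he' => ?_
          rw [mem_filter] at he'
          rw [Function.update_of_ne he'.2.1, Function.update_of_ne he'.2.2]
    rw [hc, hprod]
    simp only [hF, hG]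
    ring
  have hPHc : ∀ X Y x y, PH X Y * (F X Y x * G X Y y) =
      PH X Y * ind (Cap D σ E2 X Y) * (F X Y x * G X Y y) := by
    intro X Y x y
    by_cases hc : Cap D σ E2 X Y
    · rw [ind_true hc, mul_one]
    · have h0 : F X Y x * G X Y y = 0 := by
        by_cases hA : cA X Y x
        · by_cases hB' : cB X Y y
          · exact absurd (hcap2 X Y x y hA hB') hc
          · simp only [hG]
            rw [ind_false hB', mul_zero, mul_zero]
        · simp only [hF]
          rw [ind_false hA, mul_zero, zero_mul]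
      rw [h0, mul_zero, mul_zero]
  -- the three sums
  set s : ℝ := ∑ X : Fin k → α, ∑ Y : Fin k → α,
    (if σ i j (X i) (Y j) = true then
      (∏ e' ∈ E1, K e'.1 e'.2 (X e'.1) (Y e'.2)) * ind (Cap D σ E1 X Y) else 0) with hs
  set u : ℝ := ∑ X : Fin k → α, ∑ Y : Fin k → α,
    (if σ i j (X i) (Y j) = true then K i j (X i) (Y j) *
      ((∏ e' ∈ E1, K e'.1 e'.2 (X e'.1) (Y e'.2)) * ind (Cap D σ E1 X Y)) else 0) with hu
  have hSE : SC D σ K E ≤ SC D σ K E1 - s + u := by
    unfold SC
    rw [hs, hu, ← Finset.sum_sub_distrib, ← Finset.sum_add_distrib]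
    refine Finset.sum_le_sum fun X _ => ?_
    rw [← Finset.sum_sub_distrib, ← Finset.sum_add_distrib]
    refine Finset.sum_le_sum fun Y _ => ?_
    rw [← Finset.mul_prod_erase E _ he, ← hE1]
    set PP := ∏ e' ∈ E1, K e'.1 e'.2 (X e'.1) (Y e'.2) with hPP
    have hPP0 : 0 ≤ PP := Finset.prod_nonneg fun e' _ => hK _ _ _ _
    have hi1 : ind (Cap D σ E X Y) ≤ ind (Cap D σ E1 X Y) :=
      ind_mono fun h => h.mono (Finset.erase_subset _ _)
    have hKe : 0 ≤ K i j (X i) (Y j) := hK _ _ _ _
    have h1 : K i j (X i) (Y j) * PP * ind (Cap D σ E X Y) ≤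
        K i j (X i) (Y j) * (PP * ind (Cap D σ E1 X Y)) := by
      rw [mul_assoc]
      exact mul_le_mul_of_nonneg_left (mul_le_mul_of_nonneg_left hi1 hPP0) hKe
    refine h1.trans ?_
    by_cases hσ : σ i j (X i) (Y j) = true
    · rw [if_pos hσ, if_pos hσ]
      linarith
    · rw [if_neg hσ, if_neg hσ, sub_zero, add_zero]
      have h2 := hK1 i j (X i) (Y j) (by simpa using hσ)
      exact mul_le_of_le_one_left (mul_nonneg hPP0 (ind_nonneg _)) h2
  have hs0 : 0 ≤ s := Finset.sum_nonneg fun X _ => Finset.sum_nonneg fun Y _ => by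
    split_ifs
    · exact mul_nonneg (Finset.prod_nonneg fun e' _ => hK _ _ _ _) (ind_nonneg _)
    · exact le_rfl
  have hQs : Q * Q * s = ∑ X, ∑ Y, (PH X Y * ind (Cap D σ E2 X Y)) *
      ∑ x, ∑ y, (if σ i j x y = true then F X Y x * G X Y y else 0) := by
    rw [hQdef, hs, ← sum_update2 i j (fun X Y => if σ i j (X i) (Y j) = true then
      (∏ e' ∈ E1, K e'.1 e'.2 (X e'.1) (Y e'.2)) * ind (Cap D σ E1 X Y) else 0)]
    refine Finset.sum_congr rfl fun X _ => Finset.sum_congr rfl fun Y _ => ?_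
    rw [Finset.mul_sum]
    refine Finset.sum_congr rfl fun x _ => ?_
    rw [Finset.mul_sum]
    refine Finset.sum_congr rfl fun y _ => ?_
    simp only [Function.update_self]
    rw [hsplit, hPHc]
    split_ifs
    · rfl
    · rw [mul_zero]
  have hQu : Q * Q * u = ∑ X, ∑ Y, (PH X Y * ind (Cap D σ E2 X Y)) *
      ∑ x, ∑ y, (if σ i j x y = true then K i j x y * F X Y x * G X Y y else 0) := by
    rw [hQdef, hu, ← sum_update2 i j (fun X Y => if σ i j (X i) (Y j) = true then
      K i j (X i) (Y j) *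
      ((∏ e' ∈ E1, K e'.1 e'.2 (X e'.1) (Y e'.2)) * ind (Cap D σ E1 X Y)) else 0)]
    refine Finset.sum_congr rfl fun X _ => Finset.sum_congr rfl fun Y _ => ?_
    rw [Finset.mul_sum]
    refine Finset.sum_congr rfl fun x _ => ?_
    rw [Finset.mul_sum]
    refine Finset.sum_congr rfl fun y _ => ?_
    simp only [Function.update_self]
    rw [hsplit, hPHc]
    split_ifs
    · ring
    · rw [mul_zero]
  have hS2 : SC D σ K E2 = ∑ X, ∑ Y, PH X Y * ind (Cap D σ E2 X Y) := rfl
  have hS2nn : 0 ≤ SC D σ K E2 := SC_nonneg D σ K hK _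
  set M : ℝ := L ^ D with hM
  have hM0 : 0 ≤ M := by positivity
  have hCQ : 0 ≤ C * Q ^ (2 - 2 / p) := by positivity
  have hHold : ∑ z : (Fin k → α) × (Fin k → α), (PH z.1 z.2 * ind (Cap D σ E2 z.1 z.2)) *
      (∑ x, ∑ y, (if σ i j x y = true then F z.1 z.2 x * G z.1 z.2 y else 0)) ^ (1 / p) ≤
      (∑ z : (Fin k → α) × (Fin k → α), (PH z.1 z.2 * ind (Cap D σ E2 z.1 z.2))) ^ (1 - 1 / p) *
      (∑ z : (Fin k → α) × (Fin k → α), (PH z.1 z.2 * ind (Cap D σ E2 z.1 z.2)) *
        ∑ x, ∑ y, (if σ i j x y = true then F z.1 z.2 x * G z.1 z.2 y else 0)) ^ (1 / p) := by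
    have hnn : ∀ z : (Fin k → α) × (Fin k → α), 0 ≤
        ∑ x, ∑ y, (if σ i j x y = true then F z.1 z.2 x * G z.1 z.2 y else 0) := by
      intro z
      refine Finset.sum_nonneg fun x _ => Finset.sum_nonneg fun y _ => ?_
      split_ifs
      · exact mul_nonneg (hF0 _ _ _) (hG0 _ _ _)
      · exact le_rfl
    have h1 := Real.inner_le_weight_mul_Lp_of_nonneg
      (Finset.univ : Finset ((Fin k → α) × (Fin k → α))) hp.le
      (fun z => PH z.1 z.2 * ind (Cap D σ E2 z.1 z.2))
      (fun z => (∑ x, ∑ y, (if σ i j x y = true then F z.1 z.2 x * G z.1 z.2 y else 0)) ^ (1 / p))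
      (fun z => mul_nonneg (hPH0 _ _) (ind_nonneg _))
      (fun z => Real.rpow_nonneg (hnn z) _)
    have h2 : ∀ z : (Fin k → α) × (Fin k → α),
        ((∑ x, ∑ y, (if σ i j x y = true then F z.1 z.2 x * G z.1 z.2 y else 0)) ^ (1 / p)) ^ p =
        ∑ x, ∑ y, (if σ i j x y = true then F z.1 z.2 x * G z.1 z.2 y else 0) := by
      intro z
      rw [← Real.rpow_mul (hnn z), one_div, inv_mul_cancel₀ hp0.ne', Real.rpow_one]
    simp only [h2] at h1
    simpa only [one_div] using h1
  rw [Fintype.sum_prod_type, Fintype.sum_prod_type, Fintype.sum_prod_type] at hHold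
  simp only at hHold
  rw [← hQs, ← hS2] at hHold
  have hu1 : Q * Q * u ≤ Q * Q * (C * ((M * M) ^ (1 - 1 / p) *
      ((SC D σ K E2) ^ (1 - 1 / p) * s ^ (1 / p)))) := by
    rw [hQu]
    calc _ ≤ ∑ X, ∑ Y, (PH X Y * ind (Cap D σ E2 X Y)) *
          (C * Q ^ (2 - 2 / p) * ((M * M) ^ (1 - 1 / p) *
          (∑ x, ∑ y, (if σ i j x y = true then F X Y x * G X Y y else 0)) ^ (1 / p))) := by
          refine Finset.sum_le_sum fun X _ => Finset.sum_le_sum fun Y _ => ?_
          refine mul_le_mul_of_nonneg_left ?_ (mul_nonneg (hPH0 _ _) (ind_nonneg _))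
          exact (hB i j).of_le hp.le hCQ M hM0 (F X Y) (G X Y) (hF0 X Y) (hG0 X Y) (hFL X Y)
            (hGL X Y)
      _ = C * Q ^ (2 - 2 / p) * (M * M) ^ (1 - 1 / p) *
          ∑ X, ∑ Y, (PH X Y * ind (Cap D σ E2 X Y)) *
          (∑ x, ∑ y, (if σ i j x y = true then F X Y x * G X Y y else 0)) ^ (1 / p) := by
          rw [Finset.mul_sum]
          refine Finset.sum_congr rfl fun X _ => ?_
          rw [Finset.mul_sum]
          refine Finset.sum_congr rfl fun Y _ => ?_
          ring
      _ ≤ C * Q ^ (2 - 2 / p) * (M * M) ^ (1 - 1 / p) *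
          ((SC D σ K E2) ^ (1 - 1 / p) * (Q * Q * s) ^ (1 / p)) :=
          mul_le_mul_of_nonneg_left hHold (by positivity)
      _ = _ := by
          rw [Real.mul_rpow (by positivity) hs0]
          have h1 : Q ^ (2 - 2 / p) * (Q * Q) ^ (1 / p) = Q * Q := by
            rw [Real.mul_rpow hQ.le hQ.le, ← Real.rpow_add hQ, ← Real.rpow_add hQ]
            have : 2 - 2 / p + (1 / p + 1 / p) = 2 := by ring
            rw [this]
            norm_num
            ring
          calc C * Q ^ (2 - 2 / p) * (M * M) ^ (1 - 1 / p) *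
              ((SC D σ K E2) ^ (1 - 1 / p) * ((Q * Q) ^ (1 / p) * s ^ (1 / p))) =
              (Q ^ (2 - 2 / p) * (Q * Q) ^ (1 / p)) * (C * ((M * M) ^ (1 - 1 / p) *
              ((SC D σ K E2) ^ (1 - 1 / p) * s ^ (1 / p)))) := by ring
            _ = _ := by rw [h1]
  have hu2 := le_of_mul_le_mul_left hu1 (by positivity)
  -- the inequality of the means
  set A : ℝ := C ^ (1 / (1 - 1 / p)) * (M * M) * SC D σ K E2 with hA
  have hA0 : 0 ≤ A := by positivity
  have hAe : C * ((M * M) ^ (1 - 1 / p) * ((SC D σ K E2) ^ (1 - 1 / p) * s ^ (1 / p))) =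
      A ^ (1 - 1 / p) * s ^ (1 / p) := by
    have e1 : (C ^ (1 / (1 - 1 / p)) * (M * M) * SC D σ K E2) ^ (1 - 1 / p) =
        (C ^ (1 / (1 - 1 / p))) ^ (1 - 1 / p) * (M * M) ^ (1 - 1 / p) *
          (SC D σ K E2) ^ (1 - 1 / p) := by
      rw [Real.mul_rpow (by positivity) hS2nn, Real.mul_rpow (by positivity) (by positivity)]
    have e2 : (C ^ (1 / (1 - 1 / p))) ^ (1 - 1 / p) = C := by
      rw [← Real.rpow_mul hC, one_div_mul_cancel hδ0.ne', Real.rpow_one]
    rw [hA, e1, e2]
    ring
  rw [hAe] at hu2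
  have hAM := Real.geom_mean_le_arith_mean2_weighted (w₁ := 1 - 1 / p) (w₂ := 1 / p)
    hδ0.le (by positivity) hA0 hs0 (by ring)
  have h1 : (1 - 1 / p) * A ≤ 1 * A := mul_le_mul_of_nonneg_right (by
    have : 0 < 1 / p := by positivity
    linarith) hA0
  have h2 : 1 / p * s ≤ 1 * s := mul_le_mul_of_nonneg_right (by linarith) hs0
  show SC D σ K E ≤ SC D σ K E1 + A
  linarith

theorem SC_bound [DecidableEq α] [Nonempty α] (D : ℕ) (σ : Fin k → Fin k → α → α → Bool)
    (K : Fin k → Fin k → α → α → ℝ)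
    (hK : ∀ i j x y, 0 ≤ K i j x y) (L : ℝ) (hL : 1 ≤ L) (hKL : ∀ i j x y, K i j x y ≤ L)
    (hK1 : ∀ i j x y, σ i j x y = false → K i j x y ≤ 1)
    (p C : ℝ) (hp : 1 < p) (hC : 0 ≤ C)
    (hB : ∀ i j, BdS p (C * (Fintype.card α : ℝ) ^ (2 - 2 / p)) (σ i j) (K i j))
    (ζ : ℝ) (hζ : C ^ (1 / (1 - 1 / p)) * (L ^ D * L ^ D) ≤ ζ) (hζ0 : 0 ≤ ζ) :
    ∀ (m : ℕ) (E : Finset (Fin k × Fin k)), E.card ≤ m → (m : ℝ) * (2 * ζ) ≤ 1 →
    SC D σ K E ≤ (1 + m * (2 * ζ)) *
      ((Fintype.card α : ℝ) ^ k * (Fintype.card α : ℝ) ^ k) := by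
  set Z : ℝ := (Fintype.card α : ℝ) ^ k * (Fintype.card α : ℝ) ^ k with hZ
  have hZ0 : 0 < Z := by
    have : (0 : ℝ) < Fintype.card α := by exact_mod_cast Fintype.card_pos
    positivity
  have hempty : SC D σ K ∅ = Z := by
    unfold SC
    have : ∀ X Y : Fin k → α, ind (Cap D σ ∅ X Y) = 1 := by
      intro X Y
      apply ind_true
      refine ⟨fun i => ?_, fun j => ?_⟩
      · simp [rowc]
      · simp [colc]
    simp [this, hZ]
  intro m
  induction m with
  | zero =>
    intro E hE _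
    have : E = ∅ := Finset.card_eq_zero.1 (by omega)
    rw [this, hempty]
    simp
  | succ m ih =>
    intro E hE hm
    have hm' : (m : ℝ) * (2 * ζ) ≤ 1 := by
      push_cast at hm
      nlinarith
    rcases E.eq_empty_or_nonempty with h0 | ⟨e, he'⟩
    · rw [h0, hempty]
      refine le_mul_of_one_le_left hZ0.le ?_
      have : 0 ≤ ((m + 1 : ℕ) : ℝ) * (2 * ζ) := by positivity
      linarith
    · have h1 := SC_step D σ K hK L hL hKL hK1 p C hp hC hB E e he'
      have hc1 : (E.erase e).card ≤ m := by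
        rw [Finset.card_erase_of_mem he']
        omega
      have hc2 : ((E.erase e).filter fun e' => e'.1 ≠ e.1 ∧ e'.2 ≠ e.2).card ≤ m :=
        (Finset.card_filter_le _ _).trans hc1
      have h2 := ih _ hc1 hm'
      have h3 := ih _ hc2 hm'
      have h4 : SC D σ K ((E.erase e).filter fun e' => e'.1 ≠ e.1 ∧ e'.2 ≠ e.2) ≤ 2 * Z := by
        refine h3.trans (mul_le_mul_of_nonneg_right (by linarith) hZ0.le)
      have h5 : C ^ (1 / (1 - 1 / p)) * (L ^ D * L ^ D) *
          SC D σ K ((E.erase e).filter fun e' => e'.1 ≠ e.1 ∧ e'.2 ≠ e.2) ≤ ζ * (2 * Z) :=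
        mul_le_mul hζ h4 (SC_nonneg D σ K hK _) hζ0
      calc SC D σ K E ≤ _ := h1
        _ ≤ (1 + m * (2 * ζ)) * Z + ζ * (2 * Z) := add_le_add h2 h5
        _ = (1 + ((m + 1 : ℕ) : ℝ) * (2 * ζ)) * Z := by
            push_cast
            ring

end Pool.Agent.T2h38.JM
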