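import Mathlib
import Pool.Agent.T2h38.JM.Tens

/-! Adaptive query algorithms reading two memories, and the weight kernel. -/

namespace Pool.Agent.T2h38.JM

open Finset

/-- Adaptive query algorithms. `A` is the set of addresses, a cell holds an element of `Fin W`.
`out c` stops with the answer `c`; `read s a k` reads the cell with address `a` of the first memory
(`s = false`) or of the second one (`s = true`) and goes on with `k v`, where `v` is the content. -/
inductive Alg (A : Type) (W : ℕ) : Type
  | out : Bool → Alg A W
  | read : Bool → A → (Fin W → Alg A W) → Alg A W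

/-- The answer of the algorithm on the two memories `u` and `v`. -/
def Alg.eval {A : Type} {W : ℕ} : Alg A W → (A → Fin W) → (A → Fin W) → Bool
  | .out c, _, _ => c
  | .read s a k, u, v => (k (if s then v a else u a)).eval u v

/-- The number of cells read by the algorithm on the two memories `u` and `v`. -/
def Alg.cost {A : Type} {W : ℕ} : Alg A W → (A → Fin W) → (A → Fin W) → ℕ
  | .out _, _, _ => 0
  | .read s a k, u, v => (k (if s then v a else u a)).cost u v + 1

/-- The weight of a pair of inputs: `L` if the answer is right, fast, and the sets are disjoint,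
`1` if it is right, fast and they are not, and `θ` otherwise. Here `d` says 'disjoint', and the
right answer is `true` on intersecting pairs. -/
noncomputable def wt {α A : Type} {W : ℕ} (L θ : ℝ) (d : α → α → Bool) (a b : α → A → Fin W)
    (T : ℕ) (t : Alg A W) (x y : α) : ℝ :=
  if t.cost (a x) (b y) ≤ T ∧ t.eval (a x) (b y) = !(d x y) then (if d x y then L else 1) else θ

theorem nrm_fiber {α : Type} [Fintype α] {W : ℕ} (p : ℝ) (hp : 1 ≤ p) (f : α → ℝ)
    (hf : ∀ x, 0 ≤ f x) (c : α → Fin W) :
    ∑ v : Fin W, nrm p (fun x => if c x = v then f x else 0) ≤ (W : ℝ) ^ (1 - 1 / p) * nrm p f := by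
  have hp0 : 0 < p := by linarith
  have hnn : ∀ v : Fin W, ∀ x, 0 ≤ (if c x = v then f x else 0) := by
    intro v x
    split_ifs
    · exact hf x
    · exact le_rfl
  have h1 := sum_le_nrm p hp (fun v : Fin W => nrm p (fun x => if c x = v then f x else 0))
    (fun v => nrm_nonneg p _ (hnn v))
  rw [Fintype.card_fin] at h1
  have h2 : nrm p (fun v : Fin W => nrm p (fun x => if c x = v then f x else 0)) = nrm p f := by
    have h3 : ∀ v : Fin W, nrm p (fun x => if c x = v then f x else 0) ^ p =
        ∑ x, if c x = v then f x ^ p else 0 := by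
      intro v
      rw [nrm_rpow p hp _ (hnn v)]
      refine Finset.sum_congr rfl fun x _ => ?_
      split_ifs
      · rfl
      · exact Real.zero_rpow hp0.ne'
    have h4 : nrm p (fun v : Fin W => nrm p (fun x => if c x = v then f x else 0)) =
      (∑ v : Fin W, nrm p (fun x => if c x = v then f x else 0) ^ p) ^ (1 / p) := rfl
    rw [h4]
    simp_rw [h3]
    rw [Finset.sum_comm]
    have h5 : ∀ x, ∑ v : Fin W, (if c x = v then f x ^ p else 0) = f x ^ p := by
      intro x
      simp
    simp_rw [h5]
    rfl
  rw [h2] at h1
  exact h1

theorem Bd.const {α : Type} [Fintype α] {p κ : ℝ} (h1 : Bd p κ (fun _ _ : α => (1 : ℝ)))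
    {K : α → α → ℝ} (hK : ∀ x y, K x y ≤ 1) : Bd p κ K := h1.mono_ker hK

theorem wt_bd {α A : Type} [Fintype α] {W : ℕ} (p : ℝ) (hp : 1 ≤ p) (κ ρ L θ : ℝ)
    (hθ0 : 0 ≤ θ) (hθ1 : θ ≤ 1) (hL1 : 1 ≤ L) (hL : θ + (L - θ) * ρ ≤ 1) (hκ : 0 ≤ κ)
    (d : α → α → Bool) (h1 : Bd p κ (fun _ _ : α => (1 : ℝ)))
    (hd : Bd p (ρ * κ) (fun x y : α => if d x y then (1 : ℝ) else 0))
    (hW : 1 ≤ W) (a b : α → A → Fin W) (t : Alg A W) :
    ∀ T : ℕ, Bd p (((W : ℝ) ^ (1 - 1 / p)) ^ T * κ) (wt L θ d a b T t) := by
  have hW1 : (1 : ℝ) ≤ W := by exact_mod_cast hW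
  have he : 0 ≤ 1 - 1 / p := by
    have : 1 / p ≤ 1 := by
      rw [div_le_one (by linarith)]
      exact hp
    linarith
  have hw : 1 ≤ (W : ℝ) ^ (1 - 1 / p) := Real.one_le_rpow hW1 he
  have hup : ∀ T : ℕ, κ ≤ ((W : ℝ) ^ (1 - 1 / p)) ^ T * κ := fun T =>
    le_mul_of_one_le_left hκ (one_le_pow₀ hw)
  induction t with
  | out c =>
    intro T
    refine Bd.mono ?_ (hup T)
    cases c with
    | true =>
      refine h1.const fun x y => ?_
      unfold wt
      simp only [Alg.cost, Alg.eval]
      cases hdx : d x y
      · simp
      · simp [hθ1]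
    | false =>
      have h2 := (h1.smul θ hθ0).add (hd.smul (L - θ) (by linarith))
      refine (h2.mono ?_).mono_ker ?_
      · calc θ * κ + (L - θ) * (ρ * κ) = (θ + (L - θ) * ρ) * κ := by ring
          _ ≤ 1 * κ := mul_le_mul_of_nonneg_right hL hκ
          _ = κ := one_mul κ
      · intro x y
        unfold wt
        simp only [Alg.cost, Alg.eval]
        cases hdx : d x y
        · simp
        · simp
  | read s ad k ih =>
    intro T
    cases T with
    | zero =>
      refine Bd.mono ?_ (hup 0)
      refine h1.const fun x y => ?_
      unfold wt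
      rw [if_neg]
      · exact hθ1
      · rintro ⟨h, _⟩
        simp only [Alg.cost] at h
        omega
    | succ T =>
      intro f g hf hg
      have hwt : ∀ x y, wt L θ d a b (T + 1) (Alg.read s ad k) x y =
          wt L θ d a b T (k (if s then b y ad else a x ad)) x y := by
        intro x y
        unfold wt
        simp only [Alg.cost, Alg.eval, Nat.add_le_add_iff_right]
      simp_rw [hwt]
      have hC0 : 0 ≤ ((W : ℝ) ^ (1 - 1 / p)) ^ T * κ := by positivity
      cases s with
      | false =>
        simp only [Bool.false_eq_true, if_false]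
        have hfn : ∀ v : Fin W, ∀ x, 0 ≤ (if a x ad = v then f x else 0) := by
          intro v x
          split_ifs
          · exact hf x
          · exact le_rfl
        calc ∑ x, ∑ y, wt L θ d a b T (k (a x ad)) x y * f x * g y
            = ∑ v : Fin W, ∑ x, ∑ y, wt L θ d a b T (k v) x y *
                (if a x ad = v then f x else 0) * g y := by
              symm
              rw [Finset.sum_comm]
              refine Finset.sum_congr rfl fun x _ => ?_
              rw [Finset.sum_comm]
              refine Finset.sum_congr rfl fun y _ => ?_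
              rw [Finset.sum_eq_single (a x ad)]
              · simp
              · intro v _ hv
                rw [if_neg (Ne.symm hv)]
                simp
              · intro h
                exact absurd (Finset.mem_univ _) h
          _ ≤ ∑ v : Fin W, ((W : ℝ) ^ (1 - 1 / p)) ^ T * κ *
                nrm p (fun x => if a x ad = v then f x else 0) * nrm p g :=
              Finset.sum_le_sum fun v _ => ih v T _ g (hfn v) hg
          _ = ((W : ℝ) ^ (1 - 1 / p)) ^ T * κ *
                (∑ v : Fin W, nrm p (fun x => if a x ad = v then f x else 0)) * nrm p g := by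
              rw [Finset.mul_sum, Finset.sum_mul]
          _ ≤ ((W : ℝ) ^ (1 - 1 / p)) ^ T * κ * ((W : ℝ) ^ (1 - 1 / p) * nrm p f) * nrm p g := by
              refine mul_le_mul_of_nonneg_right ?_ (nrm_nonneg p g hg)
              exact mul_le_mul_of_nonneg_left (nrm_fiber p hp f hf _) hC0
          _ = ((W : ℝ) ^ (1 - 1 / p)) ^ (T + 1) * κ * nrm p f * nrm p g := by
              rw [pow_succ]
              ring
      | true =>
        simp only [if_true]
        have hgn : ∀ v : Fin W, ∀ y, 0 ≤ (if b y ad = v then g y else 0) := by
          intro v x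
          split_ifs
          · exact hg x
          · exact le_rfl
        calc ∑ x, ∑ y, wt L θ d a b T (k (b y ad)) x y * f x * g y
            = ∑ v : Fin W, ∑ x, ∑ y, wt L θ d a b T (k v) x y * f x *
                (if b y ad = v then g y else 0) := by
              symm
              rw [Finset.sum_comm]
              refine Finset.sum_congr rfl fun x _ => ?_
              rw [Finset.sum_comm]
              refine Finset.sum_congr rfl fun y _ => ?_
              rw [Finset.sum_eq_single (b y ad)]
              · simp
              · intro v _ hv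
                rw [if_neg (Ne.symm hv)]
                simp
              · intro h
                exact absurd (Finset.mem_univ _) h
          _ ≤ ∑ v : Fin W, ((W : ℝ) ^ (1 - 1 / p)) ^ T * κ * nrm p f *
                nrm p (fun y => if b y ad = v then g y else 0) :=
              Finset.sum_le_sum fun v _ => ih v T f _ hf (hgn v)
          _ = ((W : ℝ) ^ (1 - 1 / p)) ^ T * κ * nrm p f *
                (∑ v : Fin W, nrm p (fun y => if b y ad = v then g y else 0)) := by
              rw [Finset.mul_sum]
          _ ≤ ((W : ℝ) ^ (1 - 1 / p)) ^ T * κ * nrm p f * ((W : ℝ) ^ (1 - 1 / p) * nrm p g) := by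
              refine mul_le_mul_of_nonneg_left (nrm_fiber p hp g hg _) ?_
              exact mul_nonneg hC0 (nrm_nonneg p f hf)
          _ = ((W : ℝ) ^ (1 - 1 / p)) ^ (T + 1) * κ * nrm p f * nrm p g := by
              rw [pow_succ]
              ring

end Pool.Agent.T2h38.JM
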