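import Mathlib
import Pool.Agent.T2h38.JM.Prot

/-! Many query algorithms at once. -/

namespace Pool.Agent.T2h38.JM

open Finset

/-- The outcome of an algorithm with at most `T` reads: `none` if it reads more. -/
def Alg.outcome {A : Type} {W : ℕ} (t : Alg A W) (T : ℕ) (u v : A → Fin W) : Option Bool :=
  if t.cost u v ≤ T then some (t.eval u v) else none

theorem outcome_read_zero {A : Type} {W : ℕ} (s : Bool) (a : A) (k : Fin W → Alg A W)
    (u v : A → Fin W) : (Alg.read s a k).outcome 0 u v = none := by
  unfold Alg.outcome
  rw [if_neg]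
  intro h
  simp only [Alg.cost] at h
  omega

theorem outcome_read_succ {A : Type} {W : ℕ} (s : Bool) (a : A) (k : Fin W → Alg A W) (T : ℕ)
    (u v : A → Fin W) :
    (Alg.read s a k).outcome (T + 1) u v = (k (if s then v a else u a)).outcome T u v := by
  unfold Alg.outcome
  simp only [Alg.cost, Alg.eval, Nat.add_le_add_iff_right]

/-- Composition of a kernel that depends on the outcome of an algorithm. -/
theorem one_tree {α β A : Type} [Fintype α] [Fintype β] {W : ℕ} (p : ℝ) (hp : 1 ≤ p) (C : ℝ)
    (hC : 0 ≤ C) (hW : 1 ≤ W) (a : α → A → Fin W) (b : β → A → Fin W)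
    (K : Option Bool → α → β → ℝ) (hK : ∀ o, Bd p C (K o)) (t : Alg A W) :
    ∀ T : ℕ, Bd p (((W : ℝ) ^ (1 - 1 / p)) ^ T * C)
      (fun x y => K (t.outcome T (a x) (b y)) x y) := by
  have hW1 : (1 : ℝ) ≤ W := by exact_mod_cast hW
  have he : 0 ≤ 1 - 1 / p := by
    have : 1 / p ≤ 1 := by
      rw [div_le_one (by linarith)]
      exact hp
    linarith
  have hw : 1 ≤ (W : ℝ) ^ (1 - 1 / p) := Real.one_le_rpow hW1 he
  have hup : ∀ T : ℕ, C ≤ ((W : ℝ) ^ (1 - 1 / p)) ^ T * C := fun T =>
    le_mul_of_one_le_left hC (one_le_pow₀ hw)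
  induction t with
  | out c =>
    intro T
    refine Bd.mono ?_ (hup T)
    have h : (fun (x : α) (y : β) => K ((Alg.out c : Alg A W).outcome T (a x) (b y)) x y) =
        K (some c) := by
      funext x y
      unfold Alg.outcome
      simp [Alg.cost, Alg.eval]
    rw [h]
    exact hK _
  | read s ad k ih =>
    intro T
    cases T with
    | zero =>
      refine Bd.mono ?_ (hup 0)
      simp_rw [outcome_read_zero]
      exact hK _
    | succ T =>
      simp_rw [outcome_read_succ]
      intro f g hf hg
      have hC0 : 0 ≤ ((W : ℝ) ^ (1 - 1 / p)) ^ T * C := by positivity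
      cases s with
      | false =>
        simp only [Bool.false_eq_true, if_false]
        have hfn : ∀ v : Fin W, ∀ x, 0 ≤ (if a x ad = v then f x else 0) := by
          intro v x
          split_ifs
          · exact hf x
          · exact le_rfl
        calc ∑ x, ∑ y, K ((k (a x ad)).outcome T (a x) (b y)) x y * f x * g y
            = ∑ v : Fin W, ∑ x, ∑ y, K ((k v).outcome T (a x) (b y)) x y *
                (if a x ad = v then f x else 0) * g y := by
              symm
              rw [Finset.sum_comm]
              refine Finset.sum_congr rfl fun x _ => ?_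
              rw [Finset.sum_comm]
              refine Finset.sum_congr rfl fun y _ => ?_
              rw [Finset.sum_eq_single (a x ad)]
              · simp
              · intro v _ hv
                rw [if_neg (Ne.symm hv)]
                simp
              · intro h
                exact absurd (Finset.mem_univ _) h
          _ ≤ ∑ v : Fin W, ((W : ℝ) ^ (1 - 1 / p)) ^ T * C *
                nrm p (fun x => if a x ad = v then f x else 0) * nrm p g :=
              Finset.sum_le_sum fun v _ => ih v T _ g (hfn v) hg
          _ = ((W : ℝ) ^ (1 - 1 / p)) ^ T * C *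
                (∑ v : Fin W, nrm p (fun x => if a x ad = v then f x else 0)) * nrm p g := by
              rw [Finset.mul_sum, Finset.sum_mul]
          _ ≤ ((W : ℝ) ^ (1 - 1 / p)) ^ T * C * ((W : ℝ) ^ (1 - 1 / p) * nrm p f) * nrm p g := by
              refine mul_le_mul_of_nonneg_right ?_ (nrm_nonneg p g hg)
              exact mul_le_mul_of_nonneg_left (nrm_fiber p hp f hf _) hC0
          _ = ((W : ℝ) ^ (1 - 1 / p)) ^ (T + 1) * C * nrm p f * nrm p g := by
              rw [pow_succ]
              ring
      | true =>
        simp only [if_true]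
        have hgn : ∀ v : Fin W, ∀ y, 0 ≤ (if b y ad = v then g y else 0) := by
          intro v x
          split_ifs
          · exact hg x
          · exact le_rfl
        calc ∑ x, ∑ y, K ((k (b y ad)).outcome T (a x) (b y)) x y * f x * g y
            = ∑ v : Fin W, ∑ x, ∑ y, K ((k v).outcome T (a x) (b y)) x y * f x *
                (if b y ad = v then g y else 0) := by
              symm
              rw [Finset.sum_comm]
              refine Finset.sum_congr rfl fun x _ => ?_
              rw [Finset.sum_comm]
              refine Finset.sum_congr rfl fun y _ => ?_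
              rw [Finset.sum_eq_single (b y ad)]
              · simp
              · intro v _ hv
                rw [if_neg (Ne.symm hv)]
                simp
              · intro h
                exact absurd (Finset.mem_univ _) h
          _ ≤ ∑ v : Fin W, ((W : ℝ) ^ (1 - 1 / p)) ^ T * C * nrm p f *
                nrm p (fun y => if b y ad = v then g y else 0) :=
              Finset.sum_le_sum fun v _ => ih v T f _ hf (hgn v)
          _ = ((W : ℝ) ^ (1 - 1 / p)) ^ T * C * nrm p f *
                (∑ v : Fin W, nrm p (fun y => if b y ad = v then g y else 0)) := by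
              rw [Finset.mul_sum]
          _ ≤ ((W : ℝ) ^ (1 - 1 / p)) ^ T * C * nrm p f * ((W : ℝ) ^ (1 - 1 / p) * nrm p g) := by
              refine mul_le_mul_of_nonneg_left (nrm_fiber p hp g hg _) ?_
              exact mul_nonneg hC0 (nrm_nonneg p f hf)
          _ = ((W : ℝ) ^ (1 - 1 / p)) ^ (T + 1) * C * nrm p f * nrm p g := by
              rw [pow_succ]
              ring

/-- Many algorithms. -/
theorem multi_tree {α β A : Type} [Fintype α] [Fintype β] {W : ℕ} (p : ℝ) (hp : 1 ≤ p) (C : ℝ)
    (hC : 0 ≤ C) (hW : 1 ≤ W) (a : α → A → Fin W) (b : β → A → Fin W) (T d : ℕ) :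
    ∀ (t : Fin d → Alg A W) (K : (Fin d → Option Bool) → α → β → ℝ), (∀ o, Bd p C (K o)) →
    Bd p ((((W : ℝ) ^ (1 - 1 / p)) ^ T) ^ d * C)
      (fun x y => K (fun c => (t c).outcome T (a x) (b y)) x y) := by
  induction d with
  | zero =>
    intro t K hK
    have h : (fun (x : α) (y : β) => K (fun c => (t c).outcome T (a x) (b y)) x y) =
        K (fun c => c.elim0) := by
      funext x y
      congr 1
      funext c
      exact c.elim0
    rw [h, pow_zero, one_mul]
    exact hK _
  | succ d ih =>
    intro t K hK
    have h1 : ∀ o : Option Bool, Bd p ((((W : ℝ) ^ (1 - 1 / p)) ^ T) ^ d * C)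
        (fun x y => K (Fin.cons o (fun c : Fin d => (t c.succ).outcome T (a x) (b y))) x y) := by
      intro o
      exact ih (fun c => t c.succ) (fun v => K (Fin.cons o v)) (fun v => hK _)
    have h2 := one_tree p hp ((((W : ℝ) ^ (1 - 1 / p)) ^ T) ^ d * C) (by positivity) hW a b
      (fun o x y => K (Fin.cons o (fun c : Fin d => (t c.succ).outcome T (a x) (b y))) x y) h1
      (t 0) T
    have h3 : (fun (x : α) (y : β) => K (fun c => (t c).outcome T (a x) (b y)) x y) =
        (fun x y => K (Fin.cons ((t 0).outcome T (a x) (b y))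
          (fun c : Fin d => (t c.succ).outcome T (a x) (b y))) x y) := by
      funext x y
      congr 1
      funext c
      refine Fin.cases ?_ (fun c => ?_) c
      · rw [Fin.cons_zero]
      · rw [Fin.cons_succ]
    rw [h3]
    refine h2.mono (le_of_eq ?_)
    rw [pow_succ]
    ring

/-- Products of different kernels. -/
theorem Bd.pi {β : Type} [Fintype β] {p C : ℝ} (hp : 1 ≤ p) (hC : 0 ≤ C) (d : ℕ) :
    ∀ (K : Fin d → β → β → ℝ), (∀ i x y, 0 ≤ K i x y) → (∀ i, Bd p C (K i)) →
    Bd p (C ^ d) (fun (X Y : Fin d → β) => ∏ i, K i (X i) (Y i)) := by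
  have hp0 : 0 < p := by linarith
  induction d with
  | zero =>
    intro K hK h f g hf hg
    have hnf : nrm p f = f default := by
      unfold nrm
      rw [Fintype.sum_unique, ← Real.rpow_mul (hf _), mul_one_div_cancel hp0.ne', Real.rpow_one]
    have hng : nrm p g = g default := by
      unfold nrm
      rw [Fintype.sum_unique, ← Real.rpow_mul (hg _), mul_one_div_cancel hp0.ne', Real.rpow_one]
    rw [hnf, hng, Fintype.sum_unique, Fintype.sum_unique]
    simp
  | succ d ih =>
    intro K hK h
    have ih' := ih (fun i => K i.succ) (fun i => hK _) (fun i => h _)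
    have h1 := (Bd.prod hp hC (fun x y => Finset.prod_nonneg fun i _ => hK _ _ _) (h 0)
      ih').congr (Fin.consEquiv (fun _ : Fin (d + 1) => β)).symm
      (Fin.consEquiv (fun _ : Fin (d + 1) => β)).symm
    rw [← pow_succ'] at h1
    intro f g hf hg
    refine le_trans (le_of_eq ?_) (h1 f g hf hg)
    refine Finset.sum_congr rfl fun X _ => Finset.sum_congr rfl fun Y _ => ?_
    show (∏ i, K i (X i) (Y i)) * f X * g Y = _
    rw [Fin.prod_univ_succ]
    rfl

/-- The weight for one coordinate, given the outcome. -/
noncomputable def kk {α : Type} (L θ : ℝ) (d : α → α → Bool) (o : Option Bool) (x y : α) : ℝ :=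
  if o = some (!(d x y)) then (if d x y then L else 1) else θ

theorem outcome_iff {A : Type} {W : ℕ} (t : Alg A W) (T : ℕ) (u v : A → Fin W) (c : Bool) :
    t.outcome T u v = some c ↔ (t.cost u v ≤ T ∧ t.eval u v = c) := by
  unfold Alg.outcome
  split_ifs with h
  · constructor
    · intro h1
      exact ⟨h, Option.some_injective _ h1⟩
    · rintro ⟨_, h1⟩
      rw [h1]
  · constructor
    · intro h1
      exact absurd h1 (by simp)
    · rintro ⟨h1, _⟩
      exact absurd h1 h

theorem kk_bd {α : Type} [Fintype α] (p : ℝ) (κ ρ L θ : ℝ)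
    (hθ0 : 0 ≤ θ) (hθ1 : θ ≤ 1) (hL1 : 1 ≤ L) (hL : θ + (L - θ) * ρ ≤ 1) (hκ : 0 ≤ κ)
    (d : α → α → Bool) (h1 : Bd p κ (fun _ _ : α => (1 : ℝ)))
    (hd : Bd p (ρ * κ) (fun x y : α => if d x y then (1 : ℝ) else 0)) (o : Option Bool) :
    Bd p κ (kk L θ d o) := by
  cases o with
  | none =>
    refine h1.const fun x y => ?_
    simp [kk, hθ1]
  | some c =>
    cases c with
    | true =>
      refine h1.const fun x y => ?_
      unfold kk
      cases hdx : d x y
      · simp
      · simp [hθ1]
    | false =>
      have h2 := (h1.smul θ hθ0).add (hd.smul (L - θ) (by linarith))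
      refine (h2.mono ?_).mono_ker ?_
      · calc θ * κ + (L - θ) * (ρ * κ) = (θ + (L - θ) * ρ) * κ := by ring
          _ ≤ 1 * κ := mul_le_mul_of_nonneg_right hL hκ
          _ = κ := one_mul κ
      · intro x y
        unfold kk
        cases hdx : d x y
        · simp
        · simp

end Pool.Agent.T2h38.JM
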