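import Mathlib
import Pool.Agent.T2h38.JM.Cap
import Pool.Agent.T2h38.JM.Multi

/-! Adaptive query algorithms with probes to a joint memory. -/

namespace Pool.Agent.T2h38.JM

open Finset

/-- Adaptive query algorithms. `out c` stops with the answer `c`; `read s a k` reads the cell with
address `a` of the separate memory of the first set (`s = false`) or of the second set
(`s = true`) and goes on with `k v`, where `v` is the content; `probe c k` reads the cell `c` of
the joint memory and goes on with `k v`, where `v` is the content. -/
inductive QAlg (A : Type) (S V W : ℕ) : Type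
  | out : Bool → QAlg A S V W
  | read : Bool → A → (Fin W → QAlg A S V W) → QAlg A S V W
  | probe : Fin S → (Fin V → QAlg A S V W) → QAlg A S V W

variable {A : Type} {S V W : ℕ}

/-- The answer, for the joint memory `J` and the separate memories `u` and `v`. -/
def QAlg.eval (J : Fin S → Fin V) (u v : A → Fin W) : QAlg A S V W → Bool
  | .out c => c
  | .read s a k => (k (if s then v a else u a)).eval J u v
  | .probe c k => (k (J c)).eval J u v

/-- The number of cells of the separate memories that are read. -/
def QAlg.reads (J : Fin S → Fin V) (u v : A → Fin W) : QAlg A S V W → ℕ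
  | .out _ => 0
  | .read s a k => (k (if s then v a else u a)).reads J u v + 1
  | .probe c k => (k (J c)).reads J u v

/-- The number of cells of the joint memory that are read. -/
def QAlg.probes (J : Fin S → Fin V) (u v : A → Fin W) : QAlg A S V W → ℕ
  | .out _ => 0
  | .read s a k => (k (if s then v a else u a)).probes J u v
  | .probe c k => (k (J c)).probes J u v + 1

/-- The run with at most `T` reads and at most `t` probes: the answer (or `none`) and the set of
the joint cells that were read. -/
def QAlg.run (J : Fin S → Fin V) (u v : A → Fin W) :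
    QAlg A S V W → ℕ → ℕ → Finset (Fin S) → Option Bool × Finset (Fin S)
  | .out c, _, _, acc => (some c, acc)
  | .read s a k, T, t, acc =>
    if T = 0 then (none, acc) else (k (if s then v a else u a)).run J u v (T - 1) t acc
  | .probe c k, T, t, acc =>
    if t = 0 then (none, acc) else (k (J c)).run J u v T (t - 1) (insert c acc)

theorem run_iff (J : Fin S → Fin V) (u v : A → Fin W) (q : QAlg A S V W) (c : Bool) :
    ∀ (T t : ℕ) (acc : Finset (Fin S)), (q.run J u v T t acc).1 = some c ↔
      (q.reads J u v ≤ T ∧ q.probes J u v ≤ t ∧ q.eval J u v = c) := by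
  induction q with
  | out b =>
    intro T t acc
    simp [QAlg.run, QAlg.reads, QAlg.probes, QAlg.eval]
  | read s a k ih =>
    intro T t acc
    simp only [QAlg.run, QAlg.reads, QAlg.probes, QAlg.eval]
    by_cases hT : T = 0
    · rw [if_pos hT]
      constructor
      · intro h
        exact absurd h (by simp)
      · rintro ⟨h, _⟩
        omega
    · rw [if_neg hT, ih]
      constructor
      · rintro ⟨h1, h2, h3⟩
        exact ⟨by omega, h2, h3⟩
      · rintro ⟨h1, h2, h3⟩
        exact ⟨by omega, h2, h3⟩
  | probe a k ih =>
    intro T t acc
    simp only [QAlg.run, QAlg.reads, QAlg.probes, QAlg.eval]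
    by_cases hT : t = 0
    · rw [if_pos hT]
      constructor
      · intro h
        exact absurd h (by simp)
      · rintro ⟨_, h, _⟩
        omega
    · rw [if_neg hT, ih]
      constructor
      · rintro ⟨h1, h2, h3⟩
        exact ⟨h1, by omega, h3⟩
      · rintro ⟨h1, h2, h3⟩
        exact ⟨h1, by omega, h3⟩

theorem run_mono (J : Fin S → Fin V) (u v : A → Fin W) (q : QAlg A S V W) :
    ∀ (T t : ℕ) (acc : Finset (Fin S)), acc ⊆ (q.run J u v T t acc).2 := by
  induction q with
  | out b =>
    intro T t acc
    simp [QAlg.run]
  | read s a k ih =>
    intro T t acc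
    simp only [QAlg.run]
    by_cases hT : T = 0
    · rw [if_pos hT]
    · rw [if_neg hT]
      exact ih _ _ _ _
  | probe a k ih =>
    intro T t acc
    simp only [QAlg.run]
    by_cases hT : t = 0
    · rw [if_pos hT]
    · rw [if_neg hT]
      exact (Finset.subset_insert _ _).trans (ih _ _ _ _)

theorem run_card (J : Fin S → Fin V) (u v : A → Fin W) (q : QAlg A S V W) :
    ∀ (T t : ℕ) (acc : Finset (Fin S)), (q.run J u v T t acc).2.card ≤ acc.card + t := by
  induction q with
  | out b =>
    intro T t acc
    simp [QAlg.run]
  | read s a k ih =>
    intro T t acc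
    simp only [QAlg.run]
    by_cases hT : T = 0
    · rw [if_pos hT]
      exact Nat.le_add_right _ _
    · rw [if_neg hT]
      exact ih _ _ _ _
  | probe a k ih =>
    intro T t acc
    simp only [QAlg.run]
    by_cases hT : t = 0
    · rw [if_pos hT]
      exact Nat.le_add_right _ _
    · rw [if_neg hT]
      refine (ih _ _ _ _).trans ?_
      have := Finset.card_insert_le a acc
      omega

/-- Two joint memories which agree on `C`: the runs agree, or both leave `C`. -/
theorem run_agree (J J' : Fin S → Fin V) (C : Finset (Fin S)) (hJ : ∀ c ∈ C, J c = J' c)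
    (u v : A → Fin W) (q : QAlg A S V W) :
    ∀ (T t : ℕ) (acc : Finset (Fin S)), q.run J u v T t acc = q.run J' u v T t acc ∨
      ∃ c, c ∉ C ∧ c ∈ (q.run J u v T t acc).2 ∧ c ∈ (q.run J' u v T t acc).2 := by
  induction q with
  | out b =>
    intro T t acc
    left
    simp [QAlg.run]
  | read s a k ih =>
    intro T t acc
    simp only [QAlg.run]
    by_cases hT : T = 0
    · rw [if_pos hT, if_pos hT]
      exact Or.inl rfl
    · rw [if_neg hT, if_neg hT]
      exact ih _ _ _ _
  | probe a k ih =>
    intro T t acc
    simp only [QAlg.run]
    by_cases hT : t = 0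
    · rw [if_pos hT, if_pos hT]
      exact Or.inl rfl
    · rw [if_neg hT, if_neg hT]
      by_cases ha : a ∈ C
      · rw [hJ a ha]
        exact ih _ _ _ _
      · right
        exact ⟨a, ha, run_mono _ _ _ _ _ _ _ (Finset.mem_insert_self _ _),
          run_mono _ _ _ _ _ _ _ (Finset.mem_insert_self _ _)⟩

theorem leaf_bdS {α : Type} [Fintype α] (p C : ℝ) (hp : 1 ≤ p) (hC : 0 ≤ C) (b : Bool)
    (K : α → α → ℝ) (hK : Bd p C K) : BdS p C (fun _ _ : α => b) K := by
  have hp0 : 0 < p := by linarith
  intro f g hf hg
  cases b with
  | true =>
    simp only [if_true]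
    refine (hK f g hf hg).trans (le_of_eq ?_)
    unfold nrm
    rw [mul_assoc, ← Real.mul_rpow (Finset.sum_nonneg fun x _ => Real.rpow_nonneg (hf x) _)
      (Finset.sum_nonneg fun x _ => Real.rpow_nonneg (hg x) _), Finset.sum_mul_sum]
  | false =>
    simp only [Bool.false_eq_true, if_false, Finset.sum_const_zero]
    positivity

theorem BdS.mono {α : Type} [Fintype α] {p C C' : ℝ} {σ : α → α → Bool} {K : α → α → ℝ}
    (h : BdS p C σ K) (hC : C ≤ C') : BdS p C' σ K := by
  intro f g hf hg
  refine (h f g hf hg).trans (mul_le_mul_of_nonneg_right hC (Real.rpow_nonneg ?_ _))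
  refine Finset.sum_nonneg fun x _ => Finset.sum_nonneg fun y _ => ?_
  split_ifs
  · exact mul_nonneg (Real.rpow_nonneg (hf x) _) (Real.rpow_nonneg (hg y) _)
  · exact le_rfl

/-- The norm bound for a query algorithm. -/
theorem tree_bdS {α : Type} [Fintype α] (p : ℝ) (hp : 1 ≤ p) (C : ℝ) (hC : 0 ≤ C) (hW : 1 ≤ W)
    (J : Fin S → Fin V) (a b : α → A → Fin W) (P : Finset (Fin S) → Bool)
    (K : Option Bool → α → α → ℝ) (hK : ∀ o, Bd p C (K o)) (q : QAlg A S V W) :
    ∀ (T t : ℕ) (acc : Finset (Fin S)), BdS p (((W : ℝ) ^ (1 - 1 / p)) ^ T * C)
      (fun x y => P (q.run J (a x) (b y) T t acc).2)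
      (fun x y => K (q.run J (a x) (b y) T t acc).1 x y) := by
  have hp0 : 0 < p := by linarith
  have hW1 : (1 : ℝ) ≤ W := by exact_mod_cast hW
  have he : 0 ≤ 1 - 1 / p := by
    have : 1 / p ≤ 1 := by
      rw [div_le_one (by linarith)]
      exact hp
    linarith
  have hw : 1 ≤ (W : ℝ) ^ (1 - 1 / p) := Real.one_le_rpow hW1 he
  have hup : ∀ T : ℕ, C ≤ ((W : ℝ) ^ (1 - 1 / p)) ^ T * C := fun T =>
    le_mul_of_one_le_left hC (one_le_pow₀ hw)
  induction q with
  | out c =>
    intro T t acc
    simp only [QAlg.run]
    exact (leaf_bdS p C hp hC _ _ (hK _)).mono (hup T)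
  | probe c k ih =>
    intro T t acc
    simp only [QAlg.run]
    by_cases ht : t = 0
    · simp only [ht, if_true]
      exact (leaf_bdS p C hp hC _ _ (hK _)).mono (hup T)
    · simp only [if_neg ht]
      exact ih (J c) T (t - 1) (insert c acc)
  | read s ad k ih =>
    intro T t acc
    simp only [QAlg.run]
    by_cases hT : T = 0
    · simp only [hT, if_true]
      exact (leaf_bdS p C hp hC _ _ (hK _)).mono (hup 0)
    · obtain ⟨T, rfl⟩ := Nat.exists_eq_succ_of_ne_zero hT
      simp only [if_neg hT, Nat.succ_eq_add_one, Nat.add_sub_cancel]
      intro f g hf hg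
      have hC0 : 0 ≤ ((W : ℝ) ^ (1 - 1 / p)) ^ T * C := by positivity
      -- the general step
      have key : ∀ (c : Fin W → ℝ) (_ : ∀ v, 0 ≤ c v),
          ∑ v : Fin W, (c v) ^ (1 / p) ≤ (W : ℝ) ^ (1 - 1 / p) * (∑ v, c v) ^ (1 / p) := by
        intro c hc
        have h1 := sum_le_nrm p hp (fun v : Fin W => (c v) ^ (1 / p))
          (fun v => Real.rpow_nonneg (hc v) _)
        rw [Fintype.card_fin] at h1
        have h2 : nrm p (fun v : Fin W => (c v) ^ (1 / p)) = (∑ v, c v) ^ (1 / p) := by
          unfold nrm
          congr 1
          refine Finset.sum_congr rfl fun v _ => ?_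
          rw [← Real.rpow_mul (hc v), one_div, inv_mul_cancel₀ hp0.ne', Real.rpow_one]
        rwa [h2] at h1
      cases s with
      | false =>
        simp only [Bool.false_eq_true, if_false]
        have hfn : ∀ v : Fin W, ∀ x, 0 ≤ (if a x ad = v then f x else 0) := by
          intro v x
          split_ifs
          · exact hf x
          · exact le_rfl
        calc ∑ x, ∑ y, (if P ((k (a x ad)).run J (a x) (b y) T t acc).2 = true then
                K ((k (a x ad)).run J (a x) (b y) T t acc).1 x y * f x * g y else 0)
            = ∑ v : Fin W, ∑ x, ∑ y, (if P ((k v).run J (a x) (b y) T t acc).2 = true then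
                K ((k v).run J (a x) (b y) T t acc).1 x y * (if a x ad = v then f x else 0) * g y
                else 0) := by
              symm
              rw [Finset.sum_comm]
              refine Finset.sum_congr rfl fun x _ => ?_
              rw [Finset.sum_comm]
              refine Finset.sum_congr rfl fun y _ => ?_
              rw [Finset.sum_eq_single (a x ad)]
              · simp
              · intro v _ hv
                rw [if_neg (Ne.symm hv)]
                simp
              · intro h
                exact absurd (Finset.mem_univ _) h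
          _ ≤ ∑ v : Fin W, ((W : ℝ) ^ (1 - 1 / p)) ^ T * C *
                (∑ x, ∑ y, (if P ((k v).run J (a x) (b y) T t acc).2 = true then
                  (if a x ad = v then f x else 0) ^ p * g y ^ p else 0)) ^ (1 / p) :=
              Finset.sum_le_sum fun v _ => ih v T t acc _ g (hfn v) hg
          _ = ((W : ℝ) ^ (1 - 1 / p)) ^ T * C *
                ∑ v : Fin W, (∑ x, ∑ y, (if P ((k v).run J (a x) (b y) T t acc).2 = true then
                  (if a x ad = v then f x else 0) ^ p * g y ^ p else 0)) ^ (1 / p) := by
              rw [Finset.mul_sum]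
          _ ≤ ((W : ℝ) ^ (1 - 1 / p)) ^ T * C * ((W : ℝ) ^ (1 - 1 / p) *
                (∑ v : Fin W, ∑ x, ∑ y, (if P ((k v).run J (a x) (b y) T t acc).2 = true then
                  (if a x ad = v then f x else 0) ^ p * g y ^ p else 0)) ^ (1 / p)) := by
              refine mul_le_mul_of_nonneg_left (key _ fun v => ?_) hC0
              refine Finset.sum_nonneg fun x _ => Finset.sum_nonneg fun y _ => ?_
              split_ifs
              · exact mul_nonneg (Real.rpow_nonneg (hf x) _) (Real.rpow_nonneg (hg y) _)
              · exact mul_nonneg (Real.rpow_nonneg le_rfl _) (Real.rpow_nonneg (hg y) _)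
              · exact le_rfl
          _ = ((W : ℝ) ^ (1 - 1 / p)) ^ (T + 1) * C *
                (∑ x, ∑ y, (if P ((k (a x ad)).run J (a x) (b y) T t acc).2 = true then
                  f x ^ p * g y ^ p else 0)) ^ (1 / p) := by
              have h1 : (∑ v : Fin W, ∑ x, ∑ y,
                  (if P ((k v).run J (a x) (b y) T t acc).2 = true then
                  (if a x ad = v then f x else 0) ^ p * g y ^ p else 0)) =
                  ∑ x, ∑ y, (if P ((k (a x ad)).run J (a x) (b y) T t acc).2 = true then
                  f x ^ p * g y ^ p else 0) := by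
                rw [Finset.sum_comm]
                refine Finset.sum_congr rfl fun x _ => ?_
                rw [Finset.sum_comm]
                refine Finset.sum_congr rfl fun y _ => ?_
                rw [Finset.sum_eq_single (a x ad)]
                · simp
                · intro v _ hv
                  rw [if_neg (Ne.symm hv), Real.zero_rpow hp0.ne']
                  simp
                · intro h
                  exact absurd (Finset.mem_univ _) h
              rw [h1, pow_succ]
              ring
      | true =>
        simp only [if_true]
        have hgn : ∀ v : Fin W, ∀ y, 0 ≤ (if b y ad = v then g y else 0) := by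
          intro v x
          split_ifs
          · exact hg x
          · exact le_rfl
        calc ∑ x, ∑ y, (if P ((k (b y ad)).run J (a x) (b y) T t acc).2 = true then
                K ((k (b y ad)).run J (a x) (b y) T t acc).1 x y * f x * g y else 0)
            = ∑ v : Fin W, ∑ x, ∑ y, (if P ((k v).run J (a x) (b y) T t acc).2 = true then
                K ((k v).run J (a x) (b y) T t acc).1 x y * f x * (if b y ad = v then g y else 0)
                else 0) := by
              symm
              rw [Finset.sum_comm]
              refine Finset.sum_congr rfl fun x _ => ?_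
              rw [Finset.sum_comm]
              refine Finset.sum_congr rfl fun y _ => ?_
              rw [Finset.sum_eq_single (b y ad)]
              · simp
              · intro v _ hv
                rw [if_neg (Ne.symm hv)]
                simp
              · intro h
                exact absurd (Finset.mem_univ _) h
          _ ≤ ∑ v : Fin W, ((W : ℝ) ^ (1 - 1 / p)) ^ T * C *
                (∑ x, ∑ y, (if P ((k v).run J (a x) (b y) T t acc).2 = true then
                  f x ^ p * (if b y ad = v then g y else 0) ^ p else 0)) ^ (1 / p) :=
              Finset.sum_le_sum fun v _ => ih v T t acc f _ hf (hgn v)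
          _ = ((W : ℝ) ^ (1 - 1 / p)) ^ T * C *
                ∑ v : Fin W, (∑ x, ∑ y, (if P ((k v).run J (a x) (b y) T t acc).2 = true then
                  f x ^ p * (if b y ad = v then g y else 0) ^ p else 0)) ^ (1 / p) := by
              rw [Finset.mul_sum]
          _ ≤ ((W : ℝ) ^ (1 - 1 / p)) ^ T * C * ((W : ℝ) ^ (1 - 1 / p) *
                (∑ v : Fin W, ∑ x, ∑ y, (if P ((k v).run J (a x) (b y) T t acc).2 = true then
                  f x ^ p * (if b y ad = v then g y else 0) ^ p else 0)) ^ (1 / p)) := by
              refine mul_le_mul_of_nonneg_left (key _ fun v => ?_) hC0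
              refine Finset.sum_nonneg fun x _ => Finset.sum_nonneg fun y _ => ?_
              split_ifs
              · exact mul_nonneg (Real.rpow_nonneg (hf x) _) (Real.rpow_nonneg (hg y) _)
              · exact mul_nonneg (Real.rpow_nonneg (hf x) _) (Real.rpow_nonneg le_rfl _)
              · exact le_rfl
          _ = ((W : ℝ) ^ (1 - 1 / p)) ^ (T + 1) * C *
                (∑ x, ∑ y, (if P ((k (b y ad)).run J (a x) (b y) T t acc).2 = true then
                  f x ^ p * g y ^ p else 0)) ^ (1 / p) := by
              have h1 : (∑ v : Fin W, ∑ x, ∑ y,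
                  (if P ((k v).run J (a x) (b y) T t acc).2 = true then
                  f x ^ p * (if b y ad = v then g y else 0) ^ p else 0)) =
                  ∑ x, ∑ y, (if P ((k (b y ad)).run J (a x) (b y) T t acc).2 = true then
                  f x ^ p * g y ^ p else 0) := by
                rw [Finset.sum_comm]
                refine Finset.sum_congr rfl fun x _ => ?_
                rw [Finset.sum_comm]
                refine Finset.sum_congr rfl fun y _ => ?_
                rw [Finset.sum_eq_single (b y ad)]
                · simp
                · intro v _ hv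
                  rw [if_neg (Ne.symm hv), Real.zero_rpow hp0.ne']
                  simp
                · intro h
                  exact absurd (Finset.mem_univ _) h
              rw [h1, pow_succ]
              ring

end Pool.Agent.T2h38.JM
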