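import Mathlib
import Pool.Agent.T2h38.JM.QTree

/-! The advice: the contents of the sampled cells, the heavy cells with their contents, and the
good rows and columns. -/

namespace Pool.Agent.T2h38.JM

open Finset

/-- The survival of the pair `(i, j)` in the simulation with the joint memory `ρ` and the heavy
cells `H`. -/
def sg {α A : Type} {k S V W : ℕ} (q : Fin k → Fin k → QAlg A S V W) (a a' : Fin k → α → A → Fin W)
    (T t : ℕ) (P : Fin k × Fin k → Finset (Fin S) → Finset (Fin S) → Bool)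
    (ρ : Fin S → Fin V) (H : Finset (Fin S)) (i j : Fin k) (x y : α) : Bool :=
  P (i, j) H ((q i j).run ρ (a i x) (a' j y) T t ∅).2

/-- The kernel of the simulation. -/
noncomputable def kg {α A : Type} {k S V W : ℕ} (L ε : ℝ) (d : α → α → Bool)
    (q : Fin k → Fin k → QAlg A S V W) (a a' : Fin k → α → A → Fin W)
    (T t : ℕ) (P : Fin k × Fin k → Finset (Fin S) → Finset (Fin S) → Bool)
    (ρ : Fin S → Fin V) (H : Finset (Fin S)) (i j : Fin k) (x y : α) : ℝ :=
  if sg q a a' T t P ρ H i j x y = true then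
    Real.exp (-ε) * kk L (1 / 2) d ((q i j).run ρ (a i x) (a' j y) T t ∅).1 x y else 1

section

variable {S V k h : ℕ}

/-- The codes of the advice. -/
abbrev Code (S V k h : ℕ) (C0 : Finset (Fin S)) : Type :=
  (Fin h → Option (Fin S × Fin V)) × ({c // c ∈ C0} → Fin V) × Finset (Fin k) × Finset (Fin k)

open Classical in
/-- The decoding. -/
noncomputable def decode (v0 : Fin V) (C0 : Finset (Fin S)) (x : Code S V k h C0) :
    (Fin S → Fin V) × Finset (Fin S) × Finset (Fin k × Fin k) :=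
  (fun c => if hc : c ∈ C0 then x.2.1 ⟨c, hc⟩ else
    if h' : ∃ v, ∃ i, x.1 i = some (c, v) then h'.choose else v0,
   univ.filter fun c => ∃ i, ∃ v, x.1 i = some (c, v),
   x.2.2.1 ×ˢ x.2.2.2)

open Classical in
/-- The joint memory known from the advice. -/
noncomputable def known (v0 : Fin V) (C0 H : Finset (Fin S)) (J : Fin S → Fin V) :
    Fin S → Fin V :=
  fun c => if c ∈ C0 ∪ H then J c else v0

theorem decode_surj (v0 : Fin V) (C0 H : Finset (Fin S)) (hH : H.card ≤ h) (J : Fin S → Fin V)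
    (R C : Finset (Fin k)) :
    ∃ x : Code S V k h C0, decode v0 C0 x = (known v0 C0 H J, H, R ×ˢ C) := by
  classical
  set l : Fin h → Option (Fin S × Fin V) := fun i =>
    if hi : i.1 < H.card then some ((H.equivFin.symm ⟨i.1, hi⟩).1,
      J (H.equivFin.symm ⟨i.1, hi⟩).1) else none with hl
  have h1 : ∀ c v i, l i = some (c, v) → c ∈ H ∧ v = J c := by
    intro c v i hi
    rw [hl] at hi
    simp only at hi
    split_ifs at hi with h2
    rw [Option.some.injEq, Prod.mk.injEq] at hi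
    obtain ⟨h3, h4⟩ := hi
    rw [← h3]
    refine ⟨(H.equivFin.symm ⟨i.1, h2⟩).2, ?_⟩
    rw [← h4]
  have h2 : ∀ c ∈ H, ∃ i, l i = some (c, J c) := by
    intro c hc
    set m := H.equivFin ⟨c, hc⟩ with hm
    refine ⟨⟨m.1, lt_of_lt_of_le m.2 hH⟩, ?_⟩
    rw [hl]
    simp only
    rw [dif_pos m.2]
    have : H.equivFin.symm ⟨m.1, m.2⟩ = ⟨c, hc⟩ := by
      rw [show (⟨m.1, m.2⟩ : Fin H.card) = m from rfl, hm, Equiv.symm_apply_apply]
    rw [this]
  refine ⟨(l, fun c => J c.1, R, C), ?_⟩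
  unfold decode
  simp only
  refine Prod.ext ?_ (Prod.ext ?_ rfl)
  · funext c
    simp only
    unfold known
    by_cases hc : c ∈ C0
    · rw [dif_pos hc, if_pos (Finset.mem_union_left _ hc)]
    · rw [dif_neg hc]
      by_cases hc' : c ∈ H
      · have h3 : ∃ v, ∃ i, l i = some (c, v) := ⟨J c, h2 c hc'⟩
        rw [dif_pos h3, if_pos (Finset.mem_union_right _ hc')]
        obtain ⟨i, hi⟩ := h3.choose_spec
        exact (h1 _ _ _ hi).2
      · have h3 : ¬ ∃ v, ∃ i, l i = some (c, v) := by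
          rintro ⟨v, i, hi⟩
          exact hc' (h1 _ _ _ hi).1
        have h4 : c ∉ C0 ∪ H := by
          rw [Finset.mem_union]
          rintro (h5 | h5)
          · exact hc h5
          · exact hc' h5
        rw [dif_neg h3, if_neg h4]
  · simp only
    ext c
    rw [mem_filter]
    constructor
    · rintro ⟨_, i, v, hi⟩
      exact (h1 _ _ _ hi).1
    · intro hc
      obtain ⟨i, hi⟩ := h2 c hc
      exact ⟨mem_univ _, i, J c, hi⟩

theorem code_card (C0 : Finset (Fin S)) :
    Fintype.card (Code S V k h C0) = (S * V + 1) ^ h * (V ^ C0.card * (2 ^ k * 2 ^ k)) := by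
  unfold Code
  rw [Fintype.card_prod, Fintype.card_prod, Fintype.card_prod, Fintype.card_fun, Fintype.card_fun,
    Fintype.card_option, Fintype.card_prod, Fintype.card_fin, Fintype.card_fin, Fintype.card_fin,
    Fintype.card_coe, Fintype.card_finset, Fintype.card_fin]

end

/-- The main inequality for fixed coins and a fixed sample. -/
theorem advice {α A : Type} [Fintype α] [Nonempty α] {k S V W r : ℕ} (L ε : ℝ) (hL : 1 ≤ L)
    (d : α → α → Bool) (q : Fin r → Fin k → Fin k → QAlg A S V W)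
    (a a' : Fin r → Fin k → α → A → Fin W)
    (φ : (Fin k → α) × (Fin k → α) → Fin r)
    (T t D h : ℕ) (v0 : Fin V) (P : Fin k × Fin k → Finset (Fin S) → Finset (Fin S) → Bool)
    (C0 : Finset (Fin S)) (hP : ∀ e H acc, P e H acc = true → acc ⊆ C0 ∪ H)
    (J : (Fin k → α) × (Fin k → α) → Fin S → Fin V)
    (H : (Fin k → α) × (Fin k → α) → Finset (Fin S)) (hH : ∀ z, (H z).card ≤ h)
    (hSC : ∀ (x : Fin r) (ρ : Fin S → Fin V) (H' : Finset (Fin S))
      (E : Finset (Fin k × Fin k)),
      SC D (sg (q x) (a x) (a' x) T t P ρ H') (kg L ε d (q x) (a x) (a' x) T t P ρ H') E ≤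
        2 * (Fintype.card ((Fin k → α) × (Fin k → α)) : ℕ))
    (Sv : (Fin k → α) × (Fin k → α) → Fin k × Fin k → Bool)
    (hSv : ∀ z e, Sv z e = P e (H z)
      ((q (φ z) e.1 e.2).run (J z) (a (φ z) e.1 (z.1 e.1)) (a' (φ z) e.2 (z.2 e.2)) T t ∅).2)
    (R C : (Fin k → α) × (Fin k → α) → Finset (Fin k))
    (hR : ∀ z, ∀ i ∈ R z, (univ.filter fun e : Fin k × Fin k => e.1 = i ∧ Sv z e = true).card ≤ D)
    (hC : ∀ z, ∀ j ∈ C z, (univ.filter fun e : Fin k × Fin k => e.2 = j ∧ Sv z e = true).card ≤ D) :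
    ∑ z : (Fin k → α) × (Fin k → α), ∑ e ∈ (R z ×ˢ C z).filter (fun e => Sv z e = true),
      Real.log (Real.exp (-ε) * kk L (1 / 2) d
        ((q (φ z) e.1 e.2).run (J z) (a (φ z) e.1 (z.1 e.1)) (a' (φ z) e.2 (z.2 e.2)) T t ∅).1
        (z.1 e.1) (z.2 e.2)) ≤
      (Fintype.card ((Fin k → α) × (Fin k → α)) : ℕ) *
        Real.log (2 * ((Fintype.card (Code S V k h C0) : ℕ) * r)) := by
  classical
  set Zc : ℝ := ((Fintype.card ((Fin k → α) × (Fin k → α)) : ℕ) : ℝ) with hZc
  have hZ0 : 0 < Zc := by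
    rw [hZc]
    exact_mod_cast Fintype.card_pos
  set F : Fin r × (Fin S → Fin V) × Finset (Fin S) × Finset (Fin k × Fin k) →
      (Fin k → α) × (Fin k → α) → ℝ := fun g z =>
    (∏ e ∈ g.2.2.2, kg L ε d (q g.1) (a g.1) (a' g.1) T t P g.2.1 g.2.2.1 e.1 e.2
      (z.1 e.1) (z.2 e.2)) *
      ind (Cap D (sg (q g.1) (a g.1) (a' g.1) T t P g.2.1 g.2.2.1) g.2.2.2 z.1 z.2) with hF
  have hkk : ∀ (o : Option Bool) (x y : α), 0 < kk L (1 / 2) d o x y := by
    intro o x y
    unfold kk
    split_ifs <;> linarith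
  have hkg : ∀ x0 ρ H' i j x y, 0 < kg L ε d (q x0) (a x0) (a' x0) T t P ρ H' i j x y := by
    intro x0 ρ H' i j x y
    unfold kg
    split_ifs
    · exact mul_pos (Real.exp_pos _) (hkk _ _ _)
    · exact one_pos
  have hF0 : ∀ g z, 0 ≤ F g z := fun g z =>
    mul_nonneg (Finset.prod_nonneg fun e _ => (hkg _ _ _ _ _ _ _).le) (ind_nonneg _)
  have hFsum : ∀ g, ∑ z, F g z ≤ 2 * Zc := by
    intro g
    rw [Fintype.sum_prod_type]
    exact hSC g.1 g.2.1 g.2.2.1 g.2.2.2
  set γ : (Fin k → α) × (Fin k → α) →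
      Fin r × (Fin S → Fin V) × Finset (Fin S) × Finset (Fin k × Fin k) :=
    fun z => (φ z, known v0 C0 (H z) (J z), H z, R z ×ˢ C z) with hγ
  -- the simulation agrees with the real run
  have hagree : ∀ z (e : Fin k × Fin k),
      sg (q (φ z)) (a (φ z)) (a' (φ z)) T t P (γ z).2.1 (γ z).2.2.1 e.1 e.2
        (z.1 e.1) (z.2 e.2) = Sv z e ∧
      (Sv z e = true → ((q (φ z) e.1 e.2).run (γ z).2.1 (a (φ z) e.1 (z.1 e.1))
          (a' (φ z) e.2 (z.2 e.2)) T t ∅).1 =
        ((q (φ z) e.1 e.2).run (J z) (a (φ z) e.1 (z.1 e.1)) (a' (φ z) e.2 (z.2 e.2)) T t ∅).1) := by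
    intro z e
    have hag := run_agree (γ z).2.1 (J z) (C0 ∪ H z) (fun c hc => by
      show known v0 C0 (H z) (J z) c = J z c
      unfold known
      rw [if_pos hc]) (a (φ z) e.1 (z.1 e.1)) (a' (φ z) e.2 (z.2 e.2)) (q (φ z) e.1 e.2) T t ∅
    rw [hSv]
    unfold sg
    rcases hag with h1 | ⟨c, hc, h1, h2⟩
    · rw [h1]
      exact ⟨rfl, fun _ => rfl⟩
    · have h3 : ∀ acc : Finset (Fin S), c ∈ acc → P (e.1, e.2) (H z) acc = false := by
        intro acc hacc
        by_contra hcon
        rw [Bool.not_eq_false] at hcon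
        exact hc (hP _ _ _ hcon hacc)
      have h4 := h3 _ h1
      have h5 := h3 _ h2
      refine ⟨?_, fun h6 => ?_⟩
      · show P (e.1, e.2) (H z) _ = P (e.1, e.2) (H z) _
        rw [h4, h5]
      · have h7 : P (e.1, e.2) (H z) ((q (φ z) e.1 e.2).run (J z) (a (φ z) e.1 (z.1 e.1))
          (a' (φ z) e.2 (z.2 e.2)) T t ∅).2 = true := h6
        rw [h5] at h7
        exact absurd h7 (by simp)
  -- the cap holds
  have hcap : ∀ z, Cap D (sg (q (φ z)) (a (φ z)) (a' (φ z)) T t P (γ z).2.1 (γ z).2.2.1)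
      (γ z).2.2.2 z.1 z.2 := by
    intro z
    refine ⟨fun i => ?_, fun j => ?_⟩
    · unfold rowc
      by_cases hi : i ∈ R z
      · refine (Finset.card_le_card ?_).trans (hR z i hi)
        intro e he
        rw [mem_filter] at he ⊢
        refine ⟨mem_univ _, he.2.1, ?_⟩
        rw [← (hagree z e).1]
        exact he.2.2
      · have : ((γ z).2.2.2.filter fun e => e.1 = i ∧
            sg (q (φ z)) (a (φ z)) (a' (φ z)) T t P (γ z).2.1 (γ z).2.2.1 e.1 e.2
              (z.1 e.1) (z.2 e.2) = true) = ∅ := by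
          rw [Finset.filter_eq_empty_iff]
          rintro e he ⟨h1, _⟩
          have h2 : e ∈ R z ×ˢ C z := he
          rw [mem_product] at h2
          exact hi (h1 ▸ h2.1)
        rw [this]
        simp
    · unfold colc
      by_cases hi : j ∈ C z
      · refine (Finset.card_le_card ?_).trans (hC z j hi)
        intro e he
        rw [mem_filter] at he ⊢
        refine ⟨mem_univ _, he.2.1, ?_⟩
        rw [← (hagree z e).1]
        exact he.2.2
      · have : ((γ z).2.2.2.filter fun e => e.2 = j ∧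
            sg (q (φ z)) (a (φ z)) (a' (φ z)) T t P (γ z).2.1 (γ z).2.2.1 e.1 e.2
              (z.1 e.1) (z.2 e.2) = true) = ∅ := by
          rw [Finset.filter_eq_empty_iff]
          rintro e he ⟨h1, _⟩
          have h2 : e ∈ R z ×ˢ C z := he
          rw [mem_product] at h2
          exact hi (h1 ▸ h2.2)
        rw [this]
        simp
  have hFpos : ∀ z, 0 < F (γ z) z := by
    intro z
    rw [hF]
    simp only
    rw [ind_true (hcap z), mul_one]
    exact Finset.prod_pos fun e _ => hkg _ _ _ _ _ _ _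
  -- the logarithm
  have hlog : ∀ z, Real.log (F (γ z) z) = ∑ e ∈ (R z ×ˢ C z).filter (fun e => Sv z e = true),
      Real.log (Real.exp (-ε) * kk L (1 / 2) d
        ((q (φ z) e.1 e.2).run (J z) (a (φ z) e.1 (z.1 e.1)) (a' (φ z) e.2 (z.2 e.2)) T t ∅).1
        (z.1 e.1) (z.2 e.2)) := by
    intro z
    rw [hF]
    simp only
    rw [ind_true (hcap z), mul_one, Real.log_prod (fun e _ => (hkg _ _ _ _ _ _ _).ne'),
      Finset.sum_filter]
    refine Finset.sum_congr rfl fun e _ => ?_
    unfold kg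
    rw [(hagree z e).1]
    split_ifs with h1
    · rw [(hagree z e).2 h1]
    · exact Real.log_one
  -- the number of advices
  have himg : ((univ.image γ).card : ℝ) ≤
      ((Fintype.card (Code S V k h C0) : ℕ) : ℝ) * ((r : ℕ) : ℝ) := by
    have h1 : (univ.image γ) ⊆ univ.image (fun y : Code S V k h C0 × Fin r =>
        (y.2, decode v0 C0 y.1)) := by
      intro g hg
      rw [mem_image] at hg
      obtain ⟨z, _, hz⟩ := hg
      obtain ⟨x, hx⟩ := decode_surj (h := h) v0 C0 (H z) (hH z) (J z) (R z) (C z)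
      rw [mem_image]
      exact ⟨(x, φ z), mem_univ _, by rw [hx, ← hz]⟩
    have h2 := (Finset.card_le_card h1).trans Finset.card_image_le
    rw [Finset.card_univ, Fintype.card_prod, Fintype.card_fin] at h2
    exact_mod_cast h2
  have hcode : (1 : ℝ) ≤ ((Fintype.card (Code S V k h C0) : ℕ) : ℝ) * ((r : ℕ) : ℝ) := by
    refine le_trans ?_ himg
    have : 0 < (univ.image γ).card := by
      rw [Finset.card_pos]
      exact Finset.Nonempty.image Finset.univ_nonempty γ
    exact_mod_cast this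
  have htot : ∑ z, F (γ z) z ≤
      (2 * (((Fintype.card (Code S V k h C0) : ℕ) : ℝ) * ((r : ℕ) : ℝ))) * Zc := by
    calc ∑ z, F (γ z) z ≤ ∑ z, ∑ g ∈ univ.image γ, F g z := by
          refine Finset.sum_le_sum fun z _ => ?_
          exact Finset.single_le_sum (f := fun g => F g z) (fun g _ => hF0 g z)
            (Finset.mem_image_of_mem γ (Finset.mem_univ z))
      _ = ∑ g ∈ univ.image γ, ∑ z, F g z := Finset.sum_comm
      _ ≤ ∑ _g ∈ univ.image γ, 2 * Zc := Finset.sum_le_sum fun g _ => hFsum g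
      _ = ((univ.image γ).card : ℝ) * (2 * Zc) := by rw [Finset.sum_const, nsmul_eq_mul]
      _ ≤ ((Fintype.card (Code S V k h C0) : ℕ) : ℝ) * ((r : ℕ) : ℝ) * (2 * Zc) :=
          mul_le_mul_of_nonneg_right himg (by positivity)
      _ = _ := by ring
  set c : ℝ := 2 * (((Fintype.card (Code S V k h C0) : ℕ) : ℝ) * ((r : ℕ) : ℝ)) with hc
  have hc0 : 0 < c := by linarith
  have hpt : ∀ z, Real.log (F (γ z) z) ≤ F (γ z) z / c - 1 + Real.log c := by
    intro z
    have h1 := Real.log_le_sub_one_of_pos (div_pos (hFpos z) hc0)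
    rw [Real.log_div (hFpos z).ne' hc0.ne'] at h1
    linarith
  calc _ = ∑ z, Real.log (F (γ z) z) := Finset.sum_congr rfl fun z _ => (hlog z).symm
    _ ≤ ∑ z, (F (γ z) z / c - 1 + Real.log c) := Finset.sum_le_sum fun z _ => hpt z
    _ = (∑ z, F (γ z) z) / c + Zc * (Real.log c - 1) := by
        rw [Finset.sum_add_distrib, Finset.sum_sub_distrib, ← Finset.sum_div, Finset.sum_const,
          Finset.sum_const, Finset.card_univ, nsmul_eq_mul, nsmul_eq_mul]
        ring
    _ ≤ Zc + Zc * (Real.log c - 1) := by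
        have : (∑ z, F (γ z) z) / c ≤ Zc := by
          rw [div_le_iff₀ hc0, mul_comm]
          exact htot
        linarith
    _ = Zc * Real.log c := by ring

end Pool.Agent.T2h38.JM
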