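import Mathlib

/-! Random samples: the expected number of survivors and of lost survivors. -/

namespace Pool.Agent.T2h38.JM

open Finset

/-- The number of functions that vanish on `B`. -/
theorem count_zero {U : Type} [Fintype U] [DecidableEq U] (m : ℕ) (B : Finset U) :
    ((m : ℝ) + 1) ^ B.card * ∑ ω : U → Fin (m + 1), (if ∀ y ∈ B, ω y = 0 then (1 : ℝ) else 0) =
      (Fintype.card (U → Fin (m + 1)) : ℕ) := by
  have h1 : ∀ ω : U → Fin (m + 1), (if ∀ y ∈ B, ω y = 0 then (1 : ℝ) else 0) =
      ∏ y, (if y ∈ B then (if ω y = 0 then (1 : ℝ) else 0) else 1) := by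
    intro ω
    by_cases h : ∀ y ∈ B, ω y = 0
    · rw [if_pos h]
      symm
      refine Finset.prod_eq_one fun y _ => ?_
      split_ifs with h1 h2
      · rfl
      · exact absurd (h y h1) h2
      · rfl
    · rw [if_neg h]
      push Not at h
      obtain ⟨y, hy, hy'⟩ := h
      symm
      refine Finset.prod_eq_zero (Finset.mem_univ y) ?_
      rw [if_pos hy, if_neg hy']
  simp_rw [h1]
  have h3 := Finset.prod_univ_sum (fun _ : U => (Finset.univ : Finset (Fin (m + 1))))
    (fun y v => (if y ∈ B then (if v = 0 then (1 : ℝ) else 0) else 1))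
  rw [Fintype.piFinset_univ] at h3
  rw [← h3]
  have h4 : ∀ y : U, ∑ v : Fin (m + 1), (if y ∈ B then (if v = 0 then (1 : ℝ) else 0) else 1) =
      if y ∈ B then 1 else ((m : ℝ) + 1) := by
    intro y
    by_cases hy : y ∈ B
    · simp [hy]
    · simp [hy]
  simp_rw [h4]
  rw [Finset.prod_ite, Finset.prod_const_one, one_mul, Finset.prod_const, ← pow_add,
    Fintype.card_fun, Fintype.card_fin]
  have h5 : B.card + (univ.filter fun y => y ∉ B).card = Fintype.card U := by
    have h6 := Finset.card_filter_add_card_filter_not (s := (univ : Finset U)) (fun y => y ∈ B)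
    rw [Finset.card_univ] at h6
    have h7 : (univ.filter fun y => y ∈ B) = B := by
      ext y
      simp
    rw [h7] at h6
    exact h6
  rw [h5]
  push_cast
  ring

/-- The probability that both sets vanish. -/
theorem count_both {U : Type} [Fintype U] [DecidableEq U] (m t : ℕ) (B B' : Finset U)
    (hB : B.card = t) (hB' : B'.card = t) :
    ∑ ω : U → Fin (m + 1), (if (∀ y ∈ B, ω y = 0) ∧ (∀ y ∈ B', ω y = 0) then (1 : ℝ) else 0) ≤
      (Fintype.card (U → Fin (m + 1)) : ℕ) *
        (1 / ((m : ℝ) + 1) ^ (2 * t) + (if Disjoint B B' then 0 else 1 / ((m : ℝ) + 1) ^ t)) := by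
  have hm : (0 : ℝ) < (m : ℝ) + 1 := by positivity
  set N : ℝ := ((Fintype.card (U → Fin (m + 1)) : ℕ) : ℝ) with hN
  have hN0 : 0 ≤ N := by rw [hN]; positivity
  by_cases hd : Disjoint B B'
  · rw [if_pos hd, add_zero]
    have h1 := count_zero m (B ∪ B')
    rw [Finset.card_union_of_disjoint hd, hB, hB', ← hN] at h1
    have h2 : ∀ ω : U → Fin (m + 1), (if (∀ y ∈ B, ω y = 0) ∧ (∀ y ∈ B', ω y = 0) then (1 : ℝ)
        else 0) = (if ∀ y ∈ B ∪ B', ω y = 0 then (1 : ℝ) else 0) := by
      intro ω
      congr 1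
      apply propext
      constructor
      · rintro ⟨h3, h4⟩ y hy
        rcases Finset.mem_union.1 hy with h | h
        · exact h3 y h
        · exact h4 y h
      · intro h
        exact ⟨fun y hy => h y (Finset.mem_union_left _ hy),
          fun y hy => h y (Finset.mem_union_right _ hy)⟩
    simp_rw [h2]
    rw [← h1, two_mul]
    refine le_of_eq ?_
    have hp : ((m : ℝ) + 1) ^ (t + t) ≠ 0 := (pow_pos hm _).ne'
    rw [mul_one_div, mul_div_assoc, mul_comm, div_mul_cancel₀ _ hp]
  · rw [if_neg hd]
    have h1 := count_zero m B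
    rw [hB, ← hN] at h1
    calc ∑ ω : U → Fin (m + 1), (if (∀ y ∈ B, ω y = 0) ∧ (∀ y ∈ B', ω y = 0) then (1 : ℝ)
          else 0) ≤ ∑ ω : U → Fin (m + 1), (if ∀ y ∈ B, ω y = 0 then (1 : ℝ) else 0) := by
          refine Finset.sum_le_sum fun ω _ => ?_
          split_ifs with h2 h3
          · exact le_rfl
          · exact absurd h2.1 h3
          · norm_num
          · exact le_rfl
      _ = N * (1 / ((m : ℝ) + 1) ^ t) := by
          rw [← h1]
          field_simp
      _ ≤ _ := by
          refine mul_le_mul_of_nonneg_left ?_ hN0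
          have : 0 ≤ 1 / ((m : ℝ) + 1) ^ (2 * t) := by positivity
          linarith

/-- The survivors in a sample. -/
def sv {U P : Type} [Fintype U] {m : ℕ} (B : P → Finset U) (ω : U → Fin (m + 1)) (e : P) : Prop :=
  ∀ y ∈ B e, ω y = 0

open Classical in
/-- The expected number of survivors, with weights. -/
theorem sum_sv {U P : Type} [Fintype U] [DecidableEq U] [Fintype P] (m t : ℕ) (B : P → Finset U)
    (hB : ∀ e, (B e).card = t) (c : P → ℝ) :
    ∑ ω : U → Fin (m + 1), ∑ e, (if sv B ω e then c e else 0) =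
      (Fintype.card (U → Fin (m + 1)) : ℕ) * ((∑ e, c e) / ((m : ℝ) + 1) ^ t) := by
  have hm : (0 : ℝ) < (m : ℝ) + 1 := by positivity
  have hp : ((m : ℝ) + 1) ^ t ≠ 0 := (pow_pos hm _).ne'
  rw [Finset.sum_comm, Finset.sum_div, Finset.mul_sum]
  refine Finset.sum_congr rfl fun e _ => ?_
  have h1 := count_zero m (B e)
  rw [hB] at h1
  rw [← h1]
  have h2 : ∀ ω : U → Fin (m + 1), (if sv B ω e then c e else 0) =
      c e * (if ∀ y ∈ B e, ω y = 0 then (1 : ℝ) else 0) := by
    intro ω
    unfold sv
    split_ifs <;> simp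
  simp_rw [h2]
  rw [← Finset.mul_sum]
  have h3 : (∑ ω : U → Fin (m + 1), if ∀ y ∈ B e, ω y = 0 then (1 : ℝ) else 0) =
      ∑ ω : U → Fin (m + 1), if ∀ y ∈ B e, ω y = 0 then (1 : ℝ) else 0 := by
    refine Finset.sum_congr rfl fun ω _ => ?_
    congr 1
  field_simp

open Classical in
/-- The expected number of survivors in rows or columns with too many survivors. -/
theorem lost_bound {U : Type} [Fintype U] [DecidableEq U] {k : ℕ} (m t D b0 : ℕ)
    (B : Fin k × Fin k → Finset U) (hB : ∀ e, (B e).card = t)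
    (hdis : ∀ e, (univ.filter fun e' => ¬ Disjoint (B e) (B e')).card ≤ b0) :
    (∑ ω : U → Fin (m + 1), ((univ.filter fun e : Fin k × Fin k => sv B ω e ∧
      (D < (univ.filter fun e' : Fin k × Fin k => e'.1 = e.1 ∧ sv B ω e').card ∨
       D < (univ.filter fun e' : Fin k × Fin k => e'.2 = e.2 ∧ sv B ω e').card)).card : ℝ)) * D ≤
      (Fintype.card (U → Fin (m + 1)) : ℕ) * (2 * (k : ℝ) ^ 2 *
        ((k : ℝ) / ((m : ℝ) + 1) ^ (2 * t) + b0 / ((m : ℝ) + 1) ^ t)) := by
  have hm : (0 : ℝ) < (m : ℝ) + 1 := by positivity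
  set N : ℝ := ((Fintype.card (U → Fin (m + 1)) : ℕ) : ℝ) with hN
  have hN0 : 0 ≤ N := by rw [hN]; positivity
  set α := 1 / ((m : ℝ) + 1) ^ (2 * t) with hα
  set β := 1 / ((m : ℝ) + 1) ^ t with hβ
  have hα0 : 0 ≤ α := by positivity
  have hβ0 : 0 ≤ β := by positivity
  -- the number for one sample
  have hone : ∀ ω : U → Fin (m + 1), ((univ.filter fun e : Fin k × Fin k => sv B ω e ∧
      (D < (univ.filter fun e' : Fin k × Fin k => e'.1 = e.1 ∧ sv B ω e').card ∨
       D < (univ.filter fun e' : Fin k × Fin k => e'.2 = e.2 ∧ sv B ω e').card)).card : ℝ) * D ≤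
      ∑ e : Fin k × Fin k, ∑ e' : Fin k × Fin k,
        ((if e'.1 = e.1 then 1 else 0) + (if e'.2 = e.2 then 1 else 0)) *
        (if sv B ω e ∧ sv B ω e' then (1 : ℝ) else 0) := by
    intro ω
    rw [Finset.card_filter]
    push_cast
    rw [Finset.sum_mul]
    refine Finset.sum_le_sum fun e _ => ?_
    have hcount : ∀ (r : Fin k × Fin k → Prop) [DecidablePred r],
        (((univ.filter fun e' : Fin k × Fin k => r e' ∧ sv B ω e').card : ℕ) : ℝ) =
        ∑ e' : Fin k × Fin k, (if r e' then (1 : ℝ) else 0) * (if sv B ω e' then 1 else 0) := by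
      intro r _
      rw [Finset.card_filter]
      push_cast
      refine Finset.sum_congr rfl fun e' _ => ?_
      by_cases h1 : r e'
      · by_cases h2 : sv B ω e'
        · simp [h1, h2]
        · simp [h1, h2]
      · simp [h1]
    by_cases hs : sv B ω e
    · have hr := hcount (fun e' => e'.1 = e.1)
      have hc := hcount (fun e' => e'.2 = e.2)
      have hsum : ∑ e' : Fin k × Fin k,
          ((if e'.1 = e.1 then 1 else 0) + (if e'.2 = e.2 then 1 else 0)) *
          (if sv B ω e ∧ sv B ω e' then (1 : ℝ) else 0) =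
          (((univ.filter fun e' : Fin k × Fin k => e'.1 = e.1 ∧ sv B ω e').card : ℕ) : ℝ) +
          (((univ.filter fun e' : Fin k × Fin k => e'.2 = e.2 ∧ sv B ω e').card : ℕ) : ℝ) := by
        rw [hr, hc, ← Finset.sum_add_distrib]
        refine Finset.sum_congr rfl fun e' _ => ?_
        simp only [hs, true_and]
        ring
      rw [hsum]
      split_ifs with h
      · rw [one_mul]
        rcases h.2 with h1 | h1
        · have h2 : (D : ℝ) ≤
            (((univ.filter fun e' : Fin k × Fin k => e'.1 = e.1 ∧ sv B ω e').card : ℕ) : ℝ) := by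
            exact_mod_cast h1.le
          have h3 : (0 : ℝ) ≤
            (((univ.filter fun e' : Fin k × Fin k => e'.2 = e.2 ∧ sv B ω e').card : ℕ) : ℝ) := by
            positivity
          linarith
        · have h2 : (D : ℝ) ≤
            (((univ.filter fun e' : Fin k × Fin k => e'.2 = e.2 ∧ sv B ω e').card : ℕ) : ℝ) := by
            exact_mod_cast h1.le
          have h3 : (0 : ℝ) ≤
            (((univ.filter fun e' : Fin k × Fin k => e'.1 = e.1 ∧ sv B ω e').card : ℕ) : ℝ) := by
            positivity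
          linarith
      · rw [zero_mul]
        positivity
    · rw [if_neg (fun h => hs h.1), zero_mul]
      refine Finset.sum_nonneg fun e' _ => ?_
      refine mul_nonneg ?_ ?_
      · split_ifs <;> norm_num
      · split_ifs <;> norm_num
  -- the expectation
  have hexp : ∀ e e' : Fin k × Fin k,
      ∑ ω : U → Fin (m + 1), (if sv B ω e ∧ sv B ω e' then (1 : ℝ) else 0) ≤
      N * (α + if ¬ Disjoint (B e) (B e') then β else 0) := by
    intro e e'
    have h1 := count_both m t (B e) (B e') (hB e) (hB e')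
    rw [← hN] at h1
    refine le_trans (le_of_eq ?_) (h1.trans (le_of_eq ?_))
    · refine Finset.sum_congr rfl fun ω _ => ?_
      unfold sv
      congr 1
    · congr 1
      congr 1
      by_cases hd : Disjoint (B e) (B e')
      · simp [hd]
      · simp [hd, hβ]
  rw [Finset.sum_mul]
  calc _ ≤ ∑ ω : U → Fin (m + 1), ∑ e : Fin k × Fin k, ∑ e' : Fin k × Fin k,
        ((if e'.1 = e.1 then 1 else 0) + (if e'.2 = e.2 then 1 else 0)) *
        (if sv B ω e ∧ sv B ω e' then (1 : ℝ) else 0) := Finset.sum_le_sum fun ω _ => hone ω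
    _ = ∑ e : Fin k × Fin k, ∑ e' : Fin k × Fin k,
        ((if e'.1 = e.1 then 1 else 0) + (if e'.2 = e.2 then 1 else 0)) *
        ∑ ω : U → Fin (m + 1), (if sv B ω e ∧ sv B ω e' then (1 : ℝ) else 0) := by
        rw [Finset.sum_comm]
        refine Finset.sum_congr rfl fun e _ => ?_
        rw [Finset.sum_comm]
        refine Finset.sum_congr rfl fun e' _ => ?_
        rw [Finset.mul_sum]
    _ ≤ ∑ e : Fin k × Fin k, ∑ e' : Fin k × Fin k,
        ((if e'.1 = e.1 then 1 else 0) + (if e'.2 = e.2 then 1 else 0)) *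
        (N * (α + if ¬ Disjoint (B e) (B e') then β else 0)) := by
        refine Finset.sum_le_sum fun e _ => Finset.sum_le_sum fun e' _ => ?_
        refine mul_le_mul_of_nonneg_left (hexp e e') ?_
        split_ifs <;> norm_num
    _ ≤ ∑ e : Fin k × Fin k, ∑ e' : Fin k × Fin k,
        (N * (α * ((if e'.1 = e.1 then 1 else 0) + (if e'.2 = e.2 then 1 else 0))) +
          N * ((if ¬ Disjoint (B e) (B e') then 1 else 0) * (2 * β))) := by
        refine Finset.sum_le_sum fun e _ => Finset.sum_le_sum fun e' _ => ?_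
        have hNβ : 0 ≤ N * β := mul_nonneg hN0 hβ0
        split_ifs <;> nlinarith
    _ = N * ∑ e : Fin k × Fin k, (α * (2 * k) +
          (((univ.filter fun e' => ¬ Disjoint (B e) (B e')).card : ℕ) : ℝ) * (2 * β)) := by
        rw [Finset.mul_sum]
        refine Finset.sum_congr rfl fun e _ => ?_
        have h1 : ∑ e' : Fin k × Fin k, (if e'.1 = e.1 then (1 : ℝ) else 0) = k := by
          rw [Fintype.sum_prod_type_right]
          simp
        have h2 : ∑ e' : Fin k × Fin k, (if e'.2 = e.2 then (1 : ℝ) else 0) = k := by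
          rw [Fintype.sum_prod_type]
          simp
        have h3 : ∑ e' : Fin k × Fin k,
            (α * ((if e'.1 = e.1 then (1 : ℝ) else 0) + (if e'.2 = e.2 then 1 else 0))) =
            α * (2 * k) := by
          rw [← Finset.mul_sum, Finset.sum_add_distrib, h1, h2]
          ring
        rw [Finset.sum_add_distrib, ← Finset.mul_sum, h3, ← Finset.mul_sum, mul_add]
        congr 1
        congr 1
        · rw [← Finset.sum_mul, Finset.card_filter]
          push_cast
          rfl
    _ ≤ N * ∑ _e : Fin k × Fin k, (α * (2 * k) + (b0 : ℝ) * (2 * β)) := by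
        refine mul_le_mul_of_nonneg_left ?_ hN0
        refine Finset.sum_le_sum fun e _ => ?_
        have h1 : (((univ.filter fun e' => ¬ Disjoint (B e) (B e')).card : ℕ) : ℝ) ≤ b0 := by
          exact_mod_cast hdis e
        have h2 := mul_le_mul_of_nonneg_right h1 (show 0 ≤ 2 * β by positivity)
        linarith
    _ = _ := by
        rw [Finset.sum_const, Finset.card_univ, Fintype.card_prod, Fintype.card_fin, nsmul_eq_mul,
          hα, hβ]
        push_cast
        ring

end Pool.Agent.T2h38.JM
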