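import Mathlib
import Pool.Agent.T2h38.JM.Adv
import Pool.Agent.T2h38.JM.Samp

/-! The main inequality for fixed coins. -/

namespace Pool.Agent.T2h38.JM

open Finset

/-- The set of `t` positions of the sample on which the survival of the pair `e` depends. -/
def Bs {k S : ℕ} (t : ℕ) (e : Fin k × Fin k) (A : Finset (Fin S)) :
    Finset (Fin S ⊕ ((Fin k × Fin k) × Fin t)) :=
  A.image Sum.inl ∪ (univ.filter (fun a : Fin t => a.1 < t - A.card)).image
    (fun a => Sum.inr (e, a))

theorem Bs_card {k S : ℕ} (t : ℕ) (e : Fin k × Fin k) (A : Finset (Fin S)) (hA : A.card ≤ t) :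
    (Bs t e A).card = t := by
  unfold Bs
  rw [Finset.card_union_of_disjoint]
  · rw [Finset.card_image_of_injective _ Sum.inl_injective,
      Finset.card_image_of_injective _ (fun a b h => (Prod.mk.inj (Sum.inr_injective h)).2)]
    have h1 : (univ.filter (fun a : Fin t => a.1 < t - A.card)).card = t - A.card := by
      rw [Fin.card_filter_val_lt]
      omega
    rw [h1]
    omega
  · rw [Finset.disjoint_left]
    intro y hy hy'
    rw [mem_image] at hy hy'
    obtain ⟨c, _, hc⟩ := hy
    obtain ⟨a, _, ha⟩ := hy'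
    rw [← hc] at ha
    exact absurd ha (by simp)

theorem Bs_disj {k S : ℕ} (t : ℕ) (e e' : Fin k × Fin k) (A A' : Finset (Fin S))
    (h : ¬ Disjoint (Bs t e A) (Bs t e' A')) : e' = e ∨ ∃ c ∈ A, c ∈ A' := by
  rw [Finset.not_disjoint_iff] at h
  obtain ⟨y, hy, hy'⟩ := h
  unfold Bs at hy hy'
  rw [mem_union, mem_image, mem_image] at hy hy'
  rcases hy with ⟨c, hc, hc'⟩ | ⟨a, _, ha⟩
  · rcases hy' with ⟨c2, hc2, hc2'⟩ | ⟨a2, _, ha2⟩
    · right
      rw [← hc'] at hc2'
      have := Sum.inl_injective hc2'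
      rw [this] at hc2
      exact ⟨c, hc, hc2⟩
    · rw [← hc'] at ha2
      exact absurd ha2 (by simp)
  · rcases hy' with ⟨c2, hc2, hc2'⟩ | ⟨a2, _, ha2⟩
    · rw [← ha] at hc2'
      exact absurd hc2' (by simp)
    · left
      rw [← ha] at ha2
      exact (Prod.mk.inj (Sum.inr_injective ha2)).1

open Classical in
/-- The weight of a surviving pair. -/
noncomputable def wt2 (L ε : ℝ) (dis bad : Prop) : ℝ :=
  (if dis then Real.log L else 0) - (if bad then Real.log L + Real.log 2 else 0) - ε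

theorem coin_ineq {α A : Type} [Fintype α] [Nonempty α] {k S V W r : ℕ} (L ε : ℝ) (hL : 1 < L)
    (hε : 0 ≤ ε)
    (d : α → α → Bool) (q : Fin r → Fin k → Fin k → QAlg A S V W)
    (a a' : Fin r → Fin k → α → A → Fin W) (φ : (Fin k → α) × (Fin k → α) → Fin r)
    (T t D Hb m : ℕ) (hD : 0 < D) (v0 : Fin V)
    (J : (Fin k → α) × (Fin k → α) → Fin S → Fin V)
    (hSC : ∀ (P : Fin k × Fin k → Finset (Fin S) → Finset (Fin S) → Bool) (x : Fin r)
      (ρ : Fin S → Fin V) (H' : Finset (Fin S)) (E : Finset (Fin k × Fin k)),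
      SC D (sg (q x) (a x) (a' x) T t P ρ H') (kg L ε d (q x) (a x) (a' x) T t P ρ H') E ≤
        2 * (Fintype.card ((Fin k → α) × (Fin k → α)) : ℕ)) :
    (∑ z : (Fin k → α) × (Fin k → α), ∑ e : Fin k × Fin k,
      wt2 L ε (d (z.1 e.1) (z.2 e.2) = true)
        (((q (φ z) e.1 e.2).run (J z) (a (φ z) e.1 (z.1 e.1)) (a' (φ z) e.2 (z.2 e.2))
          T t ∅).1 ≠
          some (!(d (z.1 e.1) (z.2 e.2))))) / ((m : ℝ) + 1) ^ t ≤
      (Fintype.card ((Fin k → α) × (Fin k → α)) : ℕ) *
        (Real.log L * (2 * (k : ℝ) ^ 2 *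
          ((k : ℝ) / ((m : ℝ) + 1) ^ (2 * t) + ((1 + t * Hb : ℕ) : ℝ) / ((m : ℝ) + 1) ^ t)) / D +
        (Real.log 2 + ((t * (k * k) / (Hb + 1) : ℕ) : ℝ) * Real.log ((S * V + 1 : ℕ) : ℝ) +
          (S : ℝ) / ((m : ℝ) + 1) * Real.log V + 2 * k * Real.log 2 + Real.log r)) := by
  classical
  have hm : (0 : ℝ) < (m : ℝ) + 1 := by positivity
  set Zc : ℝ := ((Fintype.card ((Fin k → α) × (Fin k → α)) : ℕ) : ℝ) with hZc
  have hZ0 : 0 < Zc := by
    rw [hZc]
    exact_mod_cast Fintype.card_pos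
  set h := t * (k * k) / (Hb + 1) with hh
  set o : (Fin k → α) × (Fin k → α) → Fin k × Fin k → Option Bool × Finset (Fin S) :=
    fun z e => (q (φ z) e.1 e.2).run (J z) (a (φ z) e.1 (z.1 e.1)) (a' (φ z) e.2 (z.2 e.2))
      T t ∅ with ho
  have hocard : ∀ z e, (o z e).2.card ≤ t := by
    intro z e
    have := run_card (J z) (a (φ z) e.1 (z.1 e.1)) (a' (φ z) e.2 (z.2 e.2))
      (q (φ z) e.1 e.2) T t ∅
    rw [Finset.card_empty, zero_add] at this
    exact this
  set Lc : (Fin k → α) × (Fin k → α) → Fin S → ℕ := fun z c =>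
    (univ.filter fun e : Fin k × Fin k => c ∈ (o z e).2).card with hLc
  set Hv : (Fin k → α) × (Fin k → α) → Finset (Fin S) := fun z =>
    univ.filter fun c => Hb < Lc z c with hHv
  have hHvcard : ∀ z, (Hv z).card ≤ h := by
    intro z
    rw [hh, Nat.le_div_iff_mul_le (Nat.succ_pos _)]
    calc (Hv z).card * (Hb + 1) = ∑ _c ∈ Hv z, (Hb + 1) := by
          rw [Finset.sum_const, smul_eq_mul]
      _ ≤ ∑ c ∈ Hv z, Lc z c := by
          refine Finset.sum_le_sum fun c hc => ?_
          rw [hHv, mem_filter] at hc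
          exact hc.2
      _ ≤ ∑ c, Lc z c := Finset.sum_le_sum_of_subset (Finset.subset_univ _)
      _ = ∑ e : Fin k × Fin k, (o z e).2.card := by
          simp only [hLc, Finset.card_filter]
          rw [Finset.sum_comm]
          refine Finset.sum_congr rfl fun e _ => ?_
          rw [← Finset.card_filter]
          congr 1
          ext c
          simp
      _ ≤ ∑ _e : Fin k × Fin k, t := Finset.sum_le_sum fun e _ => hocard z e
      _ = t * (k * k) := by
          rw [Finset.sum_const, Finset.card_univ, Fintype.card_prod, Fintype.card_fin, smul_eq_mul]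
          ring
  set B : (Fin k → α) × (Fin k → α) → Fin k × Fin k →
      Finset (Fin S ⊕ ((Fin k × Fin k) × Fin t)) :=
    fun z e => Bs t e ((o z e).2 \ Hv z) with hB
  have hBcard : ∀ z e, (B z e).card = t := fun z e =>
    Bs_card t e _ ((Finset.card_le_card Finset.sdiff_subset).trans (hocard z e))
  have hdis : ∀ z e, (univ.filter fun e' => ¬ Disjoint (B z e) (B z e')).card ≤ 1 + t * Hb := by
    intro z e
    have h1 : (univ.filter fun e' => ¬ Disjoint (B z e) (B z e')) ⊆
        {e} ∪ ((o z e).2 \ Hv z).biUnion (fun c => univ.filter fun e' => c ∈ (o z e').2) := by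
      intro e' he'
      rw [mem_filter] at he'
      rw [mem_union, mem_singleton, mem_biUnion]
      rcases Bs_disj t e e' _ _ he'.2 with h2 | ⟨c, hc, hc'⟩
      · exact Or.inl h2
      · right
        refine ⟨c, hc, ?_⟩
        rw [mem_filter]
        exact ⟨mem_univ _, (Finset.mem_sdiff.1 hc').1⟩
    refine (Finset.card_le_card h1).trans ((Finset.card_union_le _ _).trans ?_)
    rw [Finset.card_singleton]
    refine Nat.add_le_add_left ?_ 1
    refine Finset.card_biUnion_le.trans ?_
    calc ∑ c ∈ (o z e).2 \ Hv z, (univ.filter fun e' => c ∈ (o z e').2).card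
        ≤ ∑ _c ∈ (o z e).2 \ Hv z, Hb := by
          refine Finset.sum_le_sum fun c hc => ?_
          have h2 := (Finset.mem_sdiff.1 hc).2
          rw [hHv, mem_filter] at h2
          push Not at h2
          exact h2 (mem_univ _)
      _ = ((o z e).2 \ Hv z).card * Hb := by rw [Finset.sum_const, smul_eq_mul]
      _ ≤ t * Hb := Nat.mul_le_mul_right _
          ((Finset.card_le_card Finset.sdiff_subset).trans (hocard z e))
  set w : (Fin k → α) × (Fin k → α) → Fin k × Fin k → ℝ := fun z e =>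
    wt2 L ε (d (z.1 e.1) (z.2 e.2) = true) ((o z e).1 ≠ some (!(d (z.1 e.1) (z.2 e.2)))) with hw
  have hl : 0 < Real.log L := Real.log_pos hL
  have hl2 : 0 < Real.log 2 := Real.log_pos (by norm_num)
  have hwL : ∀ z e, w z e ≤ Real.log L := by
    intro z e
    simp only [hw, wt2]
    split_ifs <;> linarith
  have hwlog : ∀ z e, w z e ≤ Real.log (Real.exp (-ε) * kk L (1 / 2) d (o z e).1
      (z.1 e.1) (z.2 e.2)) := by
    intro z e
    have hL0 : L ≠ 0 := by linarith
    simp only [hw, wt2]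
    unfold kk
    by_cases hg : (o z e).1 = some (!(d (z.1 e.1) (z.2 e.2)))
    · rw [if_pos hg, if_neg (not_not.2 hg)]
      by_cases hd : d (z.1 e.1) (z.2 e.2) = true
      · rw [if_pos hd, if_pos hd, Real.log_mul (Real.exp_pos _).ne' hL0, Real.log_exp]
        linarith
      · rw [if_neg hd, if_neg hd, mul_one, Real.log_exp]
        linarith
    · rw [if_neg hg, if_pos hg, Real.log_mul (Real.exp_pos _).ne' (by norm_num), Real.log_exp]
      have h2 : Real.log (1 / 2) = - Real.log 2 := by rw [one_div, Real.log_inv]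
      rw [h2]
      split_ifs <;> linarith
  -- for one sample
  have hsample : ∀ ω : (Fin S ⊕ ((Fin k × Fin k) × Fin t)) → Fin (m + 1),
      ∑ z, ((∑ e, if sv (B z) ω e then w z e else 0) - Real.log L *
        (((univ.filter fun e : Fin k × Fin k => sv (B z) ω e ∧
        (D < (univ.filter fun e' : Fin k × Fin k => e'.1 = e.1 ∧ sv (B z) ω e').card ∨
         D < (univ.filter fun e' : Fin k × Fin k => e'.2 = e.2 ∧ sv (B z) ω e').card)).card :
          ℕ) : ℝ)) ≤
      Zc * (Real.log 2 + (h : ℝ) * Real.log ((S * V + 1 : ℕ) : ℝ) +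
        (∑ c : Fin S, if ω (Sum.inl c) = 0 then (1 : ℝ) else 0) * Real.log V +
        2 * k * Real.log 2 + Real.log r) := by
    intro ω
    set C0 : Finset (Fin S) := univ.filter fun c => ω (Sum.inl c) = 0 with hC0
    set P : Fin k × Fin k → Finset (Fin S) → Finset (Fin S) → Bool := fun e H acc =>
      decide (∀ y ∈ Bs t e (acc \ H), ω y = 0) with hP
    set Sv : (Fin k → α) × (Fin k → α) → Fin k × Fin k → Bool := fun z e =>
      P e (Hv z) (o z e).2 with hSv
    have hSvsv : ∀ z e, Sv z e = true ↔ sv (B z) ω e := by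
      intro z e
      simp only [hSv, hP, sv, hB, decide_eq_true_eq]
    set R : (Fin k → α) × (Fin k → α) → Finset (Fin k) := fun z =>
      univ.filter fun i => (univ.filter fun e : Fin k × Fin k => e.1 = i ∧ Sv z e = true).card ≤ D
      with hR
    set C : (Fin k → α) × (Fin k → α) → Finset (Fin k) := fun z =>
      univ.filter fun i => (univ.filter fun e : Fin k × Fin k => e.2 = i ∧ Sv z e = true).card ≤ D
      with hC
    have hadv := advice L ε hL.le d q a a' φ T t D h v0 P C0 (by
        intro e H acc hacc c hc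
        simp only [hP, decide_eq_true_eq] at hacc
        rw [mem_union]
        by_cases hcH : c ∈ H
        · exact Or.inr hcH
        · left
          rw [hC0, mem_filter]
          refine ⟨mem_univ _, hacc _ ?_⟩
          unfold Bs
          rw [mem_union, mem_image]
          exact Or.inl ⟨c, Finset.mem_sdiff.2 ⟨hc, hcH⟩, rfl⟩)
      J Hv hHvcard (hSC P) Sv (fun z e => rfl) R C
      (by
        intro z i hi
        rw [hR, mem_filter] at hi
        exact hi.2)
      (by
        intro z i hi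
        rw [hC, mem_filter] at hi
        exact hi.2)
    rw [← hZc] at hadv
    -- the right side
    have hright : Real.log (2 * (((Fintype.card (Code S V k h C0) : ℕ) : ℝ) * ((r : ℕ) : ℝ))) =
        Real.log 2 + (h : ℝ) * Real.log ((S * V + 1 : ℕ) : ℝ) +
        (∑ c : Fin S, if ω (Sum.inl c) = 0 then (1 : ℝ) else 0) * Real.log V +
        2 * k * Real.log 2 + Real.log r := by
      have hr : (0 : ℝ) < r := by
        have z0 : (Fin k → α) × (Fin k → α) := Classical.arbitrary _
        have : 0 < r := lt_of_le_of_lt (Nat.zero_le _) (φ z0).2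
        exact_mod_cast this
      have hV : (0 : ℝ) < V := by
        have : 0 < V := lt_of_le_of_lt (Nat.zero_le _) v0.2
        exact_mod_cast this
      have hcnt : (∑ c : Fin S, if ω (Sum.inl c) = 0 then (1 : ℝ) else 0) = (C0.card : ℝ) := by
        rw [hC0, Finset.card_filter]
        push_cast
        rfl
      rw [hcnt, code_card]
      push_cast
      rw [Real.log_mul (by norm_num) (by positivity), Real.log_mul (by positivity) (by positivity),
        Real.log_mul (by positivity) (by positivity), Real.log_mul (by positivity) (by positivity),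
        Real.log_mul (by positivity) (by positivity),
        Real.log_pow, Real.log_pow, Real.log_pow]
      ring
    rw [hright] at hadv
    refine le_trans (Finset.sum_le_sum fun z _ => ?_) hadv
    -- the left side, for one input
    have hlost : (((univ.filter fun e : Fin k × Fin k => sv (B z) ω e ∧
        (D < (univ.filter fun e' : Fin k × Fin k => e'.1 = e.1 ∧ sv (B z) ω e').card ∨
         D < (univ.filter fun e' : Fin k × Fin k => e'.2 = e.2 ∧ sv (B z) ω e').card)).card :
          ℕ) : ℝ) = ∑ e : Fin k × Fin k, (if sv (B z) ω e ∧ e ∉ R z ×ˢ C z then (1 : ℝ) else 0) := by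
      rw [Finset.card_filter]
      push_cast
      refine Finset.sum_congr rfl fun e _ => ?_
      have h1 : (D < (univ.filter fun e' : Fin k × Fin k => e'.1 = e.1 ∧ sv (B z) ω e').card ∨
         D < (univ.filter fun e' : Fin k × Fin k => e'.2 = e.2 ∧ sv (B z) ω e').card) ↔
         e ∉ R z ×ˢ C z := by
        have e1 : (univ.filter fun e' : Fin k × Fin k => e'.1 = e.1 ∧ sv (B z) ω e') =
            (univ.filter fun e' : Fin k × Fin k => e'.1 = e.1 ∧ Sv z e' = true) := by
          refine Finset.filter_congr fun e' _ => ?_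
          rw [hSvsv]
        have e2 : (univ.filter fun e' : Fin k × Fin k => e'.2 = e.2 ∧ sv (B z) ω e') =
            (univ.filter fun e' : Fin k × Fin k => e'.2 = e.2 ∧ Sv z e' = true) := by
          refine Finset.filter_congr fun e' _ => ?_
          rw [hSvsv]
        rw [e1, e2, mem_product, not_and_or, hR, hC, mem_filter, mem_filter]
        simp only [mem_univ, true_and, not_le]
      by_cases h2 : sv (B z) ω e
      · by_cases h3 : e ∉ R z ×ˢ C z
        · rw [if_pos ⟨h2, h1.2 h3⟩, if_pos ⟨h2, h3⟩]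
        · rw [if_neg (fun h4 => h3 (h1.1 h4.2)), if_neg (fun h4 => h3 h4.2)]
      · rw [if_neg (fun h4 => h2 h4.1), if_neg (fun h4 => h2 h4.1)]
    rw [hlost, Finset.mul_sum, ← Finset.sum_sub_distrib, Finset.sum_filter]
    have hprod : ∑ e ∈ R z ×ˢ C z, (if Sv z e = true then Real.log (Real.exp (-ε) *
        kk L (1 / 2) d ((q (φ z) e.1 e.2).run (J z) (a (φ z) e.1 (z.1 e.1))
          (a' (φ z) e.2 (z.2 e.2)) T t ∅).1 (z.1 e.1) (z.2 e.2)) else 0) =
        ∑ e : Fin k × Fin k, (if e ∈ R z ×ˢ C z then (if Sv z e = true then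
        Real.log (Real.exp (-ε) * kk L (1 / 2) d (o z e).1 (z.1 e.1) (z.2 e.2)) else 0) else 0) := by
      symm
      rw [Finset.sum_ite_mem, Finset.univ_inter]
    rw [hprod]
    refine Finset.sum_le_sum fun e _ => ?_
    by_cases h2 : sv (B z) ω e
    · rw [if_pos h2]
      by_cases h3 : e ∈ R z ×ˢ C z
      · rw [if_neg (fun h4 => h4.2 h3), if_pos h3, if_pos ((hSvsv z e).2 h2), mul_zero, sub_zero]
        exact hwlog z e
      · rw [if_pos ⟨h2, h3⟩, if_neg h3, mul_one]
        linarith [hwL z e]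
    · rw [if_neg h2, if_neg (fun h4 => h2 h4.1), mul_zero, sub_zero]
      by_cases h3 : e ∈ R z ×ˢ C z
      · rw [if_pos h3, if_neg (fun h4 => h2 ((hSvsv z e).1 h4))]
      · rw [if_neg h3]
  -- the sum over the samples
  set Nω : ℝ := ((Fintype.card ((Fin S ⊕ ((Fin k × Fin k) × Fin t)) → Fin (m + 1)) : ℕ) : ℝ)
    with hNω
  have hNω0 : 0 < Nω := by
    rw [hNω]
    exact_mod_cast Fintype.card_pos
  have hleft : Nω * ((∑ z, ∑ e, w z e) / ((m : ℝ) + 1) ^ t) - Real.log L * (Zc * (Nω *
      (2 * (k : ℝ) ^ 2 * ((k : ℝ) / ((m : ℝ) + 1) ^ (2 * t) +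
        ((1 + t * Hb : ℕ) : ℝ) / ((m : ℝ) + 1) ^ t)) / D)) ≤
      ∑ ω : (Fin S ⊕ ((Fin k × Fin k) × Fin t)) → Fin (m + 1),
      ∑ z, ((∑ e, if sv (B z) ω e then w z e else 0) - Real.log L *
        (((univ.filter fun e : Fin k × Fin k => sv (B z) ω e ∧
        (D < (univ.filter fun e' : Fin k × Fin k => e'.1 = e.1 ∧ sv (B z) ω e').card ∨
         D < (univ.filter fun e' : Fin k × Fin k => e'.2 = e.2 ∧ sv (B z) ω e').card)).card :
          ℕ) : ℝ)) := by
    conv_rhs => rw [Finset.sum_comm]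
    have h1 : ∀ z : (Fin k → α) × (Fin k → α), Nω * ((∑ e, w z e) / ((m : ℝ) + 1) ^ t) -
        Real.log L * (Nω * (2 * (k : ℝ) ^ 2 * ((k : ℝ) / ((m : ℝ) + 1) ^ (2 * t) +
        ((1 + t * Hb : ℕ) : ℝ) / ((m : ℝ) + 1) ^ t)) / D) ≤
        ∑ ω : (Fin S ⊕ ((Fin k × Fin k) × Fin t)) → Fin (m + 1),
        ((∑ e, if sv (B z) ω e then w z e else 0) - Real.log L *
        (((univ.filter fun e : Fin k × Fin k => sv (B z) ω e ∧
        (D < (univ.filter fun e' : Fin k × Fin k => e'.1 = e.1 ∧ sv (B z) ω e').card ∨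
         D < (univ.filter fun e' : Fin k × Fin k => e'.2 = e.2 ∧ sv (B z) ω e').card)).card :
          ℕ) : ℝ)) := by
      intro z
      rw [Finset.sum_sub_distrib, ← Finset.mul_sum, sum_sv m t (B z) (hBcard z) (w z), ← hNω]
      have h2 := lost_bound m t D (1 + t * Hb) (B z) (hBcard z) (hdis z)
      rw [← hNω] at h2
      have h3 : (∑ ω : (Fin S ⊕ ((Fin k × Fin k) × Fin t)) → Fin (m + 1),
        (((univ.filter fun e : Fin k × Fin k => sv (B z) ω e ∧
        (D < (univ.filter fun e' : Fin k × Fin k => e'.1 = e.1 ∧ sv (B z) ω e').card ∨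
         D < (univ.filter fun e' : Fin k × Fin k => e'.2 = e.2 ∧ sv (B z) ω e').card)).card :
          ℕ) : ℝ)) ≤ Nω * (2 * (k : ℝ) ^ 2 * ((k : ℝ) / ((m : ℝ) + 1) ^ (2 * t) +
        ((1 + t * Hb : ℕ) : ℝ) / ((m : ℝ) + 1) ^ t)) / D := by
        rw [le_div_iff₀ (by exact_mod_cast hD)]
        exact h2
      have h4 := mul_le_mul_of_nonneg_left h3 hl.le
      linarith
    refine le_trans (le_of_eq ?_) (Finset.sum_le_sum fun z _ => h1 z)
    rw [Finset.sum_sub_distrib, ← Finset.mul_sum, ← Finset.sum_div, Finset.sum_const,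
      Finset.card_univ, nsmul_eq_mul, ← hZc]
    ring
  have hrightsum : ∑ ω : (Fin S ⊕ ((Fin k × Fin k) × Fin t)) → Fin (m + 1),
      Zc * (Real.log 2 + (h : ℝ) * Real.log ((S * V + 1 : ℕ) : ℝ) +
        (∑ c : Fin S, if ω (Sum.inl c) = 0 then (1 : ℝ) else 0) * Real.log V +
        2 * k * Real.log 2 + Real.log r) =
      Nω * (Zc * (Real.log 2 + (h : ℝ) * Real.log ((S * V + 1 : ℕ) : ℝ) +
        (S : ℝ) / ((m : ℝ) + 1) * Real.log V + 2 * k * Real.log 2 + Real.log r)) := by
    have h1 : ∑ ω : (Fin S ⊕ ((Fin k × Fin k) × Fin t)) → Fin (m + 1),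
        (∑ c : Fin S, if ω (Sum.inl c) = 0 then (1 : ℝ) else 0) =
        Nω * ((S : ℝ) / ((m : ℝ) + 1)) := by
      rw [Finset.sum_comm]
      have h2 : ∀ c : Fin S, ∑ ω : (Fin S ⊕ ((Fin k × Fin k) × Fin t)) → Fin (m + 1),
          (if ω (Sum.inl c) = 0 then (1 : ℝ) else 0) = Nω / ((m : ℝ) + 1) := by
        intro c
        have h3 := count_zero m ({Sum.inl c} : Finset (Fin S ⊕ ((Fin k × Fin k) × Fin t)))
        rw [Finset.card_singleton, pow_one, ← hNω] at h3
        rw [eq_div_iff hm.ne', mul_comm, ← h3]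
        congr 1
        refine Finset.sum_congr rfl fun ω _ => ?_
        simp only [Finset.mem_singleton, forall_eq]
      simp_rw [h2]
      rw [Finset.sum_const, Finset.card_univ, Fintype.card_fin, nsmul_eq_mul]
      ring
    rw [← Finset.mul_sum, Finset.sum_add_distrib, Finset.sum_add_distrib,
      Finset.sum_add_distrib, ← Finset.sum_mul, h1,
      Finset.sum_const, Finset.sum_const, Finset.sum_const, Finset.card_univ, nsmul_eq_mul,
      nsmul_eq_mul, nsmul_eq_mul, ← hNω]
    ring
  have hall := hleft.trans ((Finset.sum_le_sum fun ω _ => hsample ω).trans (le_of_eq hrightsum))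
  have hfin : Nω * ((∑ z, ∑ e, w z e) / ((m : ℝ) + 1) ^ t) ≤
      Nω * (Zc * (Real.log L * (2 * (k : ℝ) ^ 2 *
          ((k : ℝ) / ((m : ℝ) + 1) ^ (2 * t) + ((1 + t * Hb : ℕ) : ℝ) / ((m : ℝ) + 1) ^ t)) / D +
        (Real.log 2 + (h : ℝ) * Real.log ((S * V + 1 : ℕ) : ℝ) +
          (S : ℝ) / ((m : ℝ) + 1) * Real.log V + 2 * k * Real.log 2 + Real.log r))) := by
    have e1 : Real.log L * (Zc * (Nω *
      (2 * (k : ℝ) ^ 2 * ((k : ℝ) / ((m : ℝ) + 1) ^ (2 * t) +
        ((1 + t * Hb : ℕ) : ℝ) / ((m : ℝ) + 1) ^ t)) / D)) =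
      Nω * (Zc * (Real.log L * (2 * (k : ℝ) ^ 2 *
          ((k : ℝ) / ((m : ℝ) + 1) ^ (2 * t) +
            ((1 + t * Hb : ℕ) : ℝ) / ((m : ℝ) + 1) ^ t)) / D)) := by ring
    rw [e1] at hall
    linarith
  exact le_of_mul_le_mul_left hfin hNω0

end Pool.Agent.T2h38.JM
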