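import Mathlib

/-! Counting lemmas and numerical facts. -/

namespace Pool.Agent.T2h38.JM

open Finset

/-- An average over the coins is at least the minimum. -/
theorem exists_le_avg {ι : Type} [Fintype ι] (pr : ι → ℝ) (h0 : ∀ c, 0 ≤ pr c)
    (h1 : ∑ c, pr c = 1) (V : ι → ℝ) (x : ℝ) (h : ∑ c, pr c * V c ≤ x) : ∃ c, V c ≤ x := by
  by_contra hcon
  push Not at hcon
  have h2 : ∑ c, pr c * (V c - x) ≤ 0 := by
    have : ∑ c, pr c * (V c - x) = ∑ c, pr c * V c - (∑ c, pr c) * x := by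
      rw [Finset.sum_mul, ← Finset.sum_sub_distrib]
      exact Finset.sum_congr rfl fun c _ => by ring
    rw [this, h1]
    linarith
  have h3 : ∀ c ∈ (Finset.univ : Finset ι), 0 ≤ pr c * (V c - x) := fun c _ =>
    mul_nonneg (h0 c) (by linarith [hcon c])
  have h4 : ∑ c, pr c * (V c - x) = 0 := le_antisymm h2 (Finset.sum_nonneg h3)
  rw [Finset.sum_eq_zero_iff_of_nonneg h3] at h4
  have h5 : ∀ c, pr c = 0 := by
    intro c
    rcases mul_eq_zero.1 (h4 c (Finset.mem_univ c)) with h | h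
    · exact h
    · exact absurd h (by linarith [hcon c])
  rw [Finset.sum_eq_zero (fun c _ => h5 c)] at h1
  exact zero_ne_one h1

/-- Many inputs have many disjoint pairs and few bad pairs. -/
theorem count_good {Z P : Type} [Fintype Z] [Fintype P] (nb nd : Z → ℝ)
    (hP : 0 < (Fintype.card P : ℝ)) (hnb : ∀ z, 0 ≤ nb z)
    (hndP : ∀ z, nd z ≤ Fintype.card P)
    (hbad : ∑ z, nb z ≤ 1 / 200000 * (Fintype.card P * Fintype.card Z))
    (hdis : (Fintype.card P : ℝ) * Fintype.card Z / 4 ≤ ∑ z, nd z) :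
    (Fintype.card Z : ℝ) / 14 ≤ ((univ.filter fun z : Z =>
      (Fintype.card P : ℝ) / 8 ≤ nd z ∧ nb z ≤ (Fintype.card P : ℝ) / 10000).card : ℝ) := by
  classical
  set p : ℝ := (Fintype.card P : ℝ) with hp
  set M : ℝ := (Fintype.card Z : ℝ) with hM
  have hA : M / 7 ≤ ((univ.filter fun z : Z => p / 8 ≤ nd z).card : ℝ) := by
    set a : ℝ := ((univ.filter fun z : Z => p / 8 ≤ nd z).card : ℝ) with ha
    have h1 : ∑ z, nd z ≤ ∑ z : Z, (p / 8 + if p / 8 ≤ nd z then p * (7 / 8) else 0) := by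
      refine Finset.sum_le_sum fun z _ => ?_
      split_ifs with h
      · have := hndP z
        linarith
      · push Not at h
        linarith
    rw [Finset.sum_add_distrib, Finset.sum_const, ← Finset.sum_filter, Finset.sum_const,
      nsmul_eq_mul, nsmul_eq_mul, Finset.card_univ, ← ha, ← hM] at h1
    have h2 : p * M / 4 ≤ M * (p / 8) + a * (p * (7 / 8)) := hdis.trans h1
    have h3 : p * (M / 7) ≤ p * a := by linarith
    exact le_of_mul_le_mul_left h3 hP
  have hB : ((univ.filter fun z : Z => p / 10000 < nb z).card : ℝ) ≤ M / 20 := by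
    set a : ℝ := ((univ.filter fun z : Z => p / 10000 < nb z).card : ℝ) with ha
    have h1 : a * (p / 10000) ≤ ∑ z, nb z := by
      calc a * (p / 10000) = ∑ z ∈ univ.filter (fun z : Z => p / 10000 < nb z), p / 10000 := by
            rw [Finset.sum_const, nsmul_eq_mul]
        _ ≤ ∑ z ∈ univ.filter (fun z : Z => p / 10000 < nb z), nb z := by
            refine Finset.sum_le_sum fun z hz => ?_
            rw [mem_filter] at hz
            exact hz.2.le
        _ ≤ ∑ z, nb z := Finset.sum_le_sum_of_subset_of_nonneg (Finset.filter_subset _ _)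
            (fun z _ _ => hnb z)
    have h2 : a * (p / 10000) ≤ 1 / 200000 * (p * M) := h1.trans hbad
    have h3 : p * a ≤ p * (M / 20) := by linarith
    exact le_of_mul_le_mul_left h3 hP
  have hsub : (univ.filter fun z : Z => p / 8 ≤ nd z) ⊆
      (univ.filter fun z : Z => p / 8 ≤ nd z ∧ nb z ≤ p / 10000) ∪
      (univ.filter fun z : Z => p / 10000 < nb z) := by
    intro z hz
    rw [mem_filter] at hz
    rw [mem_union, mem_filter, mem_filter]
    by_cases h : nb z ≤ p / 10000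
    · exact Or.inl ⟨mem_univ _, hz.2, h⟩
    · exact Or.inr ⟨mem_univ _, not_le.1 h⟩
  have h1 := (card_le_card hsub).trans (card_union_le _ _)
  have h2 : ((univ.filter fun z : Z => p / 8 ≤ nd z).card : ℝ) ≤
      ((univ.filter fun z : Z => p / 8 ≤ nd z ∧ nb z ≤ p / 10000).card : ℝ) +
      ((univ.filter fun z : Z => p / 10000 < nb z).card : ℝ) := by exact_mod_cast h1
  have hM0 : 0 ≤ M := by rw [hM]; positivity
  linarith

/-- The lower bound for the product of the weights. -/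
theorem prod_ge {P : Type} [Fintype P] (L : ℝ) (hL : 1 < L) (bad dis : P → Prop)
    [DecidablePred bad] [DecidablePred dis] :
    Real.exp (((univ.filter dis).card : ℝ) * Real.log L -
      ((univ.filter bad).card : ℝ) * (Real.log L + Real.log 2)) ≤
      ∏ e : P, (if bad e then (1 / 2 : ℝ) else if dis e then L else 1) := by
  have hl : 0 < Real.log L := Real.log_pos hL
  have hl2 : 0 < Real.log 2 := Real.log_pos (by norm_num)
  have e1 : ∀ e : P, (if bad e then (1 / 2 : ℝ) else if dis e then L else 1) =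
      Real.exp (if bad e then - Real.log 2 else if dis e then Real.log L else 0) := by
    intro e
    split_ifs
    · rw [Real.exp_neg, Real.exp_log (by norm_num), one_div]
    · rw [Real.exp_log (by linarith)]
    · rw [Real.exp_zero]
  simp_rw [e1]
  rw [← Real.exp_sum]
  apply Real.exp_le_exp.2
  have e2 : ((univ.filter dis).card : ℝ) * Real.log L -
      ((univ.filter bad).card : ℝ) * (Real.log L + Real.log 2) =
      ∑ e : P, ((if dis e then Real.log L else 0) -
        (if bad e then Real.log L + Real.log 2 else 0)) := by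
    rw [Finset.sum_sub_distrib, ← Finset.sum_filter, ← Finset.sum_filter, Finset.sum_const,
      Finset.sum_const, nsmul_eq_mul, nsmul_eq_mul]
  rw [e2]
  refine Finset.sum_le_sum fun e _ => ?_
  split_ifs <;> linarith

/-- The weight condition. -/
theorem weight_num : (1 / 2 : ℝ) + ((1 + 1 / 160) - 1 / 2) * Real.exp (-1 / 80) ≤ 1 := by
  have h := Real.quadratic_le_exp_of_nonneg (x := 1 / 80) (by norm_num)
  have h1 : Real.exp (-1 / 80) = 1 / Real.exp (1 / 80) := by
    rw [neg_div, Real.exp_neg, ← one_div (Real.exp (1 / 80))]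
  rw [h1]
  have h2 : 1 / Real.exp (1 / 80) ≤ 1 / (1 + 1 / 80 + (1 / 80) ^ 2 / 2) :=
    one_div_le_one_div_of_le (by norm_num) h
  have h3 : ((1 + 1 / 160) - 1 / 2 : ℝ) * (1 / Real.exp (1 / 80)) ≤
      ((1 + 1 / 160) - 1 / 2) * (1 / (1 + 1 / 80 + (1 / 80) ^ 2 / 2)) :=
    mul_le_mul_of_nonneg_left h2 (by norm_num)
  have h4 : ((1 + 1 / 160) - 1 / 2 : ℝ) * (1 / (1 + 1 / 80 + (1 / 80) ^ 2 / 2)) ≤ 1 / 2 := by
    norm_num
  linarith

/-- The last step: the exponents. `m` is the number of pairs. -/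
theorem num_final (m r : ℕ) (n k b : ℝ) (hn : 0 < n) (hbn : 10000 * b ≤ n)
    (hkn : 150 * k ≤ n) (M : ℝ) (hM : 0 < M)
    (h : M / 14 * Real.exp ((m : ℝ) / 8 * Real.log (1 + 1 / 160) -
      (m : ℝ) / 10000 * (Real.log (1 + 1 / 160) + Real.log 2)) ≤
      (2 : ℝ) ^ r * (Real.exp ((m : ℝ) * (b / (n + 1) * Real.log 2 +
        2 * (k / (n + 1) * Real.log (1 + 1 / 160)))) * M)) :
    (m : ℝ) ≤ 6000 * (r + 1) := by
  set l := Real.log (1 + 1 / 160) with hl
  have hm0 : (0 : ℝ) ≤ m := by positivity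
  have hll : 1 / 161 ≤ l := by
    have := Real.one_sub_inv_le_log_of_pos (x := 1 + 1 / 160) (by norm_num)
    rw [← hl] at this
    norm_num at this ⊢
    linarith
  have hl2 := Real.log_two_lt_d9
  have hl2' := Real.log_two_gt_d9
  have h1 : (2 : ℝ) ^ r = Real.exp (r * Real.log 2) := by
    rw [Real.exp_nat_mul, Real.exp_log (by norm_num)]
  have hb1 : b / (n + 1) ≤ 1 / 10000 := by
    rw [div_le_div_iff₀ (by linarith) (by norm_num)]
    linarith
  have hk1 : k / (n + 1) ≤ 1 / 150 := by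
    rw [div_le_div_iff₀ (by linarith) (by norm_num)]
    linarith
  have h14 : (14 : ℝ) ≤ Real.exp 3 := by
    have h2 := Real.exp_one_gt_d9
    have h3 : Real.exp 3 = Real.exp 1 ^ 3 := by
      rw [← Real.exp_nat_mul]
      norm_num
    rw [h3]
    have h4 : (2.7 : ℝ) ^ 3 ≤ Real.exp 1 ^ 3 := pow_le_pow_left₀ (by norm_num) (by linarith) 3
    norm_num at h4
    linarith
  have h5 : Real.exp ((m : ℝ) / 8 * l - (m : ℝ) / 10000 * (l + Real.log 2)) ≤
      Real.exp (3 + r * Real.log 2 + (m : ℝ) * (b / (n + 1) * Real.log 2 +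
        2 * (k / (n + 1) * l))) := by
    rw [Real.exp_add, Real.exp_add]
    rw [h1] at h
    set E1 := Real.exp ((m : ℝ) / 8 * l - (m : ℝ) / 10000 * (l + Real.log 2))
    set E2 := Real.exp ((m : ℝ) * (b / (n + 1) * Real.log 2 + 2 * (k / (n + 1) * l)))
    set E3 := Real.exp (r * Real.log 2)
    have hE2 : 0 < E2 := Real.exp_pos _
    have hE3 : 0 < E3 := Real.exp_pos _
    have h6 : M * E1 ≤ M * (14 * (E3 * E2)) := by
      calc M * E1 = 14 * (M / 14 * E1) := by ring
        _ ≤ 14 * (E3 * (E2 * M)) := mul_le_mul_of_nonneg_left h (by norm_num)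
        _ = _ := by ring
    have h7 := le_of_mul_le_mul_left h6 hM
    calc E1 ≤ 14 * (E3 * E2) := h7
      _ ≤ Real.exp 3 * (E3 * E2) := mul_le_mul_of_nonneg_right h14 (by positivity)
      _ = _ := by ring
  have h6 := Real.exp_le_exp.1 h5
  have h7 : (m : ℝ) * (b / (n + 1) * Real.log 2 + 2 * (k / (n + 1) * l)) ≤
      (m : ℝ) * (1 / 10000 * Real.log 2 + 2 * (1 / 150 * l)) := by
    refine mul_le_mul_of_nonneg_left ?_ hm0
    have a1 : b / (n + 1) * Real.log 2 ≤ 1 / 10000 * Real.log 2 :=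
      mul_le_mul_of_nonneg_right hb1 (by linarith)
    have a2 : k / (n + 1) * l ≤ 1 / 150 * l :=
      mul_le_mul_of_nonneg_right hk1 (by linarith)
    linarith
  have h8 : (m : ℝ) * ((1 / 8 - 1 / 10000 - 1 / 75) * l - Real.log 2 / 5000) ≤
      3 + r * Real.log 2 := by nlinarith
  have h9 : (1 / 2000 : ℝ) ≤ (1 / 8 - 1 / 10000 - 1 / 75) * l - Real.log 2 / 5000 := by
    linarith
  have h10 : (m : ℝ) * (1 / 2000) ≤ 3 + r * Real.log 2 :=
    (mul_le_mul_of_nonneg_left h9 hm0).trans h8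
  have h11 : (r : ℝ) * Real.log 2 ≤ r * 3 :=
    mul_le_mul_of_nonneg_left (by linarith) (by positivity)
  linarith

/-- `(n-1)^n ≥ n^n / 4` for `n ≥ 2`. -/
theorem quarter (n : ℕ) (hn : 2 ≤ n) : (n : ℝ) ^ n / 4 ≤ ((n : ℝ) - 1) ^ n := by
  have hn0 : (0 : ℝ) < n := by positivity
  have hn2 : (2 : ℝ) ≤ n := by exact_mod_cast hn
  have hi : 1 / (n : ℝ) ≤ 1 / 2 := one_div_le_one_div_of_le (by norm_num) hn2
  have hi0 : 0 < 1 / (n : ℝ) := by positivity
  have h1 := one_add_mul_self_le_rpow_one_add (s := -(1 / (n : ℝ))) (by linarith)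
    (p := (n : ℝ) / 2) (by linarith)
  have e1 : 1 + (n : ℝ) / 2 * -(1 / (n : ℝ)) = 1 / 2 := by
    field_simp
    norm_num
  rw [e1] at h1
  have h0 : 0 ≤ 1 + -(1 / (n : ℝ)) := by linarith
  have h2 : (1 + -(1 / (n : ℝ))) ^ n = ((1 + -(1 / (n : ℝ))) ^ ((n : ℝ) / 2)) ^ 2 := by
    rw [← Real.rpow_natCast, ← Real.rpow_natCast, ← Real.rpow_mul h0]
    congr 1
    push_cast
    ring
  have h3 : (1 / 4 : ℝ) ≤ (1 + -(1 / (n : ℝ))) ^ n := by
    rw [h2]
    nlinarith [h1]
  have h4 : ((n : ℝ) - 1) = n * (1 + -(1 / (n : ℝ))) := by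
    field_simp
    ring
  rw [h4, mul_pow]
  have h5 : (0 : ℝ) ≤ (n : ℝ) ^ n := by positivity
  calc (n : ℝ) ^ n / 4 = (n : ℝ) ^ n * (1 / 4) := by ring
    _ ≤ _ := mul_le_mul_of_nonneg_left h3 h5

/-- The number of disjoint pairs of functions. -/
theorem sum_disj (n : ℕ) (hn : 2 ≤ n) :
    ((Fintype.card (Fin n → Fin n) : ℕ) : ℝ) * (Fintype.card (Fin n → Fin n) : ℕ) / 4 ≤
      ∑ x : Fin n → Fin n, ∑ y : Fin n → Fin n, (if ∀ i, x i ≠ y i then (1 : ℝ) else 0) := by
  have h1 : ∀ x : Fin n → Fin n, ∑ y : Fin n → Fin n, (if ∀ i, x i ≠ y i then (1 : ℝ) else 0) =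
      ((n : ℝ) - 1) ^ n := by
    intro x
    have h2 : ∀ y : Fin n → Fin n, (if ∀ i, x i ≠ y i then (1 : ℝ) else 0) =
        ∏ i, (if x i = y i then (0 : ℝ) else 1) := by
      intro y
      by_cases hd : ∀ i, x i ≠ y i
      · rw [if_pos hd]
        exact (Finset.prod_eq_one fun i _ => if_neg (hd i)).symm
      · rw [if_neg hd]
        push Not at hd
        obtain ⟨i, hi⟩ := hd
        symm
        exact Finset.prod_eq_zero (Finset.mem_univ i) (if_pos hi)
    simp_rw [h2]
    have h3 := Finset.prod_univ_sum (fun _ : Fin n => (Finset.univ : Finset (Fin n)))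
      (fun i b => (if x i = b then (0 : ℝ) else 1))
    rw [Fintype.piFinset_univ] at h3
    rw [← h3]
    have h4 : ∀ i : Fin n, ∑ b : Fin n, (if x i = b then (0 : ℝ) else 1) = (n : ℝ) - 1 := by
      intro i
      have h5 : ∀ b : Fin n, (if x i = b then (0 : ℝ) else 1) = 1 - if x i = b then 1 else 0 := by
        intro b
        split_ifs <;> norm_num
      simp_rw [h5]
      rw [Finset.sum_sub_distrib]
      simp
    simp_rw [h4]
    simp
  simp_rw [h1]
  rw [Finset.sum_const, nsmul_eq_mul, Finset.card_univ]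
  have h6 := quarter n hn
  rw [Fintype.card_fun, Fintype.card_fin]
  push_cast
  have h7 : (0 : ℝ) ≤ (n : ℝ) ^ n := by positivity
  calc (n : ℝ) ^ n * (n : ℝ) ^ n / 4 = (n : ℝ) ^ n * ((n : ℝ) ^ n / 4) := by ring
    _ ≤ _ := mul_le_mul_of_nonneg_left h6 h7

end Pool.Agent.T2h38.JM
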