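import Mathlib
import Pool.Agent.T2h38.JM.Multi
import Pool.Agent.T2h38.JM.Grid
import Pool.Agent.T2h38.JM.Count

/-! The core inequality, for fixed coins and groups of `d` sets. -/

namespace Pool.Agent.T2h38.JM

open Finset

/-- The functions `x` and `y` differ everywhere. -/
def dj {n : ℕ} (x y : Fin n → Fin n) : Bool := decide (∀ i, x i ≠ y i)

/-- The bound of the base. -/
theorem base_le (n : ℕ) (W T b k : ℕ) (L : ℝ) (hL : 1 ≤ L) (hWT : W ^ T ≤ 2 ^ b)
    (p : ℝ) (hn : 1 ≤ n) (hp : p = 1 + 1 / (n : ℝ)) (m : ℕ) :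
    (((W : ℝ) ^ (1 - 1 / p)) ^ T * ((L ^ k) ^ (1 - 1 / p) * (L ^ k) ^ (1 - 1 / p))) ^ m ≤
      Real.exp ((m : ℝ) * ((b : ℝ) / (n + 1) * Real.log 2 +
        2 * ((k : ℝ) / (n + 1) * Real.log L))) := by
  have hn0 : (0 : ℝ) < n := by exact_mod_cast hn
  have hL0 : 0 < L := by linarith
  have he : 1 - 1 / p = 1 / ((n : ℝ) + 1) := by
    rw [hp]
    field_simp
    ring
  rw [he]
  have h1 : ((W : ℝ) ^ (1 / ((n : ℝ) + 1))) ^ T ≤ Real.exp ((b : ℝ) / (n + 1) * Real.log 2) := by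
    rw [← Real.rpow_natCast ((W : ℝ) ^ (1 / ((n : ℝ) + 1))), ← Real.rpow_mul (by positivity),
      mul_comm, Real.rpow_mul (by positivity), Real.rpow_natCast]
    have h2 : (W : ℝ) ^ T ≤ (2 : ℝ) ^ b := by exact_mod_cast hWT
    calc ((W : ℝ) ^ T) ^ (1 / ((n : ℝ) + 1)) ≤ ((2 : ℝ) ^ b) ^ (1 / ((n : ℝ) + 1)) :=
          Real.rpow_le_rpow (by positivity) h2 (by positivity)
      _ = Real.exp ((b : ℝ) / (n + 1) * Real.log 2) := by
          rw [Real.rpow_def_of_pos (by positivity), Real.log_pow]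
          congr 1
          ring
  have h2 : (L ^ k) ^ (1 / ((n : ℝ) + 1)) = Real.exp ((k : ℝ) / (n + 1) * Real.log L) := by
    rw [Real.rpow_def_of_pos (by positivity), Real.log_pow]
    congr 1
    ring
  rw [h2, Real.exp_nat_mul]
  refine pow_le_pow_left₀ (by positivity) ?_ m
  rw [Real.exp_add]
  have h3 : Real.exp (2 * ((k : ℝ) / (n + 1) * Real.log L)) =
      Real.exp ((k : ℝ) / (n + 1) * Real.log L) * Real.exp ((k : ℝ) / (n + 1) * Real.log L) := by
    rw [← Real.exp_add]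
    congr 1
    ring
  rw [h3]
  exact mul_le_mul_of_nonneg_right h1 (by positivity)

/-- The base for groups of `d` sets. -/
theorem base_le' (n : ℕ) (W T b g d : ℕ) (L : ℝ) (hL : 1 ≤ L) (hWT : W ^ T ≤ 2 ^ b)
    (p : ℝ) (hn : 1 ≤ n) (hp : p = 1 + 1 / (n : ℝ)) :
    ((((W : ℝ) ^ (1 - 1 / p)) ^ T) ^ d *
      (((L ^ d) ^ g) ^ (1 - 1 / p) * ((L ^ d) ^ g) ^ (1 - 1 / p))) ^ (g * g) ≤
      Real.exp (((g * g * d : ℕ) : ℝ) * ((b : ℝ) / (n + 1) * Real.log 2 +
        2 * ((g : ℝ) / (n + 1) * Real.log L))) := by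
  have h := base_le n W T b g L hL hWT p hn hp (g * g * d)
  refine le_trans (le_of_eq ?_) h
  have hL0 : 0 < L := by linarith
  have h1 : ((L ^ d) ^ g) ^ (1 - 1 / p) = ((L ^ g) ^ (1 - 1 / p)) ^ d := by
    rw [← pow_mul, mul_comm d g, pow_mul, ← Real.rpow_natCast ((L ^ g) ^ (1 - 1 / p)) d,
      ← Real.rpow_natCast (L ^ g) d, ← Real.rpow_mul (by positivity),
      ← Real.rpow_mul (by positivity), mul_comm]
  rw [h1, ← mul_pow, ← mul_pow, ← pow_mul]
  congr 1
  ring

/-- The number of inputs for which a given pair is disjoint. -/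
theorem sum_disj' (n d g : ℕ) (hn : 2 ≤ n) (I J : Fin g) (c : Fin d) :
    (((Fintype.card (Fin d → Fin n → Fin n) : ℕ) : ℝ) ^ g *
      ((Fintype.card (Fin d → Fin n → Fin n) : ℕ) : ℝ) ^ g) / 4 ≤
    ∑ X : Fin g → Fin d → Fin n → Fin n, ∑ Y : Fin g → Fin d → Fin n → Fin n,
      (if ∀ i, X I c i ≠ Y J c i then (1 : ℝ) else 0) := by
  have : Nonempty (Fin n → Fin n) := ⟨id⟩
  set Q : ℝ := ((Fintype.card (Fin n → Fin n) : ℕ) : ℝ) with hQdef
  have hQ : 0 < Q := by
    rw [hQdef]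
    exact_mod_cast Fintype.card_pos
  set R : ℝ := ((Fintype.card (Fin d → Fin n → Fin n) : ℕ) : ℝ) with hRdef
  have hR : 0 < R := by
    rw [hRdef]
    exact_mod_cast Fintype.card_pos
  have hRQ : R = Q ^ d := by
    rw [hRdef, hQdef, Fintype.card_fun, Fintype.card_fin]
    push_cast
    rfl
  -- inside a group
  have h1 : R * R / 4 ≤ ∑ x : Fin d → Fin n → Fin n, ∑ y : Fin d → Fin n → Fin n,
      (if ∀ i, x c i ≠ y c i then (1 : ℝ) else 0) := by
    have h3 := sum_update2 (α := Fin n → Fin n) c c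
      (fun X Y : Fin d → Fin n → Fin n => if ∀ i, X c i ≠ Y c i then (1 : ℝ) else 0)
    simp only [Function.update_self] at h3
    rw [← hQdef, Finset.sum_const, Finset.sum_const, Finset.card_univ, nsmul_eq_mul,
      nsmul_eq_mul, ← hRdef] at h3
    have h4 := sum_disj n hn
    rw [← hQdef] at h4
    have h6 : Q * Q * (R * R / 4) ≤ Q * Q *
        ∑ x : Fin d → Fin n → Fin n, ∑ y : Fin d → Fin n → Fin n,
          (if ∀ i, x c i ≠ y c i then (1 : ℝ) else 0) := by
      rw [← h3]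
      calc Q * Q * (R * R / 4) = R * (R * (Q * Q / 4)) := by ring
        _ ≤ _ := mul_le_mul_of_nonneg_left (mul_le_mul_of_nonneg_left h4 (by positivity))
            (by positivity)
    exact le_of_mul_le_mul_left h6 (by positivity)
  have h3 := sum_update2 (α := Fin d → Fin n → Fin n) I J
    (fun X Y : Fin g → Fin d → Fin n → Fin n => if ∀ i, X I c i ≠ Y J c i then (1 : ℝ) else 0)
  simp only [Function.update_self] at h3
  rw [← hRdef, Finset.sum_const, Finset.sum_const, Finset.card_univ,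
    Fintype.card_fun (α := Fin g), Fintype.card_fin, nsmul_eq_mul, nsmul_eq_mul] at h3
  have h5 : ((Fintype.card (Fin d → Fin n → Fin n) ^ g : ℕ) : ℝ) = R ^ g := by
    push_cast
    rw [← hRdef]
  rw [h5] at h3
  have h6 : R * R * (R ^ g * R ^ g / 4) ≤ R * R *
      ∑ X : Fin g → Fin d → Fin n → Fin n, ∑ Y : Fin g → Fin d → Fin n → Fin n,
        (if ∀ i, X I c i ≠ Y J c i then (1 : ℝ) else 0) := by
    rw [← h3]
    calc R * R * (R ^ g * R ^ g / 4) = R ^ g * (R ^ g * (R * R / 4)) := by ring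
      _ ≤ _ := mul_le_mul_of_nonneg_left (mul_le_mul_of_nonneg_left h1 (by positivity))
          (by positivity)
  exact le_of_mul_le_mul_left h6 (by positivity)

theorem coreD (g d n b r T W : ℕ) (A : Type) (hW : 1 ≤ W) (hWT : W ^ T ≤ 2 ^ b) (hn : 2 ≤ n)
    (hg : 1 ≤ g) (hd : 1 ≤ d) (hbn : 10000 * b ≤ n) (hgn : 150 * g ≤ n)
    (ρ : (Fin g → Fin d → Fin n → Fin n) × (Fin g → Fin d → Fin n → Fin n) → Fin (2 ^ r))
    (t : Fin (2 ^ r) → Fin g → Fin g → Fin d → Alg A W)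
    (a a' : Fin (2 ^ r) → Fin g → (Fin d → Fin n → Fin n) → A → Fin W)
    (good : (Fin g → Fin d → Fin n → Fin n) × (Fin g → Fin d → Fin n → Fin n) →
      (Fin g × Fin g) × Fin d → Prop)
    [∀ z, DecidablePred (good z)]
    (hgood : ∀ z e, good z e ↔
      ((t (ρ z) e.1.1 e.1.2 e.2).cost (a (ρ z) e.1.1 (z.1 e.1.1)) (a' (ρ z) e.1.2 (z.2 e.1.2)) ≤ T
      ∧ (t (ρ z) e.1.1 e.1.2 e.2).eval (a (ρ z) e.1.1 (z.1 e.1.1)) (a' (ρ z) e.1.2 (z.2 e.1.2)) =
        !(dj (z.1 e.1.1 e.2) (z.2 e.1.2 e.2))))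
    (hbad : ∑ z, ((univ.filter fun e => ¬ good z e).card : ℝ) ≤ 1 / 200000 *
      ((Fintype.card ((Fin g × Fin g) × Fin d) : ℕ) *
        (Fintype.card ((Fin g → Fin d → Fin n → Fin n) × (Fin g → Fin d → Fin n → Fin n)) :
          ℕ))) :
    g * g * d ≤ 6000 * (r + 1) := by
  classical
  set L : ℝ := 1 + 1 / 160 with hLdef
  have hL1 : 1 < L := by rw [hLdef]; norm_num
  set p : ℝ := 1 + 1 / (n : ℝ) with hp
  have hn0 : (0 : ℝ) < n := by positivity
  have hp1 : 1 ≤ p := by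
    rw [hp]
    have : 0 < 1 / (n : ℝ) := by positivity
    linarith
  have : Nonempty (Fin n → Fin n) := ⟨id⟩
  set Q : ℝ := ((Fintype.card (Fin n → Fin n) : ℕ) : ℝ) with hQdef
  have hQ : 0 < Q := by
    rw [hQdef]
    exact_mod_cast Fintype.card_pos
  set R : ℝ := ((Fintype.card (Fin d → Fin n → Fin n) : ℕ) : ℝ) with hRdef
  have hR : 0 < R := by
    rw [hRdef]
    exact_mod_cast Fintype.card_pos
  have hRQ : R = Q ^ d := by
    rw [hRdef, hQdef, Fintype.card_fun, Fintype.card_fin]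
    push_cast
    rfl
  set κ : ℝ := Q ^ (2 - 2 / p) with hκ
  have hκ0 : 0 ≤ κ := by positivity
  have hκd : κ ^ d = R ^ (2 - 2 / p) := by
    rw [hκ, hRQ, ← Real.rpow_natCast (Q ^ (2 - 2 / p)) d, ← Real.rpow_natCast Q d,
      ← Real.rpow_mul hQ.le, ← Real.rpow_mul hQ.le, mul_comm]
  have he : 0 ≤ 1 - 1 / p := by
    have : 1 / p ≤ 1 := by
      rw [div_le_one (by linarith)]
      exact hp1
    linarith
  have hW1 : (1 : ℝ) ≤ W := by exact_mod_cast hW
  set C : ℝ := (((W : ℝ) ^ (1 - 1 / p)) ^ T) ^ d with hC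
  have hC1 : 1 ≤ C := one_le_pow₀ (one_le_pow₀ (Real.one_le_rpow hW1 he))
  -- the kernels
  set K : Fin (2 ^ r) → Fin g → Fin g → (Fin d → Fin n → Fin n) → (Fin d → Fin n → Fin n) → ℝ :=
    fun ρ' I J x y => ∏ c : Fin d, kk L (1 / 2) dj
      ((t ρ' I J c).outcome T (a ρ' I x) (a' ρ' J y)) (x c) (y c) with hK
  have hkk0 : ∀ (o : Option Bool) (x y : Fin n → Fin n), 0 ≤ kk L (1 / 2) dj o x y := by
    intro o x y
    unfold kk
    split_ifs <;> linarith
  have hkkL : ∀ (o : Option Bool) (x y : Fin n → Fin n), kk L (1 / 2) dj o x y ≤ L := by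
    intro o x y
    unfold kk
    split_ifs <;> linarith
  have hK0 : ∀ ρ' i j x y, 0 ≤ K ρ' i j x y := by
    intro ρ' i j x y
    exact Finset.prod_nonneg fun c _ => hkk0 _ _ _
  have hKL : ∀ ρ' i j x y, K ρ' i j x y ≤ L ^ d := by
    intro ρ' i j x y
    exact prod_le_pow L hL1.le univ d (by simp)
      (fun c => kk L (1 / 2) dj ((t ρ' i j c).outcome T (a ρ' i x) (a' ρ' j y)) (x c) (y c))
      (fun _ => hkk0 _ _ _) (fun _ => hkkL _ _ _)
  have hdk : (fun x y : Fin n → Fin n => if dj x y then (1 : ℝ) else 0) =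
      fun x y : Fin n → Fin n => if ∀ i, x i ≠ y i then (1 : ℝ) else 0 := by
    funext x y
    simp [dj]
  have hkB : ∀ o : Option Bool, Bd p κ (kk L (1 / 2) (dj (n := n)) o) := by
    intro o
    refine kk_bd p κ (Real.exp (-1 / 80)) L (1 / 2) (by norm_num) (by norm_num) hL1.le
      weight_num hκ0 dj (Bd.one p hp1) ?_ o
    rw [hdk]
    exact disj_bd n (by omega) p hp
  have hKB : ∀ ρ' i j, Bd p (C * R ^ (2 - 2 / p)) (K ρ' i j) := by
    intro ρ' i j
    rw [← hκd]
    exact multi_tree p hp1 (κ ^ d) (by positivity) hW (a ρ' i) (a' ρ' j) T d (t ρ' i j)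
      (fun o x y => ∏ c : Fin d, kk L (1 / 2) dj (o c) (x c) (y c))
      (fun o => Bd.pi hp1 hκ0 d (fun c => kk L (1 / 2) dj (o c)) (fun _ _ _ => hkk0 _ _ _)
        (fun c => hkB _))
  have hS : ∀ ρ', S (K ρ') univ ≤
      (C * (((L ^ d) ^ g) ^ (1 - 1 / p) * ((L ^ d) ^ g) ^ (1 - 1 / p))) ^ (g * g) *
      (R ^ g * R ^ g) := by
    intro ρ'
    refine S_bound (K ρ') (hK0 ρ') (L ^ d) (one_le_pow₀ hL1.le) (hKL ρ') p C hp1 hC1 (hKB ρ')
      (g * g) univ ?_
    simp
  set M : ℝ := R ^ g * R ^ g with hM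
  have hM0 : 0 < M := by positivity
  have hMcard : ((Fintype.card
      ((Fin g → Fin d → Fin n → Fin n) × (Fin g → Fin d → Fin n → Fin n)) : ℕ) : ℝ) = M := by
    rw [Fintype.card_prod, Fintype.card_fun, Fintype.card_fin, hM, hRdef]
    push_cast
    rfl
  -- upper bound
  have hup : ∑ z : (Fin g → Fin d → Fin n → Fin n) × (Fin g → Fin d → Fin n → Fin n),
      ∏ e : (Fin g × Fin g) × Fin d, (if ¬ good z e then (1 / 2 : ℝ) else
        if dj (z.1 e.1.1 e.2) (z.2 e.1.2 e.2) = true then L else 1) ≤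
      (2 : ℝ) ^ r * (Real.exp (((g * g * d : ℕ) : ℝ) * ((b : ℝ) / (n + 1) * Real.log 2 +
        2 * ((g : ℝ) / (n + 1) * Real.log L))) * M) := by
    have h1 : ∀ z : (Fin g → Fin d → Fin n → Fin n) × (Fin g → Fin d → Fin n → Fin n),
        ∏ e : (Fin g × Fin g) × Fin d, (if ¬ good z e then (1 / 2 : ℝ) else
        if dj (z.1 e.1.1 e.2) (z.2 e.1.2 e.2) = true then L else 1) ≤
        ∑ ρ', ∏ e : Fin g × Fin g, K ρ' e.1 e.2 (z.1 e.1) (z.2 e.2) := by
      intro z
      have h2 : ∏ e : (Fin g × Fin g) × Fin d, (if ¬ good z e then (1 / 2 : ℝ) else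
          if dj (z.1 e.1.1 e.2) (z.2 e.1.2 e.2) = true then L else 1) =
          ∏ e : Fin g × Fin g, K (ρ z) e.1 e.2 (z.1 e.1) (z.2 e.2) := by
        rw [Fintype.prod_prod_type]
        refine Finset.prod_congr rfl fun e _ => ?_
        rw [hK]
        refine Finset.prod_congr rfl fun c _ => ?_
        have h3 := hgood z (e, c)
        have h4 := outcome_iff (t (ρ z) e.1 e.2 c) T (a (ρ z) e.1 (z.1 e.1))
          (a' (ρ z) e.2 (z.2 e.2)) (!(dj (z.1 e.1 c) (z.2 e.2 c)))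
        have h5 : good z (e, c) ↔ (t (ρ z) e.1 e.2 c).outcome T (a (ρ z) e.1 (z.1 e.1))
          (a' (ρ z) e.2 (z.2 e.2)) = some (!(dj (z.1 e.1 c) (z.2 e.2 c))) := h3.trans h4.symm
        unfold kk
        by_cases hg : good z (e, c)
        · rw [if_neg (not_not.2 hg), if_pos (h5.1 hg)]
        · rw [if_pos hg, if_neg (fun h6 => hg (h5.2 h6))]
      rw [h2]
      exact Finset.single_le_sum (f := fun ρ' => ∏ e : Fin g × Fin g,
        K ρ' e.1 e.2 (z.1 e.1) (z.2 e.2)) (fun ρ' _ => Finset.prod_nonneg fun e _ =>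
          hK0 _ _ _ _ _) (Finset.mem_univ (ρ z))
    calc _ ≤ ∑ z : (Fin g → Fin d → Fin n → Fin n) × (Fin g → Fin d → Fin n → Fin n),
          ∑ ρ', ∏ e : Fin g × Fin g, K ρ' e.1 e.2 (z.1 e.1) (z.2 e.2) :=
          Finset.sum_le_sum fun z _ => h1 z
      _ = ∑ ρ', S (K ρ') univ := by
          rw [Finset.sum_comm]
          refine Finset.sum_congr rfl fun ρ' _ => ?_
          rw [S, Fintype.sum_prod_type]
      _ ≤ ∑ _c : Fin (2 ^ r), (C * (((L ^ d) ^ g) ^ (1 - 1 / p) *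
            ((L ^ d) ^ g) ^ (1 - 1 / p))) ^ (g * g) * M := Finset.sum_le_sum fun ρ' _ => hS ρ'
      _ = (2 : ℝ) ^ r * ((C * (((L ^ d) ^ g) ^ (1 - 1 / p) *
            ((L ^ d) ^ g) ^ (1 - 1 / p))) ^ (g * g) * M) := by
          rw [Finset.sum_const, Finset.card_univ, Fintype.card_fin, nsmul_eq_mul]
          push_cast
          rfl
      _ ≤ _ := by
          refine mul_le_mul_of_nonneg_left ?_ (by positivity)
          refine mul_le_mul_of_nonneg_right ?_ hM0.le
          exact base_le' n W T b g d L hL1.le hWT p (by omega) hp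
  -- the number of disjoint pairs
  have hPcard : ((Fintype.card ((Fin g × Fin g) × Fin d) : ℕ) : ℝ) = ((g * g * d : ℕ) : ℝ) := by
    rw [Fintype.card_prod, Fintype.card_prod, Fintype.card_fin, Fintype.card_fin]
  have hkk : (0 : ℝ) < ((g * g * d : ℕ) : ℝ) := by
    have : 0 < g * g * d := Nat.mul_pos (Nat.mul_pos (by omega) (by omega)) (by omega)
    exact_mod_cast this
  have hdis : ((Fintype.card ((Fin g × Fin g) × Fin d) : ℕ) : ℝ) *
      ((Fintype.card ((Fin g → Fin d → Fin n → Fin n) × (Fin g → Fin d → Fin n → Fin n)) :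
        ℕ) : ℝ) / 4 ≤
      ∑ z : (Fin g → Fin d → Fin n → Fin n) × (Fin g → Fin d → Fin n → Fin n),
        ((univ.filter fun e : (Fin g × Fin g) × Fin d =>
          dj (z.1 e.1.1 e.2) (z.2 e.1.2 e.2) = true).card : ℝ) := by
    have h1 : ∀ z : (Fin g → Fin d → Fin n → Fin n) × (Fin g → Fin d → Fin n → Fin n),
        ((univ.filter fun e : (Fin g × Fin g) × Fin d =>
          dj (z.1 e.1.1 e.2) (z.2 e.1.2 e.2) = true).card : ℝ) =
        ∑ e : (Fin g × Fin g) × Fin d,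
          (if ∀ i, z.1 e.1.1 e.2 i ≠ z.2 e.1.2 e.2 i then (1 : ℝ) else 0) := by
      intro z
      rw [Finset.card_filter]
      push_cast
      refine Finset.sum_congr rfl fun e _ => ?_
      simp [dj]
    simp_rw [h1]
    rw [Finset.sum_comm]
    calc ((Fintype.card ((Fin g × Fin g) × Fin d) : ℕ) : ℝ) *
      ((Fintype.card ((Fin g → Fin d → Fin n → Fin n) × (Fin g → Fin d → Fin n → Fin n)) :
        ℕ) : ℝ) / 4 = ∑ _e : (Fin g × Fin g) × Fin d, M / 4 := by
          rw [hMcard, Finset.sum_const, nsmul_eq_mul, Finset.card_univ]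
          ring
      _ ≤ _ := by
          refine Finset.sum_le_sum fun e _ => ?_
          rw [Fintype.sum_prod_type]
          exact sum_disj' n d g hn e.1.1 e.1.2 e.2
  have hgd := count_good
    (Z := (Fin g → Fin d → Fin n → Fin n) × (Fin g → Fin d → Fin n → Fin n))
    (P := (Fin g × Fin g) × Fin d)
    (fun z => ((univ.filter fun e => ¬ good z e).card : ℝ))
    (fun z => ((univ.filter fun e : (Fin g × Fin g) × Fin d =>
      dj (z.1 e.1.1 e.2) (z.2 e.1.2 e.2) = true).card : ℝ))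
    (by rw [hPcard]; exact hkk) (fun z => by positivity)
    (fun z => by
      have := Finset.card_filter_le (univ : Finset ((Fin g × Fin g) × Fin d))
        (fun e : (Fin g × Fin g) × Fin d => dj (z.1 e.1.1 e.2) (z.2 e.1.2 e.2) = true)
      rw [Finset.card_univ] at this
      exact_mod_cast this) hbad hdis
  rw [hMcard, hPcard] at hgd
  -- lower bound
  have hlow : M / 14 * Real.exp (((g * g * d : ℕ) : ℝ) / 8 * Real.log L -
      ((g * g * d : ℕ) : ℝ) / 10000 * (Real.log L + Real.log 2)) ≤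
      ∑ z : (Fin g → Fin d → Fin n → Fin n) × (Fin g → Fin d → Fin n → Fin n),
      ∏ e : (Fin g × Fin g) × Fin d, (if ¬ good z e then (1 / 2 : ℝ) else
        if dj (z.1 e.1.1 e.2) (z.2 e.1.2 e.2) = true then L else 1) := by
    set G := univ.filter fun z :
        (Fin g → Fin d → Fin n → Fin n) × (Fin g → Fin d → Fin n → Fin n) =>
      ((g * g * d : ℕ) : ℝ) / 8 ≤
        ((univ.filter fun e : (Fin g × Fin g) × Fin d =>
          dj (z.1 e.1.1 e.2) (z.2 e.1.2 e.2) = true).card : ℝ) ∧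
      ((univ.filter fun e => ¬ good z e).card : ℝ) ≤ ((g * g * d : ℕ) : ℝ) / 10000 with hG
    have hnn : ∀ z : (Fin g → Fin d → Fin n → Fin n) × (Fin g → Fin d → Fin n → Fin n),
        0 ≤ ∏ e : (Fin g × Fin g) × Fin d, (if ¬ good z e then (1 / 2 : ℝ) else
          if dj (z.1 e.1.1 e.2) (z.2 e.1.2 e.2) = true then L else 1) := by
      intro z
      refine Finset.prod_nonneg fun e _ => ?_
      split_ifs <;> linarith
    calc _ ≤ (G.card : ℝ) * Real.exp (((g * g * d : ℕ) : ℝ) / 8 * Real.log L -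
          ((g * g * d : ℕ) : ℝ) / 10000 * (Real.log L + Real.log 2)) :=
          mul_le_mul_of_nonneg_right hgd (Real.exp_pos _).le
      _ = ∑ _z ∈ G, Real.exp (((g * g * d : ℕ) : ℝ) / 8 * Real.log L -
          ((g * g * d : ℕ) : ℝ) / 10000 * (Real.log L + Real.log 2)) := by
          rw [Finset.sum_const, nsmul_eq_mul]
      _ ≤ ∑ z ∈ G, ∏ e : (Fin g × Fin g) × Fin d, (if ¬ good z e then (1 / 2 : ℝ) else
          if dj (z.1 e.1.1 e.2) (z.2 e.1.2 e.2) = true then L else 1) := by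
          refine Finset.sum_le_sum fun z hz => ?_
          rw [hG, mem_filter] at hz
          obtain ⟨_, hz1, hz2⟩ := hz
          refine le_trans ?_ (prod_ge L hL1 (fun e => ¬ good z e)
            (fun e : (Fin g × Fin g) × Fin d => dj (z.1 e.1.1 e.2) (z.2 e.1.2 e.2) = true))
          apply Real.exp_le_exp.2
          have hl : 0 < Real.log L := Real.log_pos hL1
          have hl2 : 0 < Real.log 2 := Real.log_pos (by norm_num)
          have h1 := mul_le_mul_of_nonneg_right hz1 hl.le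
          have h2 := mul_le_mul_of_nonneg_right hz2 (add_pos hl hl2).le
          linarith
      _ ≤ _ := Finset.sum_le_sum_of_subset_of_nonneg (Finset.filter_subset _ _)
          (fun z _ _ => hnn z)
  have hfin := num_final (g * g * d) r n g b hn0 (by exact_mod_cast hbn)
    (by exact_mod_cast hgn) M hM0 (hlow.trans hup)
  exact_mod_cast hfin

end Pool.Agent.T2h38.JM
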