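import Mathlib
import Pool.Agent.T2h38.JM.Coin
import Pool.Agent.T2h38.JM.CoreD

/-! The parameters for the theorem about probes to the joint memory. -/

namespace Pool.Agent.T2h38.JM

open Finset

/-- The bound for all simulations. -/
theorem sc_all {A : Type} {k S V W : ℕ} (n T t D b : ℕ) (hn : 1 ≤ n) (hW : 1 ≤ W)
    (hWT : W ^ T ≤ 2 ^ b) (hb : 20000 * b ≤ n) (hD : 200 * D ≤ n) (hk : 1 ≤ k)
    (hkn : 8000 * Real.log (2 * (k : ℝ) ^ 2) ≤ n)
    (q : Fin k → Fin k → QAlg A S V W) (a a' : Fin k → (Fin n → Fin n) → A → Fin W)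
    (P : Fin k × Fin k → Finset (Fin S) → Finset (Fin S) → Bool)
    (ρ : Fin S → Fin V) (H' : Finset (Fin S)) (E : Finset (Fin k × Fin k)) :
    SC D (sg q a a' T t P ρ H') (kg (1 + 1 / 160) (1 / 4000) dj q a a' T t P ρ H') E ≤
      2 * (Fintype.card ((Fin k → (Fin n → Fin n)) × (Fin k → (Fin n → Fin n))) : ℕ) := by
  set L : ℝ := 1 + 1 / 160 with hLdef
  set ε : ℝ := 1 / 4000 with hε
  have hL1 : 1 < L := by rw [hLdef]; norm_num
  set p : ℝ := 1 + 1 / (n : ℝ) with hp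
  have hn0 : (0 : ℝ) < n := by exact_mod_cast hn
  have hp1 : 1 < p := by
    rw [hp]
    have : 0 < 1 / (n : ℝ) := by positivity
    linarith
  have : Nonempty (Fin n → Fin n) := ⟨id⟩
  set Q : ℝ := ((Fintype.card (Fin n → Fin n) : ℕ) : ℝ) with hQdef
  have hQ : 0 < Q := by
    rw [hQdef]
    exact_mod_cast Fintype.card_pos
  set κ : ℝ := Q ^ (2 - 2 / p) with hκ
  have hκ0 : 0 ≤ κ := by positivity
  have hδ : 1 - 1 / p = 1 / ((n : ℝ) + 1) := by
    rw [hp]
    field_simp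
    ring
  have hdk : (fun x y : Fin n → Fin n => if dj x y then (1 : ℝ) else 0) =
      fun x y : Fin n → Fin n => if ∀ i, x i ≠ y i then (1 : ℝ) else 0 := by
    funext x y
    simp [dj]
  have hkB : ∀ o : Option Bool, Bd p κ (kk L (1 / 2) (dj (n := n)) o) := by
    intro o
    refine kk_bd p κ (Real.exp (-1 / 80)) L (1 / 2) (by norm_num) (by norm_num) hL1.le
      weight_num hκ0 dj (Bd.one p hp1.le) ?_ o
    rw [hdk]
    exact disj_bd n hn p hp
  have hkk0 : ∀ (o : Option Bool) (x y : Fin n → Fin n), 0 ≤ kk L (1 / 2) dj o x y := by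
    intro o x y
    unfold kk
    split_ifs <;> linarith
  have hkkL : ∀ (o : Option Bool) (x y : Fin n → Fin n), kk L (1 / 2) dj o x y ≤ L := by
    intro o x y
    unfold kk
    split_ifs <;> linarith
  have he1 : Real.exp (-ε) ≤ 1 := by
    rw [Real.exp_le_one_iff, hε]
    norm_num
  set C : ℝ := ((W : ℝ) ^ (1 - 1 / p)) ^ T * Real.exp (-ε) with hC
  have hC0 : 0 ≤ C := by positivity
  have hB : ∀ i j, BdS p (C * Q ^ (2 - 2 / p)) (sg q a a' T t P ρ H' i j)
      (kg L ε dj q a a' T t P ρ H' i j) := by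
    intro i j
    have h1 := tree_bdS p hp1.le (Real.exp (-ε) * κ) (by positivity) hW ρ (a i) (a' j)
      (fun acc => P (i, j) H' acc) (fun o x y => Real.exp (-ε) * kk L (1 / 2) dj o x y)
      (fun o => (hkB o).smul _ (Real.exp_pos _).le) (q i j) T t ∅
    intro f g hf hg
    refine le_trans (le_of_eq ?_) ((h1 f g hf hg).trans (le_of_eq ?_))
    · refine Finset.sum_congr rfl fun x _ => Finset.sum_congr rfl fun y _ => ?_
      unfold sg kg sg
      split_ifs with h2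
      · rfl
      · rfl
    · rw [hC, hκ]
      congr 1
      ring
  set ζ : ℝ := 2 ^ b * Real.exp (-(ε * (n + 1))) * (L ^ D * L ^ D) with hζ
  have hζ1 : C ^ (1 / (1 - 1 / p)) * (L ^ D * L ^ D) ≤ ζ := by
    rw [hζ]
    refine mul_le_mul_of_nonneg_right ?_ (by positivity)
    rw [hC, Real.mul_rpow (by positivity) (Real.exp_pos _).le, hδ, one_div_one_div]
    have e1 : (((W : ℝ) ^ (1 / ((n : ℝ) + 1))) ^ T) ^ ((n : ℝ) + 1) = (W : ℝ) ^ T := by
      rw [← Real.rpow_natCast ((W : ℝ) ^ (1 / ((n : ℝ) + 1))), ← Real.rpow_mul (by positivity),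
        ← Real.rpow_mul (by positivity), ← Real.rpow_natCast]
      congr 1
      field_simp
    have e2 : Real.exp (-ε) ^ ((n : ℝ) + 1) = Real.exp (-(ε * (n + 1))) := by
      rw [← Real.exp_mul]
      congr 1
      ring
    rw [e1, e2]
    refine mul_le_mul_of_nonneg_right ?_ (Real.exp_pos _).le
    exact_mod_cast hWT
  have hbound := SC_bound D (sg q a a' T t P ρ H') (kg L ε dj q a a' T t P ρ H')
    (by
      intro i j x y
      unfold kg
      split_ifs
      · exact mul_nonneg (Real.exp_pos _).le (hkk0 _ _ _)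
      · exact zero_le_one)
    L hL1.le
    (by
      intro i j x y
      unfold kg
      split_ifs
      · calc Real.exp (-ε) * kk L (1 / 2) dj _ x y ≤ 1 * L :=
            mul_le_mul he1 (hkkL _ _ _) (hkk0 _ _ _) zero_le_one
          _ = L := one_mul L
      · exact hL1.le)
    (by
      intro i j x y h
      unfold kg
      rw [h]
      simp)
    p C hp1 hC0 hB ζ hζ1 (by positivity) (k * k) E
    (by
      have := Finset.card_le_univ E
      rw [Fintype.card_prod, Fintype.card_fin] at this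
      exact this)
    (by
      rw [hζ]
      have hk1 : (1 : ℝ) ≤ k := by exact_mod_cast hk
      have hlogL : Real.log L ≤ 1 / 160 := by
        have := Real.log_le_sub_one_of_pos (show (0 : ℝ) < L by linarith)
        rw [hLdef] at this ⊢
        linarith
      have hlog2 := Real.log_two_lt_d9
      have e1 : (2 : ℝ) ^ b = Real.exp (b * Real.log 2) := by
        rw [Real.exp_nat_mul, Real.exp_log (by norm_num)]
      have e2 : L ^ D = Real.exp (D * Real.log L) := by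
        rw [Real.exp_nat_mul, Real.exp_log (by linarith)]
      have e3 : ((k * k : ℕ) : ℝ) * 2 = Real.exp (Real.log (2 * (k : ℝ) ^ 2)) := by
        rw [Real.exp_log (by positivity)]
        push_cast
        ring
      have e4 : ((k * k : ℕ) : ℝ) * (2 * (2 ^ b * Real.exp (-(ε * (n + 1))) * (L ^ D * L ^ D))) =
          Real.exp (Real.log (2 * (k : ℝ) ^ 2) + b * Real.log 2 + -(ε * (n + 1)) +
            (D * Real.log L + D * Real.log L)) := by
        rw [Real.exp_add, Real.exp_add, Real.exp_add, Real.exp_add, ← e3, ← e1, ← e2]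
        ring
      rw [e4, Real.exp_le_one_iff]
      have hb' : 20000 * (b : ℝ) ≤ n := by exact_mod_cast hb
      have hD' : 200 * (D : ℝ) ≤ n := by exact_mod_cast hD
      have hb0 : (0 : ℝ) ≤ b := by positivity
      have hD0 : (0 : ℝ) ≤ D := by positivity
      have f1 : (b : ℝ) * Real.log 2 ≤ b * (7 / 10) :=
        mul_le_mul_of_nonneg_left (by linarith) hb0
      have f2 : (D : ℝ) * Real.log L ≤ D * (1 / 160) := mul_le_mul_of_nonneg_left hlogL hD0
      rw [hε]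
      linarith)
  refine hbound.trans ?_
  have hcard : ((Fintype.card ((Fin k → (Fin n → Fin n)) × (Fin k → (Fin n → Fin n))) : ℕ) : ℝ) =
      Q ^ k * Q ^ k := by
    rw [Fintype.card_prod, Fintype.card_fun, Fintype.card_fin, hQdef]
    push_cast
    rfl
  rw [hcard, ← hQdef]
  refine mul_le_mul_of_nonneg_right ?_ (by positivity)
  have hlast : ((k * k : ℕ) : ℝ) * (2 * ζ) ≤ 1 := by
    rw [hζ]
    have hk1 : (1 : ℝ) ≤ k := by exact_mod_cast hk
    have hlogL : Real.log L ≤ 1 / 160 := by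
      have := Real.log_le_sub_one_of_pos (show (0 : ℝ) < L by linarith)
      rw [hLdef] at this ⊢
      linarith
    have hlog2 := Real.log_two_lt_d9
    have e1 : (2 : ℝ) ^ b = Real.exp (b * Real.log 2) := by
      rw [Real.exp_nat_mul, Real.exp_log (by norm_num)]
    have e2 : L ^ D = Real.exp (D * Real.log L) := by
      rw [Real.exp_nat_mul, Real.exp_log (by linarith)]
    have e3 : ((k * k : ℕ) : ℝ) * 2 = Real.exp (Real.log (2 * (k : ℝ) ^ 2)) := by
      rw [Real.exp_log (by positivity)]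
      push_cast
      ring
    have e4 : ((k * k : ℕ) : ℝ) * (2 * (2 ^ b * Real.exp (-(ε * (n + 1))) * (L ^ D * L ^ D))) =
        Real.exp (Real.log (2 * (k : ℝ) ^ 2) + b * Real.log 2 + -(ε * (n + 1)) +
          (D * Real.log L + D * Real.log L)) := by
      rw [Real.exp_add, Real.exp_add, Real.exp_add, Real.exp_add, ← e3, ← e1, ← e2]
      ring
    rw [e4, Real.exp_le_one_iff]
    have hb' : 20000 * (b : ℝ) ≤ n := by exact_mod_cast hb
    have hD' : 200 * (D : ℝ) ≤ n := by exact_mod_cast hD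
    have hb0 : (0 : ℝ) ≤ b := by positivity
    have hD0 : (0 : ℝ) ≤ D := by positivity
    have f1 : (b : ℝ) * Real.log 2 ≤ b * (7 / 10) :=
      mul_le_mul_of_nonneg_left (by linarith) hb0
    have f2 : (D : ℝ) * Real.log L ≤ D * (1 / 160) := mul_le_mul_of_nonneg_left hlogL hD0
    rw [hε]
    linarith
  linarith

/-- The numerical conclusion. -/
theorem num2 (k D t w l S V Hb m r : ℕ) (hk : 1 ≤ k) (ht : 1 ≤ t) (hV : V = 2 ^ w) (hS : S ≤ 2 ^ l)
    (hQ1 : 64 * k ≤ D * (m + 1) ^ t) (hQ2 : D * (m + 1) ^ t ≤ 2 ^ t * (64 * k))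
    (hHb1 : 64 * (1 + t * Hb) ≤ D) (hHb2 : D ≤ 128 * t * (Hb + 1))
    (hD1 : 600000 * 2 ^ t ≤ D)
    (hD2 : 25600000 * (t ^ 2 * 2 ^ t * (l + w + 1)) * k ≤ D ^ 2)
    (hmain : (k : ℝ) ^ 2 * (Real.log (1 + 1 / 160) / 4 -
        (Real.log (1 + 1 / 160) + Real.log 2) / 200000 - 1 / 4000) / ((m : ℝ) + 1) ^ t ≤
      Real.log (1 + 1 / 160) * (2 * (k : ℝ) ^ 2 *
          ((k : ℝ) / ((m : ℝ) + 1) ^ (2 * t) + ((1 + t * Hb : ℕ) : ℝ) / ((m : ℝ) + 1) ^ t)) / D +
        (Real.log 2 + ((t * (k * k) / (Hb + 1) : ℕ) : ℝ) * Real.log ((S * V + 1 : ℕ) : ℝ) +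
          (S : ℝ) / ((m : ℝ) + 1) * Real.log V + 2 * k * Real.log 2 +
          Real.log ((2 ^ r : ℕ) : ℝ))) :
    k * D ≤ 200000 * 2 ^ t * r ∨ (m + 1) * k * D ≤ 200000 * 2 ^ t * (S * w) := by
  have hk1 : (1 : ℝ) ≤ k := by exact_mod_cast hk
  have hk0 : (0 : ℝ) < k := by linarith
  have hq0 : (0 : ℝ) < (m : ℝ) + 1 := by positivity
  set Q : ℝ := ((m : ℝ) + 1) ^ t with hQ
  have hQ0 : 0 < Q := by positivity
  have hQQ : ((m : ℝ) + 1) ^ (2 * t) = Q * Q := by
    rw [hQ, two_mul, pow_add]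
  have hDpos : 0 < D := by
    have : 0 < 600000 * 2 ^ t := by positivity
    omega
  have hD0 : (0 : ℝ) < D := by exact_mod_cast hDpos
  have hQ1' : 64 * (k : ℝ) ≤ D * Q := by
    rw [hQ]
    exact_mod_cast hQ1
  have hQ2' : D * Q ≤ 2 ^ t * (64 * (k : ℝ)) := by
    rw [hQ]
    exact_mod_cast hQ2
  have hHb1' : 64 * ((1 + t * Hb : ℕ) : ℝ) ≤ D := by exact_mod_cast hHb1
  have hD1' : 600000 * (2 : ℝ) ^ t ≤ D := by exact_mod_cast hD1
  have hD2' : 25600000 * ((t : ℝ) ^ 2 * 2 ^ t * ((l : ℝ) + w + 1)) * k ≤ (D : ℝ) ^ 2 := by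
    exact_mod_cast hD2
  set lL := Real.log (1 + 1 / 160) with hlL
  have hlL1 : 1 / 161 ≤ lL := by
    have := Real.one_sub_inv_le_log_of_pos (x := 1 + 1 / 160) (by norm_num)
    rw [← hlL] at this
    norm_num at this ⊢
    linarith
  have hlL2 : lL ≤ 1 / 160 := by
    have := Real.log_le_sub_one_of_pos (show (0 : ℝ) < 1 + 1 / 160 by norm_num)
    rw [← hlL] at this
    linarith
  have hlog2 := Real.log_two_lt_d9
  have hlog2' := Real.log_two_gt_d9
  set X : ℝ := (k : ℝ) ^ 2 / Q with hX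
  have hX0 : 0 < X := by positivity
  -- the first term on the right
  have hfirst : lL * (2 * (k : ℝ) ^ 2 * ((k : ℝ) / ((m : ℝ) + 1) ^ (2 * t) +
      ((1 + t * Hb : ℕ) : ℝ) / Q)) / D ≤ X / 2560 := by
    rw [hQQ]
    have e1 : lL * (2 * (k : ℝ) ^ 2 * ((k : ℝ) / (Q * Q) + ((1 + t * Hb : ℕ) : ℝ) / Q)) / D =
        lL * (2 * X * (((k : ℝ) / Q + ((1 + t * Hb : ℕ) : ℝ)) / D)) := by
      rw [hX]
      field_simp
    rw [e1]
    have h1 : (k : ℝ) / Q ≤ D / 64 := by
      rw [div_le_iff₀ hQ0]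
      linarith
    have h2 : ((k : ℝ) / Q + ((1 + t * Hb : ℕ) : ℝ)) / D ≤ 1 / 32 := by
      rw [div_le_iff₀ hD0]
      linarith
    have h3 : 2 * X * (((k : ℝ) / Q + ((1 + t * Hb : ℕ) : ℝ)) / D) ≤ 2 * X * (1 / 32) :=
      mul_le_mul_of_nonneg_left h2 (by positivity)
    calc lL * (2 * X * (((k : ℝ) / Q + ((1 + t * Hb : ℕ) : ℝ)) / D)) ≤ lL * (2 * X * (1 / 32)) :=
          mul_le_mul_of_nonneg_left h3 (by linarith)
      _ ≤ 1 / 160 * (2 * X * (1 / 32)) := mul_le_mul_of_nonneg_right hlL2 (by positivity)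
      _ = X / 2560 := by ring
  -- the logarithms
  have hlogV : Real.log V = w * Real.log 2 := by
    rw [hV]
    push_cast
    rw [Real.log_pow]
  have hlogSV : Real.log ((S * V + 1 : ℕ) : ℝ) ≤ ((l : ℝ) + w + 1) * Real.log 2 := by
    have h1 : S * V + 1 ≤ 2 ^ (l + w + 1) := by
      have h2 : S * V ≤ 2 ^ l * 2 ^ w := by
        rw [hV]
        exact Nat.mul_le_mul_right _ hS
      have h3 : 1 ≤ 2 ^ l * 2 ^ w := Nat.one_le_iff_ne_zero.2 (by positivity)
      calc S * V + 1 ≤ 2 ^ l * 2 ^ w + 2 ^ l * 2 ^ w := by omega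
        _ = 2 ^ (l + w + 1) := by ring
    have h2 : ((S * V + 1 : ℕ) : ℝ) ≤ (2 : ℝ) ^ (l + w + 1) := by exact_mod_cast h1
    calc Real.log ((S * V + 1 : ℕ) : ℝ) ≤ Real.log ((2 : ℝ) ^ (l + w + 1)) :=
          Real.log_le_log (by positivity) h2
      _ = _ := by
          rw [Real.log_pow]
          push_cast
          ring
  have hh : ((t * (k * k) / (Hb + 1) : ℕ) : ℝ) ≤ 128 * (t : ℝ) ^ 2 * k ^ 2 / D := by
    rw [le_div_iff₀ hD0]
    have h1 : t * (k * k) / (Hb + 1) * (Hb + 1) ≤ t * (k * k) := Nat.div_mul_le_self _ _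
    have h2 : t * (k * k) / (Hb + 1) * D ≤ 128 * t ^ 2 * k ^ 2 := by
      calc t * (k * k) / (Hb + 1) * D ≤ t * (k * k) / (Hb + 1) * (128 * t * (Hb + 1)) :=
            Nat.mul_le_mul_left _ hHb2
        _ = 128 * t * (t * (k * k) / (Hb + 1) * (Hb + 1)) := by ring
        _ ≤ 128 * t * (t * (k * k)) := Nat.mul_le_mul_left _ h1
        _ = _ := by ring
    exact_mod_cast h2
  set h : ℝ := ((t * (k * k) / (Hb + 1) : ℕ) : ℝ) with hhdef
  have hh0 : 0 ≤ h := by positivity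
  have hlw0 : (0 : ℝ) ≤ (l : ℝ) + w + 1 := by positivity
  -- combine
  have hlogr : Real.log ((2 ^ r : ℕ) : ℝ) = r * Real.log 2 := by
    push_cast
    rw [Real.log_pow]
  have hc1 : X * (9 / 10000) ≤ Real.log 2 * (1 + h * ((l : ℝ) + w + 1) +
      (S : ℝ) / ((m : ℝ) + 1) * w + 2 * k + r) := by
    have e1 : (k : ℝ) ^ 2 * (lL / 4 - (lL + Real.log 2) / 200000 - 1 / 4000) / Q =
        X * (lL / 4 - (lL + Real.log 2) / 200000 - 1 / 4000) := by
      rw [hX]
      ring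
    rw [e1, hlogV, hlogr] at hmain
    have h1 : h * Real.log ((S * V + 1 : ℕ) : ℝ) ≤ h * (((l : ℝ) + w + 1) * Real.log 2) :=
      mul_le_mul_of_nonneg_left hlogSV hh0
    have h2 : X * (9 / 10000 + 1 / 2560) ≤
        X * (lL / 4 - (lL + Real.log 2) / 200000 - 1 / 4000) := by
      refine mul_le_mul_of_nonneg_left ?_ hX0.le
      linarith
    linarith
  have hX2 : (k : ℝ) * D ≤ 64 * 2 ^ t * X := by
    rw [hX, ← mul_div_assoc, le_div_iff₀ hQ0]
    have := mul_le_mul_of_nonneg_left hQ2' hk0.le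
    nlinarith
  have hR0 : 0 ≤ 1 + h * ((l : ℝ) + w + 1) + (S : ℝ) / ((m : ℝ) + 1) * w + 2 * k + r := by
    positivity
  have h2t : (0 : ℝ) < 2 ^ t := by positivity
  have hc2 : (k : ℝ) * D ≤ 50000 * 2 ^ t * (1 + h * ((l : ℝ) + w + 1) +
      (S : ℝ) / ((m : ℝ) + 1) * w + 2 * k + r) := by
    have h1 : X ≤ 781 * (1 + h * ((l : ℝ) + w + 1) + (S : ℝ) / ((m : ℝ) + 1) * w + 2 * k +
        r) := by
      have h2 : Real.log 2 * (1 + h * ((l : ℝ) + w + 1) +
          (S : ℝ) / ((m : ℝ) + 1) * w + 2 * k + r) ≤ (7 / 10) * (1 + h * ((l : ℝ) + w + 1) +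
          (S : ℝ) / ((m : ℝ) + 1) * w + 2 * k + r) :=
        mul_le_mul_of_nonneg_right (by linarith) hR0
      linarith
    calc (k : ℝ) * D ≤ 64 * 2 ^ t * X := hX2
      _ ≤ 64 * 2 ^ t * (781 * (1 + h * ((l : ℝ) + w + 1) + (S : ℝ) / ((m : ℝ) + 1) * w +
          2 * k + r)) := mul_le_mul_of_nonneg_left h1 (by positivity)
      _ = 49984 * 2 ^ t * (1 + h * ((l : ℝ) + w + 1) + (S : ℝ) / ((m : ℝ) + 1) * w +
          2 * k + r) := by ring
      _ ≤ _ := by
          refine mul_le_mul_of_nonneg_right ?_ hR0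
          linarith
  have hA : 50000 * 2 ^ t * (1 + 2 * (k : ℝ)) ≤ k * D / 4 := by
    have h1 : 1 + 2 * (k : ℝ) ≤ 3 * k := by linarith
    have h2 : 50000 * 2 ^ t * (1 + 2 * (k : ℝ)) ≤ 50000 * 2 ^ t * (3 * k) :=
      mul_le_mul_of_nonneg_left h1 (by positivity)
    have h3 := mul_le_mul_of_nonneg_left hD1' hk0.le
    linarith
  have hB : 50000 * 2 ^ t * (h * ((l : ℝ) + w + 1)) ≤ k * D / 4 := by
    have h1 : h * ((l : ℝ) + w + 1) ≤ 128 * (t : ℝ) ^ 2 * k ^ 2 / D * ((l : ℝ) + w + 1) :=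
      mul_le_mul_of_nonneg_right hh hlw0
    calc 50000 * 2 ^ t * (h * ((l : ℝ) + w + 1)) ≤
        50000 * 2 ^ t * (128 * (t : ℝ) ^ 2 * k ^ 2 / D * ((l : ℝ) + w + 1)) :=
          mul_le_mul_of_nonneg_left h1 (by positivity)
      _ = (25600000 * ((t : ℝ) ^ 2 * 2 ^ t * ((l : ℝ) + w + 1)) * k) * k / (4 * D) := by
          field_simp
          ring
      _ ≤ (D : ℝ) ^ 2 * k / (4 * D) := by
          refine div_le_div_of_nonneg_right ?_ (by positivity)
          exact mul_le_mul_of_nonneg_right hD2' hk0.le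
      _ = k * D / 4 := by
          field_simp
  have hc3 : (k : ℝ) * D / 2 ≤ 50000 * 2 ^ t * ((S : ℝ) / ((m : ℝ) + 1) * w) +
      50000 * 2 ^ t * r := by
    have e1 : 50000 * 2 ^ t * (1 + h * ((l : ℝ) + w + 1) + (S : ℝ) / ((m : ℝ) + 1) * w + 2 * k +
        r) = 50000 * 2 ^ t * (1 + 2 * (k : ℝ)) + 50000 * 2 ^ t * (h * ((l : ℝ) + w + 1)) +
        50000 * 2 ^ t * ((S : ℝ) / ((m : ℝ) + 1) * w) + 50000 * 2 ^ t * r := by ring
    rw [e1] at hc2
    linarith
  by_cases hr : (k : ℝ) * D / 4 ≤ 50000 * 2 ^ t * r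
  · left
    have h1 : (k : ℝ) * D ≤ 200000 * 2 ^ t * r := by linarith
    exact_mod_cast h1
  · right
    push Not at hr
    have hc5 : (k : ℝ) * D / 4 ≤ 50000 * 2 ^ t * ((S : ℝ) / ((m : ℝ) + 1) * w) := by linarith
    have hc4 : ((m : ℝ) + 1) * k * D ≤ 200000 * 2 ^ t * (S * w) := by
      have h1 := mul_le_mul_of_nonneg_left hc5 (show 0 ≤ 4 * ((m : ℝ) + 1) by positivity)
      have e1 : 4 * ((m : ℝ) + 1) * (50000 * 2 ^ t * ((S : ℝ) / ((m : ℝ) + 1) * w)) =
          200000 * 2 ^ t * (S * w) := by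
        field_simp
        ring
      rw [e1] at h1
      calc ((m : ℝ) + 1) * k * D = 4 * ((m : ℝ) + 1) * (k * D / 4) := by ring
        _ ≤ _ := h1
    exact_mod_cast hc4

/-- The last computation with natural numbers. -/
theorem num3 (N k D t q X : ℕ) (hN : N ≤ 800 * (k * D)) (hq : 64 * k ≤ D * q ^ t)
    (hX : q * k * D ≤ 200000 * 2 ^ t * X) :
    N ^ (t + 1) ≤ (160000000 * 2 ^ t * X) ^ t * (13 * D ^ 2) := by
  have h1 : (k * D) ^ t * (64 * k) ≤ (200000 * 2 ^ t * X) ^ t * D := by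
    calc (k * D) ^ t * (64 * k) ≤ (k * D) ^ t * (D * q ^ t) := Nat.mul_le_mul_left _ hq
      _ = (q * k * D) ^ t * D := by ring
      _ ≤ (200000 * 2 ^ t * X) ^ t * D := Nat.mul_le_mul_right _ (Nat.pow_le_pow_left hX t)
  have h2 : 64 * N ^ (t + 1) ≤ 64 * ((160000000 * 2 ^ t * X) ^ t * (13 * D ^ 2)) := by
    calc 64 * N ^ (t + 1) ≤ 64 * (800 * (k * D)) ^ (t + 1) :=
          Nat.mul_le_mul_left _ (Nat.pow_le_pow_left hN _)
      _ = 800 ^ t * 800 * D * ((k * D) ^ t * (64 * k)) := by ring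
      _ ≤ 800 ^ t * 800 * D * ((200000 * 2 ^ t * X) ^ t * D) := Nat.mul_le_mul_left _ h1
      _ = (800 * (200000 * 2 ^ t * X)) ^ t * (800 * D ^ 2) := by
          rw [mul_pow 800]
          ring
      _ = (160000000 * 2 ^ t * X) ^ t * (800 * D ^ 2) := by
          congr 2
          ring
      _ ≤ (160000000 * 2 ^ t * X) ^ t * (832 * D ^ 2) :=
          Nat.mul_le_mul_left _ (Nat.mul_le_mul_right _ (by norm_num))
      _ = _ := by ring
  omega

end Pool.Agent.T2h38.JM
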