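import Mathlib
import Pool.Agent.T2h38.JM.Fin2

/-! The average over the coins. -/

namespace Pool.Agent.T2h38.JM

open Finset

/-- The number of inputs for which a given pair is disjoint. -/
theorem sum_disj1 (n k : ℕ) (hn : 2 ≤ n) (i j : Fin k) :
    ((Fintype.card ((Fin k → (Fin n → Fin n)) × (Fin k → (Fin n → Fin n))) : ℕ) : ℝ) / 4 ≤
    ∑ z : (Fin k → (Fin n → Fin n)) × (Fin k → (Fin n → Fin n)),
      (if dj (z.1 i) (z.2 j) = true then (1 : ℝ) else 0) := by
  have : Nonempty (Fin n → Fin n) := ⟨id⟩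
  set Q : ℝ := ((Fintype.card (Fin n → Fin n) : ℕ) : ℝ) with hQdef
  have hQ : 0 < Q := by
    rw [hQdef]
    exact_mod_cast Fintype.card_pos
  have hcard : ((Fintype.card ((Fin k → (Fin n → Fin n)) × (Fin k → (Fin n → Fin n))) : ℕ) : ℝ) =
      Q ^ k * Q ^ k := by
    rw [Fintype.card_prod, Fintype.card_fun, Fintype.card_fin, hQdef]
    push_cast
    rfl
  rw [hcard, Fintype.sum_prod_type]
  have h3 := sum_update2 (α := Fin n → Fin n) i j
    (fun X Y : Fin k → Fin n → Fin n => if dj (X i) (Y j) = true then (1 : ℝ) else 0)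
  simp only [Function.update_self] at h3
  rw [← hQdef, Finset.sum_const, Finset.sum_const, Finset.card_univ,
    Fintype.card_fun (α := Fin k), Fintype.card_fin, nsmul_eq_mul, nsmul_eq_mul] at h3
  have h5 : ((Fintype.card (Fin n → Fin n) ^ k : ℕ) : ℝ) = Q ^ k := by
    push_cast
    rw [← hQdef]
  rw [h5] at h3
  have h4 := sum_disj n hn
  rw [← hQdef] at h4
  have h4' : Q * Q / 4 ≤ ∑ x : Fin n → Fin n, ∑ y : Fin n → Fin n,
      (if dj x y = true then (1 : ℝ) else 0) := by
    refine h4.trans (le_of_eq ?_)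
    refine Finset.sum_congr rfl fun x _ => Finset.sum_congr rfl fun y _ => ?_
    simp [dj]
  have h6 : Q * Q * (Q ^ k * Q ^ k / 4) ≤ Q * Q *
      ∑ X : Fin k → Fin n → Fin n, ∑ Y : Fin k → Fin n → Fin n,
        (if dj (X i) (Y j) = true then (1 : ℝ) else 0) := by
    rw [← h3]
    calc Q * Q * (Q ^ k * Q ^ k / 4) = Q ^ k * (Q ^ k * (Q * Q / 4)) := by ring
      _ ≤ _ := mul_le_mul_of_nonneg_left (mul_le_mul_of_nonneg_left h4' (by positivity))
          (by positivity)
  exact le_of_mul_le_mul_left h6 (by positivity)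

open Classical in
/-- The average of the weights over the coins and the inputs. -/
theorem avg_weight (n k : ℕ) (hn : 2 ≤ n) (L ε : ℝ) (hL : 1 < L) {ι : Type} [Fintype ι]
    (pr : ι → ℝ) (h1 : ∑ c, pr c = 1)
    (bad : ι → (Fin k → (Fin n → Fin n)) × (Fin k → (Fin n → Fin n)) → Fin k × Fin k → Prop)
    (hbad : ∀ z e, ∑ c, (if bad c z e then pr c else 0) ≤ 1 / 200000) :
    (Fintype.card ((Fin k → (Fin n → Fin n)) × (Fin k → (Fin n → Fin n))) : ℕ) *
      ((k : ℝ) ^ 2 * (Real.log L / 4 - (Real.log L + Real.log 2) / 200000 - ε)) ≤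
    ∑ c, pr c * ∑ z : (Fin k → (Fin n → Fin n)) × (Fin k → (Fin n → Fin n)),
      ∑ e : Fin k × Fin k, wt2 L ε (dj (z.1 e.1) (z.2 e.2) = true) (bad c z e) := by
  set Zc : ℝ := ((Fintype.card ((Fin k → (Fin n → Fin n)) × (Fin k → (Fin n → Fin n))) : ℕ) : ℝ)
    with hZc
  have hl : 0 < Real.log L := Real.log_pos hL
  have hl2 : 0 < Real.log 2 := Real.log_pos (by norm_num)
  have hrew : ∑ c, pr c * ∑ z : (Fin k → (Fin n → Fin n)) × (Fin k → (Fin n → Fin n)),
      ∑ e : Fin k × Fin k, wt2 L ε (dj (z.1 e.1) (z.2 e.2) = true) (bad c z e) =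
      ∑ e : Fin k × Fin k, ∑ z : (Fin k → (Fin n → Fin n)) × (Fin k → (Fin n → Fin n)),
        (Real.log L * (if dj (z.1 e.1) (z.2 e.2) = true then (1 : ℝ) else 0) -
          (Real.log L + Real.log 2) * (∑ c, (if bad c z e then pr c else 0)) - ε) := by
    have h2 : ∀ c, pr c * ∑ z : (Fin k → (Fin n → Fin n)) × (Fin k → (Fin n → Fin n)),
        ∑ e : Fin k × Fin k, wt2 L ε (dj (z.1 e.1) (z.2 e.2) = true) (bad c z e) =
        ∑ e : Fin k × Fin k, ∑ z : (Fin k → (Fin n → Fin n)) × (Fin k → (Fin n → Fin n)),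
        pr c * wt2 L ε (dj (z.1 e.1) (z.2 e.2) = true) (bad c z e) := by
      intro c
      rw [Finset.mul_sum, Finset.sum_comm]
      refine Finset.sum_congr rfl fun z _ => ?_
      rw [Finset.mul_sum]
    simp_rw [h2]
    rw [Finset.sum_comm]
    refine Finset.sum_congr rfl fun e _ => ?_
    rw [Finset.sum_comm]
    refine Finset.sum_congr rfl fun z _ => ?_
    have h3 : ∀ c, pr c * wt2 L ε (dj (z.1 e.1) (z.2 e.2) = true) (bad c z e) =
        pr c * (Real.log L * (if dj (z.1 e.1) (z.2 e.2) = true then (1 : ℝ) else 0) - ε) -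
        (Real.log L + Real.log 2) * (if bad c z e then pr c else 0) := by
      intro c
      unfold wt2
      by_cases hd : dj (z.1 e.1) (z.2 e.2) = true
      · by_cases hb : bad c z e
        · simp only [hd, hb, if_true]
          ring
        · simp only [hd, hb, if_true, if_false]
          ring
      · by_cases hb : bad c z e
        · simp only [hd, hb, if_true, if_false, Bool.false_eq_true]
          ring
        · simp only [hd, hb, if_false, Bool.false_eq_true]
          ring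
    simp_rw [h3]
    rw [Finset.sum_sub_distrib, ← Finset.sum_mul, h1, ← Finset.mul_sum]
    ring
  rw [hrew]
  have hone : ∀ e : Fin k × Fin k,
      Zc * (Real.log L / 4 - (Real.log L + Real.log 2) / 200000 - ε) ≤
      ∑ z : (Fin k → (Fin n → Fin n)) × (Fin k → (Fin n → Fin n)),
        (Real.log L * (if dj (z.1 e.1) (z.2 e.2) = true then (1 : ℝ) else 0) -
          (Real.log L + Real.log 2) * (∑ c, (if bad c z e then pr c else 0)) - ε) := by
    intro e
    have h2 : ∑ z : (Fin k → (Fin n → Fin n)) × (Fin k → (Fin n → Fin n)),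
        (Real.log L * (if dj (z.1 e.1) (z.2 e.2) = true then (1 : ℝ) else 0) -
          (Real.log L + Real.log 2) * (1 / 200000) - ε) ≤
        ∑ z : (Fin k → (Fin n → Fin n)) × (Fin k → (Fin n → Fin n)),
        (Real.log L * (if dj (z.1 e.1) (z.2 e.2) = true then (1 : ℝ) else 0) -
          (Real.log L + Real.log 2) * (∑ c, (if bad c z e then pr c else 0)) - ε) := by
      refine Finset.sum_le_sum fun z _ => ?_
      have := mul_le_mul_of_nonneg_left (hbad z e) (add_pos hl hl2).le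
      linarith
    refine le_trans ?_ h2
    have h3 := sum_disj1 n k hn e.1 e.2
    rw [← hZc] at h3
    rw [Finset.sum_sub_distrib, Finset.sum_sub_distrib, ← Finset.mul_sum, Finset.sum_const,
      Finset.sum_const, Finset.card_univ, nsmul_eq_mul, nsmul_eq_mul, ← hZc]
    have h4 := mul_le_mul_of_nonneg_left h3 hl.le
    linarith
  calc Zc * ((k : ℝ) ^ 2 * (Real.log L / 4 - (Real.log L + Real.log 2) / 200000 - ε)) =
      ∑ _e : Fin k × Fin k, Zc * (Real.log L / 4 - (Real.log L + Real.log 2) / 200000 - ε) := by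
        rw [Finset.sum_const, Finset.card_univ, Fintype.card_prod, Fintype.card_fin, nsmul_eq_mul]
        push_cast
        ring
    _ ≤ _ := Finset.sum_le_sum fun e _ => hone e

/-- The choice of the sampling rate. -/
theorem exists_rate (k D t : ℕ) (hk : 1 ≤ k) (hD : 1 ≤ D) (hDk : D ≤ k) (ht : 1 ≤ t) :
    ∃ m : ℕ, 64 * k ≤ D * (m + 1) ^ t ∧ D * (m + 1) ^ t ≤ 2 ^ t * (64 * k) := by
  classical
  have hex : ∃ q : ℕ, 64 * k ≤ D * q ^ t := by
    refine ⟨64 * k, ?_⟩
    calc 64 * k ≤ (64 * k) ^ t := Nat.le_self_pow (by omega) _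
      _ ≤ D * (64 * k) ^ t := Nat.le_mul_of_pos_left _ hD
  set q := Nat.find hex with hq
  have h1 : 64 * k ≤ D * q ^ t := Nat.find_spec hex
  have hq0 : q ≠ 0 := by
    intro h0
    rw [h0, zero_pow (by omega), mul_zero] at h1
    omega
  obtain ⟨m, hm⟩ := Nat.exists_eq_succ_of_ne_zero hq0
  refine ⟨m, ?_, ?_⟩
  · rw [← Nat.succ_eq_add_one, ← hm]
    exact h1
  · rcases Nat.eq_zero_or_pos m with h0 | hpos
    · rw [h0, zero_add, one_pow, mul_one]
      have : 1 ≤ 2 ^ t := Nat.one_le_two_pow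
      nlinarith
    · have h2 : ¬ (64 * k ≤ D * m ^ t) := by
        have := Nat.find_min hex (m := m) (by rw [← hq, hm]; exact Nat.lt_succ_self m)
        exact this
      push Not at h2
      calc D * (m + 1) ^ t ≤ D * (2 * m) ^ t :=
            Nat.mul_le_mul_left _ (Nat.pow_le_pow_left (by omega) t)
        _ = 2 ^ t * (D * m ^ t) := by ring
        _ ≤ 2 ^ t * (64 * k) := Nat.mul_le_mul_left _ h2.le

/-- The choice of the threshold for heavy cells. -/
theorem exists_heavy (D t : ℕ) (hD : 64 ≤ D) (ht : 1 ≤ t) :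
    ∃ Hb : ℕ, 64 * (1 + t * Hb) ≤ D ∧ D ≤ 128 * t * (Hb + 1) := by
  refine ⟨(D / 64 - 1) / t, ?_, ?_⟩
  · have h1 : (D / 64 - 1) / t * t ≤ D / 64 - 1 := Nat.div_mul_le_self _ _
    have h2 : D / 64 * 64 ≤ D := Nat.div_mul_le_self _ _
    have h3 : 1 ≤ D / 64 := Nat.div_pos hD (by norm_num)
    have h4 : t * ((D / 64 - 1) / t) = (D / 64 - 1) / t * t := mul_comm _ _
    omega
  · have h1 := Nat.lt_mul_div_succ (D / 64 - 1) (show 0 < t from ht)
    have h2 := Nat.lt_mul_div_succ D (show 0 < 64 by norm_num)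
    have h3 : 1 ≤ D / 64 := Nat.div_pos hD (by norm_num)
    have h4 : 128 * t * ((D / 64 - 1) / t + 1) = 128 * (t * ((D / 64 - 1) / t + 1)) := by ring
    omega

end Pool.Agent.T2h38.JM
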